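import Pool.Agent.WD.W8

set_option autoImplicit false

open Finset
open scoped Classical

namespace WD

/-- [WD-12] triples with a first coordinate in a small set.
PROOF. Each `(u, v, w) ∈ A` has a `W`. `u ∈ 𝓤`, `W ∈ (ff u).divisors` (`ff u ≠ 0`), at most `B` values (`DB.ff_card`), and `v, w` are in `{z ≤ N | W ∣ ff z}`, at most `B³ (N/W + 1) ≤ B³ (N/w0 + 1)` values each (`zcount`, `DB.ff_div`). So `A ⊆ 𝓤.biUnion ..` or: `A` is contained in the image of the `Finset.sigma` over `u ∈ 𝓤`, `W ∈ (ff u).divisors` (odd, `w0 ≤ W`) of the product set. -/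
theorem first {N : ℕ} {w0 B : ℝ} (hw0 : 0 < w0) (hB : DB B N) (𝓤 : Finset ℕ)
    (h𝓤 : ∀ u ∈ 𝓤, 3 ≤ u ∧ u ≤ N) (A : Finset (ℕ × ℕ × ℕ))
    (hA : ∀ t ∈ A, t.1 ∈ 𝓤 ∧ t.2.1 ≤ N ∧ t.2.2 ≤ N ∧ ∃ W : ℕ, Odd W ∧ w0 ≤ W ∧
      W ∣ ff t.1 ∧ W ∣ ff t.2.1 ∧ W ∣ ff t.2.2) :
    (A.card : ℝ) ≤ 𝓤.card * (B * (B ^ 3 * (N / w0 + 1)) ^ 2) := by
  classical
  have hB1 : 1 ≤ B := hB.1
  set Zs : ℕ → Finset ℕ := fun W => (range (N + 1)).filter (fun z => W ∣ ff z) with hZs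
  set G : ℕ → Finset (ℕ × ℕ × ℕ) := fun u =>
    ((ff u).divisors.filter (fun W : ℕ => Odd W ∧ w0 ≤ (W : ℝ))).biUnion
      (fun W => ({u} : Finset ℕ) ×ˢ (Zs W ×ˢ Zs W)) with hG
  have hsub : A ⊆ 𝓤.biUnion G := by
    intro t ht
    obtain ⟨h1, h2, h3, W, hWo, hW0, d1, d2, d3⟩ := hA t ht
    rw [mem_biUnion]
    refine ⟨t.1, h1, ?_⟩
    rw [hG, mem_biUnion]
    refine ⟨W, ?_, ?_⟩
    · rw [mem_filter, Nat.mem_divisors]
      refine ⟨⟨d1, ?_⟩, hWo, hW0⟩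
      have h4 := (h𝓤 _ h1).1
      unfold ff
      have e1 : t.1 ≠ 0 := by omega
      have e2 : t.1 - 1 ≠ 0 := by omega
      have e3 : t.1 - 2 ≠ 0 := by omega
      exact mul_ne_zero (mul_ne_zero e1 e2) e3
    · rw [mem_product, mem_product]
      refine ⟨by simp, ?_, ?_⟩
      · rw [hZs, mem_filter, mem_range]
        exact ⟨by omega, d2⟩
      · rw [hZs, mem_filter, mem_range]
        exact ⟨by omega, d3⟩
  have hK0 : 0 ≤ B ^ 3 * ((N : ℝ) / w0 + 1) := by positivity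
  have hcard : ∀ u ∈ 𝓤, ((G u).card : ℝ) ≤ B * (B ^ 3 * (N / w0 + 1)) ^ 2 := by
    intro u hu
    obtain ⟨hu3, huN⟩ := h𝓤 u hu
    have h1 : ((G u).card : ℝ) ≤ ∑ W ∈ (ff u).divisors.filter (fun W : ℕ => Odd W ∧ w0 ≤ (W : ℝ)),
        (B ^ 3 * ((N : ℝ) / w0 + 1)) ^ 2 := by
      have h2 : (G u).card ≤ ∑ W ∈ (ff u).divisors.filter (fun W : ℕ => Odd W ∧ w0 ≤ (W : ℝ)),
          (({u} : Finset ℕ) ×ˢ (Zs W ×ˢ Zs W)).card := card_biUnion_le
      refine le_trans (Nat.cast_le.2 h2) ?_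
      rw [Nat.cast_sum]
      refine sum_le_sum fun W hW => ?_
      rw [mem_filter, Nat.mem_divisors] at hW
      obtain ⟨⟨hWd, -⟩, hWo, hW0⟩ := hW
      obtain ⟨hW1, -, hWB⟩ := hB.ff_div hu3 huN hWd
      have h3 := zcount (N := N) hWo hWB
      have hWpos : (0 : ℝ) < W := by exact_mod_cast hW1
      have h4 : ((Zs W).card : ℝ) ≤ B ^ 3 * ((N : ℝ) / w0 + 1) := by
        refine le_trans h3 ?_
        have h5 : (N : ℝ) / W ≤ N / w0 :=
          div_le_div_of_nonneg_left (Nat.cast_nonneg _) hw0 hW0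
        have h6 : (0 : ℝ) ≤ B ^ 3 := by positivity
        nlinarith
      rw [card_product, card_product, card_singleton, one_mul]
      push_cast
      rw [sq]
      exact mul_le_mul h4 h4 (Nat.cast_nonneg _) hK0
    refine le_trans h1 ?_
    rw [sum_const, nsmul_eq_mul]
    refine mul_le_mul_of_nonneg_right ?_ (sq_nonneg _)
    refine le_trans ?_ (hB.ff_card hu3 huN)
    exact_mod_cast card_filter_le _ _
  calc (A.card : ℝ) ≤ ((𝓤.biUnion G).card : ℝ) := by exact_mod_cast card_le_card hsub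
    _ ≤ ∑ u ∈ 𝓤, ((G u).card : ℝ) := by exact_mod_cast card_biUnion_le
    _ ≤ ∑ u ∈ 𝓤, B * (B ^ 3 * (N / w0 + 1)) ^ 2 := sum_le_sum hcard
    _ = _ := by rw [sum_const, nsmul_eq_mul]

/-- [WD-12] multiples of `4^j` -/
theorem card_mult (N j a : ℕ) :
    (((range (N + 1)).filter (fun u => a < u ∧ 4 ^ j ∣ u - a)).card : ℝ) ≤ N / 4 ^ j := by
  have h4 : 0 < 4 ^ j := by positivity
  have h1 : ((range (N + 1)).filter (fun u => a < u ∧ 4 ^ j ∣ u - a)).card ≤ (Icc 1 (N / 4 ^ j)).card := by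
    refine card_le_card_of_injOn (fun u => (u - a) / 4 ^ j) ?_ ?_
    · intro u hu
      simp only [coe_filter, mem_range, Set.mem_ofPred_eq] at hu
      obtain ⟨h1, h2, h3⟩ := hu
      simp only [coe_Icc, Set.mem_Icc]
      refine ⟨?_, ?_⟩
      · rw [Nat.le_div_iff_mul_le h4, one_mul]
        exact Nat.le_of_dvd (by omega) h3
      · exact Nat.div_le_div_right (by omega)
    · intro u hu v hv huv
      simp only [coe_filter, mem_range, Set.mem_ofPred_eq] at hu hv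
      simp only at huv
      have e1 := Nat.div_mul_cancel hu.2.2
      have e2 := Nat.div_mul_cancel hv.2.2
      rw [huv, e2] at e1
      omega
  rw [Nat.card_Icc, Nat.add_sub_cancel] at h1
  calc (((range (N + 1)).filter (fun u => a < u ∧ 4 ^ j ∣ u - a)).card : ℝ)
      ≤ ((N / 4 ^ j : ℕ) : ℝ) := by exact_mod_cast h1
    _ ≤ (N : ℝ) / ((4 ^ j : ℕ) : ℝ) := Nat.cast_div_le
    _ = N / 4 ^ j := by push_cast; rfl

theorem w12_ff_cast (x : ℕ) : (ff x : ℤ) = (x : ℤ) * (x - 1) * (x - 2) := by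
  unfold ff
  rcases x with _ | _ | x
  · simp
  · simp
  · push_cast
    ring

theorem w12_pr (k : Fin 6) : (pr k).1 + (pr k).2 ≤ 2 := by
  fin_cases k <;> simp [pr]

theorem w12_dvd_ff {x p m : ℕ} (hp : p ≤ 2) (h : (m : ℤ) ∣ (x : ℤ) - p) : (m : ℤ) ∣ (ff x : ℤ) := by
  rw [w12_ff_cast]
  interval_cases p
  · refine Dvd.dvd.mul_right (Dvd.dvd.mul_right ?_ _) _
    simpa using h
  · refine Dvd.dvd.mul_right (Dvd.dvd.mul_left ?_ _) _
    simpa using h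
  · refine Dvd.dvd.mul_left ?_ _
    simpa using h

theorem w12_prod_dvd {M : Fin 6 → ℕ} (hc : ∀ k l, k ≠ l → Nat.Coprime (M k) (M l)) {z : ℕ}
    (h : ∀ k, (M k : ℤ) ∣ (z : ℤ)) : (∏ k, M k) ∣ z := by
  have h1 : (∏ k, (M k : ℤ)) ∣ (z : ℤ) := by
    refine Finset.prod_dvd_of_coprime ?_ (fun k _ => h k)
    intro k _ l _ hkl
    exact Nat.isCoprime_iff_coprime.2 (hc k l hkl)
  have h2 : ((∏ k, M k : ℕ) : ℤ) ∣ (z : ℤ) := by
    push_cast
    exact h1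
  exact_mod_cast h2

/-- [WD-12] from the structure of a pair (`p₁, p₂, p₁ + p₂ ≤ 2`).
PROOF. Each `M k` divides `x - p₁` with `p₁ ≤ 2`, so divides `ff x` (in `ℤ`: `(ff x : ℤ) = x (x-1) (x-2)`, true also for `x ≤ 2`), pairwise coprime; similarly `y`, and `x + y ≡ p₁ + p₂ ≤ 2`. -/
theorem Str.dvd_ff {x y : ℕ} {M : Fin 6 → ℕ} (h : Str x y M) :
    (∏ k, M k) ∣ ff x ∧ (∏ k, M k) ∣ ff y ∧ (∏ k, M k) ∣ ff (x + y) := by
  refine ⟨w12_prod_dvd h.cop fun k => ?_, w12_prod_dvd h.cop fun k => ?_, w12_prod_dvd h.cop fun k => ?_⟩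
  · exact w12_dvd_ff (p := (pr k).1) (by have := w12_pr k; omega) (h.d1 k)
  · exact w12_dvd_ff (p := (pr k).2) (by have := w12_pr k; omega) (h.d2 k)
  · refine w12_dvd_ff (p := (pr k).1 + (pr k).2) (w12_pr k) ?_
    have h1 := dvd_add (h.d1 k) (h.d2 k)
    have h2 : (((x + y : ℕ) : ℤ)) - (((pr k).1 + (pr k).2 : ℕ) : ℤ) =
        ((x : ℤ) - (pr k).1) + ((y : ℤ) - (pr k).2) := by push_cast; ring
    rw [h2]
    exact h1

theorem w12_odd_prod {M : Fin 6 → ℕ} (h : ∀ k, Odd (M k)) : Odd (∏ k, M k) := by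
  refine Finset.prod_induction M Odd (fun a b ha hb => ha.mul hb) odd_one (fun k _ => h k)

/-- [WD-12] the exceptional triples.
PROOF. `A = A₁ ∪ A₂ ∪ A₃` according to the three alternatives; `(a, b) = pr k0`. `A₁`: `first` with `u = x`, `𝓤 = {u ≤ N | a < u, 4^j ∣ u - a}` (`u - a ≥ 4`, so `u ≥ 3`), other coordinates `y, z`; `A₂`: the image under `(x, y, z) ↦ (y, x, z)`; `A₃`: the image under the injective map `(x, y, z) ↦ (x + y, x, z)`, `𝓤 = {u | a + b < u, 4^j ∣ u - (a + b)}` (`ND` gives `a < x`, `b < y`). `card_mult`, `Str.dvd_ff`, `Core.wz`; `W = ∏ M` is odd. -/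
theorem exceptional {N j : ℕ} {R w0 B : ℝ} (hj : 1 ≤ j) (hw0 : 0 < w0) (hB : DB B N) (k0 : Fin 6)
    (A : Finset (ℕ × ℕ × ℕ))
    (hA : ∀ t ∈ A, t.1 + t.2.1 + t.2.2 ≤ N ∧ ∃ M : Fin 6 → ℕ, Core R k0 t.1 t.2.1 t.2.2 M ∧
      w0 ≤ ((∏ k, M k : ℕ) : ℝ) ∧ (4 ^ j ∣ t.1 - (pr k0).1 ∨ 4 ^ j ∣ t.2.1 - (pr k0).2 ∨
        4 ^ j ∣ (t.1 - (pr k0).1) + (t.2.1 - (pr k0).2))) :
    (A.card : ℝ) ≤ 3 * (N / 4 ^ j) * (B * (B ^ 3 * (N / w0 + 1)) ^ 2) := by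
  classical
  have hB1 : 1 ≤ B := hB.1
  set a := (pr k0).1 with ha
  set b := (pr k0).2 with hb
  set Q : ℝ := B * (B ^ 3 * (N / w0 + 1)) ^ 2 with hQ
  have hQ0 : 0 ≤ Q := by positivity
  have h4j : 4 ≤ 4 ^ j := by
    calc 4 = 4 ^ 1 := (pow_one 4).symm
      _ ≤ 4 ^ j := Nat.pow_le_pow_right (by norm_num) hj
  set U : ℕ → Finset ℕ := fun c => (range (N + 1)).filter (fun u => c < u ∧ 4 ^ j ∣ u - c) with hU
  have hU3 : ∀ c, ∀ u ∈ U c, 3 ≤ u ∧ u ≤ N := by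
    intro c u hu
    rw [hU, mem_filter, mem_range] at hu
    obtain ⟨h1, h2, h3⟩ := hu
    have h5 := Nat.le_of_dvd (by omega) h3
    omega
  have hUc : ∀ c, ((U c).card : ℝ) ≤ N / 4 ^ j := fun c => card_mult N j c
  have key : ∀ (c : ℕ) (A' : Finset (ℕ × ℕ × ℕ)),
      (∀ t ∈ A', t.1 ∈ U c ∧ t.2.1 ≤ N ∧ t.2.2 ≤ N ∧ ∃ W : ℕ, Odd W ∧ w0 ≤ W ∧
        W ∣ ff t.1 ∧ W ∣ ff t.2.1 ∧ W ∣ ff t.2.2) → (A'.card : ℝ) ≤ N / 4 ^ j * Q := by
    intro c A' hA'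
    refine le_trans (first hw0 hB (U c) (hU3 c) A' hA') ?_
    exact mul_le_mul_of_nonneg_right (hUc c) hQ0
  set A1 := A.filter (fun t => 4 ^ j ∣ t.1 - a) with hA1
  set A2 := A.filter (fun t => 4 ^ j ∣ t.2.1 - b) with hA2
  set A3 := A.filter (fun t => 4 ^ j ∣ (t.1 - a) + (t.2.1 - b) ∧ a < t.1 ∧ b < t.2.1) with hA3
  have hcov : A ⊆ A1 ∪ (A2 ∪ A3) := by
    intro t ht
    obtain ⟨h1, M, hM, h2, h3⟩ := hA t ht
    rw [mem_union, mem_union, hA1, hA2, hA3, mem_filter, mem_filter, mem_filter]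
    rcases h3 with h3 | h3 | h3
    · exact Or.inl ⟨ht, h3⟩
    · exact Or.inr (Or.inl ⟨ht, h3⟩)
    · exact Or.inr (Or.inr ⟨ht, h3, hM.nd.1, hM.nd.2.1⟩)
  have c1 : (A1.card : ℝ) ≤ N / 4 ^ j * Q := by
    refine key a A1 fun t ht => ?_
    rw [hA1, mem_filter] at ht
    obtain ⟨h1, M, hM, h2, -⟩ := hA t ht.1
    obtain ⟨d1, d2, -⟩ := hM.str.dvd_ff
    refine ⟨?_, by omega, by omega, ∏ k, M k, w12_odd_prod hM.str.odd, h2, d1, d2, hM.wz⟩
    rw [hU, mem_filter, mem_range]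
    exact ⟨by omega, hM.nd.1, ht.2⟩
  have c2 : (A2.card : ℝ) ≤ N / 4 ^ j * Q := by
    have hinj : Function.Injective (fun t : ℕ × ℕ × ℕ => (t.2.1, t.1, t.2.2)) := by
      rintro ⟨x, y, z⟩ ⟨x', y', z'⟩ h
      simp only [Prod.mk.injEq] at h ⊢
      exact ⟨h.2.1, h.1, h.2.2⟩
    rw [← card_image_of_injective A2 hinj]
    refine key b _ fun s hs => ?_
    rw [mem_image] at hs
    obtain ⟨t, ht, rfl⟩ := hs
    rw [hA2, mem_filter] at ht
    obtain ⟨h1, M, hM, h2, -⟩ := hA t ht.1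
    obtain ⟨d1, d2, -⟩ := hM.str.dvd_ff
    refine ⟨?_, ?_, ?_, ∏ k, M k, w12_odd_prod hM.str.odd, h2, d2, d1, hM.wz⟩
    · rw [hU, mem_filter, mem_range]
      exact ⟨by simp only; omega, hM.nd.2.1, ht.2⟩
    · simp only; omega
    · simp only; omega
  have c3 : (A3.card : ℝ) ≤ N / 4 ^ j * Q := by
    have hinj : Function.Injective (fun t : ℕ × ℕ × ℕ => (t.1 + t.2.1, t.1, t.2.2)) := by
      rintro ⟨x, y, z⟩ ⟨x', y', z'⟩ h
      simp only [Prod.mk.injEq] at h ⊢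
      obtain ⟨h1, h2, h3⟩ := h
      exact ⟨h2, by omega, h3⟩
    rw [← card_image_of_injective A3 hinj]
    refine key (a + b) _ fun s hs => ?_
    rw [mem_image] at hs
    obtain ⟨t, ht, rfl⟩ := hs
    rw [hA3, mem_filter] at ht
    obtain ⟨htA, h5, h6, h7⟩ := ht
    obtain ⟨h1, M, hM, h2, -⟩ := hA t htA
    obtain ⟨d1, d2, d3⟩ := hM.str.dvd_ff
    refine ⟨?_, ?_, ?_, ∏ k, M k, w12_odd_prod hM.str.odd, h2, d3, d1, hM.wz⟩
    · rw [hU, mem_filter, mem_range]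
      refine ⟨by simp only; omega, by simp only; omega, ?_⟩
      simp only
      have e : t.1 + t.2.1 - (a + b) = (t.1 - a) + (t.2.1 - b) := by omega
      rw [e]
      exact h5
    · simp only; omega
    · simp only; omega
  have hc : (A.card : ℝ) ≤ A1.card + (A2.card + A3.card) := by
    have e1 := card_le_card hcov
    have e2 := card_union_le A1 (A2 ∪ A3)
    have e3 := card_union_le A2 A3
    exact_mod_cast (by omega : A.card ≤ A1.card + (A2.card + A3.card))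
  calc (A.card : ℝ) ≤ A1.card + (A2.card + A3.card) := hc
    _ ≤ N / 4 ^ j * Q + (N / 4 ^ j * Q + N / 4 ^ j * Q) := by gcongr
    _ = 3 * (N / 4 ^ j) * Q := by ring

end WD
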