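import Pool.Agent.WD.W2

set_option autoImplicit false

open Finset
open scoped Classical

namespace WD

theorem w16_dvd {n m : ℕ} (hn : 3 ≤ n) (h : 2 ^ (m + 1) ∣ ff n) :
    ∃ i ∈ range 3, 2 ^ m ∣ n - i := by
  unfold ff at h
  have key : ∀ {a b k : ℕ}, a % 2 = 1 → 2 ^ k ∣ a * b → 2 ^ k ∣ b := by
    intro a b k ha hk
    refine Nat.Coprime.dvd_of_dvd_mul_left ?_ hk
    apply Nat.Coprime.pow_left
    rw [Nat.coprime_two_left, Nat.odd_iff]
    exact ha
  have two : ∀ {a : ℕ}, 2 ^ (m + 1) ∣ 2 * a → 2 ^ m ∣ a := by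
    intro a ha
    rw [pow_succ, mul_comm (2 ^ m) 2] at ha
    exact Nat.dvd_of_mul_dvd_mul_left (by norm_num) ha
  rcases Nat.even_or_odd n with hev | hodd
  · obtain ⟨k, hk⟩ := hev
    have hk2 : n = 2 * k := by omega
    have h1 : 2 ^ (m + 1) ∣ n * (n - 2) := by
      apply key (a := n - 1) (by omega)
      have : (n - 1) * (n * (n - 2)) = n * (n - 1) * (n - 2) := by ring
      rw [this]
      exact h
    rcases Nat.even_or_odd k with hke | hko
    · -- `n - 2 = 2 (k - 1)` with `k - 1` odd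
      refine ⟨0, by simp, ?_⟩
      obtain ⟨l, hl⟩ := hke
      have h2 : 2 ^ (m + 1) ∣ (k - 1) * (2 * n) := by
        have : (k - 1) * (2 * n) = n * (n - 2) := by
          have : n - 2 = 2 * (k - 1) := by omega
          rw [this]
          ring
        rw [this]
        exact h1
      have h3 : 2 ^ (m + 1) ∣ 2 * n := key (by omega) h2
      simpa using two h3
    · refine ⟨2, by simp, ?_⟩
      obtain ⟨l, hl⟩ := hko
      have h2 : 2 ^ (m + 1) ∣ k * (2 * (n - 2)) := by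
        have : k * (2 * (n - 2)) = n * (n - 2) := by
          rw [hk2]
          ring
        rw [this]
        exact h1
      have h3 : 2 ^ (m + 1) ∣ 2 * (n - 2) := key (by omega) h2
      exact two h3
  · obtain ⟨k, hk⟩ := hodd
    refine ⟨1, by simp, ?_⟩
    have h1 : 2 ^ (m + 1) ∣ (n - 2) * (n - 1) := by
      apply key (a := n) (by omega)
      have : n * ((n - 2) * (n - 1)) = n * (n - 1) * (n - 2) := by ring
      rw [this]
      exact h
    have h2 : 2 ^ (m + 1) ∣ n - 1 := key (by omega) h1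
    exact (pow_dvd_pow 2 (Nat.le_succ m)).trans h2

theorem w16_count (N i q : ℕ) (hi : i < 3) :
    ((Icc 3 N).filter (fun n : ℕ => q ∣ n - i)).card ≤ N / q + 1 := by
  rw [← Finset.card_range (N / q + 1)]
  apply Finset.card_le_card_of_injOn (fun n => (n - i) / q)
  · intro n hn
    rw [Finset.mem_coe, Finset.mem_filter, Finset.mem_Icc] at hn
    rw [Finset.mem_coe, Finset.mem_range]
    have : (n - i) / q ≤ N / q := Nat.div_le_div_right (by omega)
    simp only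
    omega
  · intro n hn n' hn' h
    rw [Finset.mem_coe, Finset.mem_filter, Finset.mem_Icc] at hn hn'
    simp only at h
    have h1 := Nat.div_mul_cancel hn.2
    have h2 := Nat.div_mul_cancel hn'.2
    rw [h, h2] at h1
    omega

/-- [WD-16] few `n` are small or have a large power of `2` in `ff n`.
PROOF. The first set has at most `N^{1-s} + 3` elements. For the second: `v = v_2(ff n) = v_2(n) + v_2(n-1) + v_2(n-2) ≤ w + 1` if `2^w` is the largest power of two dividing one of `n, n - 2` (even case: one of `n, n-2` is `2` modulo `4`), or `= v_2(n-1)` (odd case); so `2^v > N^s` implies that some `2^m ≥ N^s/2` (`m = ⌈..⌉`, smallest with `2^m ≥ N^s/2`) divides `n`, `n - 1` or `n - 2`: at most `3 (N/2^m + 1) ≤ 3 (2 N^{1-s} + 1)` values. -/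
theorem small_bad {s : ℝ} (hs : 0 < s) (hs1 : s < 1) {ε : ℝ} (hε : 0 < ε) :
    ∃ N₀ : ℕ, ∀ N : ℕ, N₀ ≤ N →
      (((Icc 3 N).filter (fun n : ℕ => ((n : ℝ) - 2 < (N : ℝ) ^ (1 - s)) ∨
        (N : ℝ) ^ s < 2 ^ (ff n).factorization 2)).card : ℝ) ≤ ε * N := by
  have hlim1 : ∀ᶠ N : ℕ in Filter.atTop, (N : ℝ) ^ (-s) ≤ ε / 14 := by
    have h1 := (tendsto_rpow_neg_atTop hs).comp tendsto_natCast_atTop_atTop
    exact (h1.eventually (ge_mem_nhds (show (0 : ℝ) < ε / 14 by positivity)))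
  have hlim2 : ∀ᶠ N : ℕ in Filter.atTop, 12 / ε ≤ (N : ℝ) :=
    tendsto_natCast_atTop_atTop.eventually (Filter.eventually_ge_atTop _)
  obtain ⟨N₀, hN₀⟩ := Filter.eventually_atTop.mp
    (hlim1.and (hlim2.and (Filter.eventually_ge_atTop 1)))
  refine ⟨N₀, fun N hN => ?_⟩
  obtain ⟨h1, h2, h3⟩ := hN₀ N hN
  have hN0 : (0 : ℝ) < N := by exact_mod_cast h3
  have hN1 : (1 : ℝ) ≤ N := by exact_mod_cast h3
  have hpow : (N : ℝ) ^ (1 - s) = N * (N : ℝ) ^ (-s) := by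
    rw [sub_eq_add_neg, Real.rpow_add hN0, Real.rpow_one]
  have hX0 : 0 ≤ (N : ℝ) ^ (1 - s) := Real.rpow_nonneg hN0.le _
  have hX : (N : ℝ) ^ (1 - s) ≤ ε / 14 * N := by
    rw [hpow]
    nlinarith
  have h6 : 6 ≤ ε / 2 * N := by
    rw [div_le_iff₀ hε] at h2
    linarith
  -- the first set
  have hA : (((Icc 3 N).filter (fun n : ℕ => (n : ℝ) - 2 < (N : ℝ) ^ (1 - s))).card : ℝ) ≤
      (N : ℝ) ^ (1 - s) + 3 := by
    have h4 : (Icc 3 N).filter (fun n : ℕ => (n : ℝ) - 2 < (N : ℝ) ^ (1 - s)) ⊆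
        range (⌊(N : ℝ) ^ (1 - s)⌋₊ + 3) := by
      intro n hn
      rw [Finset.mem_filter, Finset.mem_Icc] at hn
      rw [Finset.mem_range]
      have h5 := hn.2
      have h7 : (n : ℝ) - 2 = ((n - 2 : ℕ) : ℝ) := by
        rw [Nat.cast_sub (by omega)]
        norm_num
      rw [h7] at h5
      have h8 : n - 2 ≤ ⌊(N : ℝ) ^ (1 - s)⌋₊ := Nat.le_floor h5.le
      omega
    have h5 := Finset.card_le_card h4
    rw [Finset.card_range] at h5
    have h6 : (⌊(N : ℝ) ^ (1 - s)⌋₊ : ℝ) ≤ (N : ℝ) ^ (1 - s) := Nat.floor_le hX0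
    calc (((Icc 3 N).filter (fun n : ℕ => (n : ℝ) - 2 < (N : ℝ) ^ (1 - s))).card : ℝ)
        ≤ ((⌊(N : ℝ) ^ (1 - s)⌋₊ + 3 : ℕ) : ℝ) := by exact_mod_cast h5
      _ ≤ (N : ℝ) ^ (1 - s) + 3 := by
          push_cast
          linarith
  -- the second set
  have hY1 : 1 ≤ (N : ℝ) ^ s := Real.one_le_rpow hN1 hs.le
  set m := Nat.log 2 ⌊(N : ℝ) ^ s⌋₊ with hm
  have hfl : ⌊(N : ℝ) ^ s⌋₊ ≠ 0 := by
    have : 1 ≤ ⌊(N : ℝ) ^ s⌋₊ := Nat.le_floor (by exact_mod_cast hY1)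
    omega
  have hm1 : (2 : ℝ) ^ m ≤ (N : ℝ) ^ s := by
    have h4 : 2 ^ m ≤ ⌊(N : ℝ) ^ s⌋₊ := Nat.pow_log_le_self 2 hfl
    have h5 : ((2 ^ m : ℕ) : ℝ) ≤ (⌊(N : ℝ) ^ s⌋₊ : ℝ) := by exact_mod_cast h4
    push_cast at h5
    exact h5.trans (Nat.floor_le (by linarith))
  have hm2 : (N : ℝ) ^ s < 2 * 2 ^ m := by
    have h4 : ⌊(N : ℝ) ^ s⌋₊ < 2 ^ (m + 1) := Nat.lt_pow_succ_log_self (by norm_num) _
    have h5 := (Nat.floor_lt (by linarith)).mp h4
    push_cast at h5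
    rw [pow_succ] at h5
    linarith
  have hq : (N : ℝ) / 2 ^ m ≤ 2 * (N : ℝ) ^ (1 - s) := by
    rw [div_le_iff₀ (by positivity)]
    have h4 : (N : ℝ) = (N : ℝ) ^ (1 - s) * (N : ℝ) ^ s := by
      rw [← Real.rpow_add hN0]
      norm_num
    calc (N : ℝ) = (N : ℝ) ^ (1 - s) * (N : ℝ) ^ s := h4
      _ ≤ (N : ℝ) ^ (1 - s) * (2 * 2 ^ m) := mul_le_mul_of_nonneg_left hm2.le hX0
      _ = 2 * (N : ℝ) ^ (1 - s) * 2 ^ m := by ring
  have hB : (((Icc 3 N).filter (fun n : ℕ => (N : ℝ) ^ s < 2 ^ (ff n).factorization 2)).card : ℝ) ≤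
      3 * (2 * (N : ℝ) ^ (1 - s) + 1) := by
    have h4 : (Icc 3 N).filter (fun n : ℕ => (N : ℝ) ^ s < 2 ^ (ff n).factorization 2) ⊆
        (range 3).biUnion (fun i => (Icc 3 N).filter (fun n : ℕ => 2 ^ m ∣ n - i)) := by
      intro n hn
      rw [Finset.mem_filter] at hn
      rw [Finset.mem_biUnion]
      have h5 : (2 : ℝ) ^ m < 2 ^ (ff n).factorization 2 := lt_of_le_of_lt hm1 hn.2
      have h6 : m < (ff n).factorization 2 := (pow_lt_pow_iff_right₀ (by norm_num)).mp h5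
      have h7 : 2 ^ (m + 1) ∣ ff n :=
        (pow_dvd_pow 2 h6).trans (Nat.ordProj_dvd (ff n) 2)
      obtain ⟨i, hi, hd⟩ := w16_dvd (Finset.mem_Icc.mp hn.1).1 h7
      exact ⟨i, hi, Finset.mem_filter.mpr ⟨hn.1, hd⟩⟩
    have h5 : ((Icc 3 N).filter (fun n : ℕ => (N : ℝ) ^ s < 2 ^ (ff n).factorization 2)).card ≤
        3 * (N / 2 ^ m + 1) := by
      refine (Finset.card_le_card h4).trans ?_
      refine Finset.card_biUnion_le.trans ?_
      have h6 : ∀ i ∈ range 3, ((Icc 3 N).filter (fun n : ℕ => 2 ^ m ∣ n - i)).card ≤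
          N / 2 ^ m + 1 := fun i hi => w16_count N i _ (Finset.mem_range.mp hi)
      have h7 := Finset.sum_le_card_nsmul _ _ _ h6
      rw [Finset.card_range, smul_eq_mul] at h7
      exact h7
    have h6 : ((N / 2 ^ m : ℕ) : ℝ) ≤ 2 * (N : ℝ) ^ (1 - s) := by
      refine le_trans ?_ hq
      have := @Nat.cast_div_le ℝ _ _ _ N (2 ^ m)
      push_cast at this
      exact this
    calc (((Icc 3 N).filter (fun n : ℕ => (N : ℝ) ^ s < 2 ^ (ff n).factorization 2)).card : ℝ)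
        ≤ ((3 * (N / 2 ^ m + 1) : ℕ) : ℝ) := by exact_mod_cast h5
      _ = 3 * (((N / 2 ^ m : ℕ) : ℝ) + 1) := by push_cast; ring
      _ ≤ 3 * (2 * (N : ℝ) ^ (1 - s) + 1) := by linarith
  rw [Finset.filter_or]
  have hunion : ((((Icc 3 N).filter (fun n : ℕ => (n : ℝ) - 2 < (N : ℝ) ^ (1 - s))) ∪
      ((Icc 3 N).filter (fun n : ℕ => (N : ℝ) ^ s < 2 ^ (ff n).factorization 2))).card : ℝ) ≤
      (((Icc 3 N).filter (fun n : ℕ => (n : ℝ) - 2 < (N : ℝ) ^ (1 - s))).card : ℝ) +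
      (((Icc 3 N).filter (fun n : ℕ => (N : ℝ) ^ s < 2 ^ (ff n).factorization 2)).card : ℝ) := by
    exact_mod_cast Finset.card_union_le _ _
  refine hunion.trans ?_
  linarith

end WD
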