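import Pool.Agent.Lib.helper94.ANT.Mertens

set_option autoImplicit false

open Finset
open scoped Classical

namespace WD

open Pool.Agent.Lib.helper94.ANT in
theorem w_mono {m n : ℕ} (hm : 2 ≤ m) (hmn : m ≤ n) :
    mS m - mA m / Real.log m - Real.log (Real.log m) - 4 / Real.log m ≤
      mS n - mA n / Real.log n - Real.log (Real.log n) - 4 / Real.log n := by
  induction n, hmn using Nat.le_induction with
  | base => exact le_rfl
  | succ n hn ih =>
    have hn2 : 2 ≤ n := hm.trans hn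
    have g1 : 0 < Real.log n := Real.log_pos (by exact_mod_cast hn2)
    have g2 : 0 < Real.log ((n + 1 : ℕ) : ℝ) :=
      Real.log_pos (by exact_mod_cast (by omega : 1 < n + 1))
    have h1 : mS (n + 1) - mA (n + 1) / Real.log ((n + 1 : ℕ) : ℝ) -
        (mS n - mA n / Real.log n) =
        mA n * (1 / Real.log n - 1 / Real.log ((n + 1 : ℕ) : ℝ)) := by
      rw [mA_succ n]
      field_simp
      ring
    have h2 : 0 ≤ 1 / Real.log n - 1 / Real.log ((n + 1 : ℕ) : ℝ) := by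
      have hlt : Real.log n ≤ Real.log ((n + 1 : ℕ) : ℝ) :=
        Real.log_le_log (by positivity) (by exact_mod_cast (Nat.lt_succ_self n).le)
      rw [sub_nonneg]
      exact one_div_le_one_div_of_le g1 hlt
    have h3 := (loglog_step hn2).2
    have h4 := (mA_bounds (n := n) (by omega)).1
    have h6 : (Real.log n - 3) * (1 / Real.log n - 1 / Real.log ((n + 1 : ℕ) : ℝ)) ≤
        mA n * (1 / Real.log n - 1 / Real.log ((n + 1 : ℕ) : ℝ)) :=
      mul_le_mul_of_nonneg_right h4 h2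
    have h7 : (Real.log n - 3) * (1 / Real.log n - 1 / Real.log ((n + 1 : ℕ) : ℝ)) =
        1 - Real.log n / Real.log ((n + 1 : ℕ) : ℝ) -
          3 * (1 / Real.log n - 1 / Real.log ((n + 1 : ℕ) : ℝ)) := by
      field_simp
    have h8 : 4 / Real.log n = 4 * (1 / Real.log n) := by ring
    have h9 : 4 / Real.log ((n + 1 : ℕ) : ℝ) = 4 * (1 / Real.log ((n + 1 : ℕ) : ℝ)) := by ring
    linarith

open Pool.Agent.Lib.helper94.ANT in
theorem w_diff {m n : ℕ} (hm : 2 ≤ m) (hmn : m ≤ n) :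
    Real.log (Real.log n / Real.log m) - 6 / Real.log m ≤ mS n - mS m := by
  have h := w_mono hm hmn
  have g1 : 0 < Real.log m := Real.log_pos (by exact_mod_cast hm)
  have g2 : 0 < Real.log n := Real.log_pos (by exact_mod_cast (show 1 < n by omega))
  have a1 := (mA_bounds (n := n) (by omega)).1
  have a2 := (mA_bounds (n := m) (by omega)).2
  have b1 : 1 - 3 / Real.log n ≤ mA n / Real.log n := by
    rw [le_div_iff₀ g2]
    have : (1 - 3 / Real.log n) * Real.log n = Real.log n - 3 := by field_simp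
    linarith
  have b2 : mA m / Real.log m ≤ 1 + 2 / Real.log m := by
    rw [div_le_iff₀ g1]
    have : (1 + 2 / Real.log m) * Real.log m = Real.log m + 2 := by field_simp
    linarith
  rw [Real.log_div g2.ne' g1.ne']
  have c0 : (0 : ℝ) ≤ 1 / Real.log n := by positivity
  have c1 : (4 : ℝ) / Real.log m = 4 * (1 / Real.log m) := by ring
  have c2 : (2 : ℝ) / Real.log m = 2 * (1 / Real.log m) := by ring
  have c3 : (6 : ℝ) / Real.log m = 6 * (1 / Real.log m) := by ring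
  have c4 : (3 : ℝ) / Real.log n = 3 * (1 / Real.log n) := by ring
  have c5 : (4 : ℝ) / Real.log n = 4 * (1 / Real.log n) := by ring
  linarith


/-- [WD-15] Mertens: for `0 < θ < 1`, `∑_{N^θ < p ≤ N} 1/p → log(1/θ)`; only the lower bound.
PROOF. In `Pool.Agent.Lib.helper94.ANT.Mertens`: `mS n = ∑_{p ≤ n} 1/p`, `mA n = ∑_{p ≤ n} log p / p`, `mA_bounds` (`mA n = log n + O(1)`) and the step inequalities in the proof of `mertens` (`hstep`, `loglog_step`): `mS n - mA n/log n - log log n + 2/log n` is decreasing and `mS n - mA n/log n - log log n - 4/log n` is increasing (by induction as there).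
So for `m ≤ n`: `mS n - mS m ≥ mA n/log n - mA m/log m + log log n - log log m - 4/log m`, and `mA n/log n - mA m/log m ≥ - C/log m`. With `m = ⌊N^θ⌋₊ → ∞`, `n = N`: `log log N - log log m ≥ log(1/θ)`. -/
theorem mertens_lower {θ : ℝ} (h0 : 0 < θ) (h1 : θ < 1) {ε : ℝ} (hε : 0 < ε) :
    ∃ N₀ : ℕ, ∀ N : ℕ, N₀ ≤ N →
      Real.log (1 / θ) - ε ≤
        ∑ p ∈ (Icc 1 N).filter (fun p : ℕ => p.Prime ∧ (N : ℝ) ^ θ < p), (1 : ℝ) / p := by
  have hT : Filter.Tendsto (fun N : ℕ => (N : ℝ) ^ θ) Filter.atTop Filter.atTop :=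
    (tendsto_rpow_atTop h0).comp tendsto_natCast_atTop_atTop
  obtain ⟨N₀, hN₀⟩ := Filter.eventually_atTop.1
    (hT.eventually_ge_atTop (Real.exp (6 / ε) + 3))
  refine ⟨max N₀ 3, fun N hN => ?_⟩
  have h2 := hN₀ N ((le_max_left _ _).trans hN)
  have hN3 : 3 ≤ N := (le_max_right _ _).trans hN
  have hN3' : (3 : ℝ) ≤ N := by exact_mod_cast hN3
  obtain ⟨m, hm⟩ : ∃ m, m = ⌊(N : ℝ) ^ θ⌋₊ := ⟨_, rfl⟩
  have hpos : (0 : ℝ) ≤ (N : ℝ) ^ θ := by positivity
  have hmle : (m : ℝ) ≤ (N : ℝ) ^ θ := by rw [hm]; exact Nat.floor_le hpos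
  have hmge : (N : ℝ) ^ θ < m + 1 := by rw [hm]; exact Nat.lt_floor_add_one _
  have hexp : 0 < Real.exp (6 / ε) := Real.exp_pos _
  have hm2 : 2 ≤ m := by
    have : (2 : ℝ) ≤ m := by linarith
    exact_mod_cast this
  have hNθ : (N : ℝ) ^ θ ≤ N := by
    calc (N : ℝ) ^ θ ≤ (N : ℝ) ^ (1 : ℝ) :=
          Real.rpow_le_rpow_of_exponent_le (by linarith) h1.le
      _ = N := Real.rpow_one _
  have hmN : m ≤ N := by
    have : (m : ℝ) ≤ N := hmle.trans hNθ
    exact_mod_cast this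
  have hlm : 0 < Real.log m := Real.log_pos (by exact_mod_cast hm2)
  have hlN : 0 < Real.log N := Real.log_pos (by linarith)
  have hlm2 : Real.log m ≤ θ * Real.log N := by
    rw [← Real.log_rpow (by linarith)]
    exact Real.log_le_log (by exact_mod_cast (by omega : 0 < m)) hmle
  have hlm3 : 6 / ε ≤ Real.log m := by
    rw [Real.le_log_iff_exp_le (by exact_mod_cast (by omega : 0 < m))]
    linarith
  have hd := w_diff hm2 hmN
  have h3 : Real.log (1 / θ) ≤ Real.log (Real.log N / Real.log m) := by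
    apply Real.log_le_log (by positivity)
    rw [div_le_div_iff₀ h0 hlm]
    linarith
  have h4 : 6 / Real.log m ≤ ε := by
    rw [div_le_iff₀ hlm]
    have := (div_le_iff₀ hε).1 hlm3
    linarith
  have h5 : Pool.Agent.Lib.helper94.ANT.mS N - Pool.Agent.Lib.helper94.ANT.mS m =
      ∑ p ∈ (Icc 1 N).filter (fun p : ℕ => p.Prime ∧ (N : ℝ) ^ θ < p), (1 : ℝ) / p := by
    unfold Pool.Agent.Lib.helper94.ANT.mS
    have hsub : Nat.primesLE m ⊆ Nat.primesLE N := by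
      intro p hp
      rw [Nat.mem_primesLE] at hp ⊢
      exact ⟨hp.1.trans hmN, hp.2⟩
    rw [← Finset.sum_sdiff hsub, add_sub_cancel_right]
    refine Finset.sum_congr ?_ fun _ _ => rfl
    ext p
    rw [Finset.mem_sdiff, Nat.mem_primesLE, Nat.mem_primesLE, Finset.mem_filter, Finset.mem_Icc]
    constructor
    · rintro ⟨⟨a, b⟩, c⟩
      refine ⟨⟨b.one_le, a⟩, b, ?_⟩
      have h6 : m < p := by
        by_contra hcon
        exact c ⟨not_lt.1 hcon, b⟩
      have h7 : (m : ℝ) + 1 ≤ p := by exact_mod_cast h6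
      linarith
    · rintro ⟨⟨-, a⟩, b, c⟩
      refine ⟨⟨a, b⟩, fun hcon => ?_⟩
      have h7 : (p : ℝ) ≤ m := by exact_mod_cast hcon.1
      linarith
  rw [← h5]
  linarith

/-- [WD-15] PROOF. `Chebyshev`: `Nat.primeCounting` is `o(N)` (e.g. `Chebyshev.pi_le_log4_mul_div` in Mathlib). -/
theorem pi_small {ε : ℝ} (hε : 0 < ε) :
    ∃ N₀ : ℕ, ∀ N : ℕ, N₀ ≤ N → (((Icc 1 N).filter Nat.Prime).card : ℝ) ≤ ε * N := by
  have h1 := Chebyshev.eventually_primeCounting_le (ε := 1) one_pos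
  have h2 : ∀ᶠ x : ℝ in Filter.atTop, (Real.log 4 + 1) / ε ≤ Real.log x :=
    Real.tendsto_log_atTop.eventually_ge_atTop _
  have h3 : ∀ᶠ x : ℝ in Filter.atTop, (2 : ℝ) ≤ x := Filter.eventually_ge_atTop 2
  have h4 := tendsto_natCast_atTop_atTop.eventually ((h1.and h2).and h3)
  obtain ⟨N₀, hN₀⟩ := Filter.eventually_atTop.1 h4
  refine ⟨N₀, fun N hN => ?_⟩
  obtain ⟨⟨a, b⟩, c⟩ := hN₀ N hN
  have hl : 0 < Real.log N := Real.log_pos (by linarith)
  rw [Nat.floor_natCast] at a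
  have e : ((Icc 1 N).filter Nat.Prime).card = Nat.primeCounting N := by
    rw [Nat.primeCounting, Nat.primeCounting', Nat.count_eq_card_filter_range]
    congr 1
    ext p
    rw [Finset.mem_filter, Finset.mem_filter, Finset.mem_Icc, Finset.mem_range]
    constructor
    · rintro ⟨⟨-, h5⟩, h6⟩
      exact ⟨by omega, h6⟩
    · rintro ⟨h5, h6⟩
      exact ⟨⟨h6.one_le, by omega⟩, h6⟩
  rw [e]
  refine a.trans ?_
  rw [div_le_iff₀ hl]
  have h5 := (div_le_iff₀ hε).1 b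
  have hN0 : (0 : ℝ) ≤ N := by positivity
  nlinarith

/-- [WD-15] the numbers with a large prime factor.
PROOF. `θ ≥ 1/2`: two different primes `> N^θ ≥ √N` have a product `> N`, so each `n ∈ [1, N]` has at most one prime factor `> N^θ`: the sets `{n ≤ N : p ∣ n}` (`⌊N/p⌋ ≥ N/p - 1` elements, `Nat.card_multiples` ..) are disjoint. `mertens_lower`, `pi_small`. -/
theorem large_prime {θ : ℝ} (h0 : 1 / 2 ≤ θ) (h1 : θ < 1) {ε : ℝ} (hε : 0 < ε) :
    ∃ N₀ : ℕ, ∀ N : ℕ, N₀ ≤ N → (Real.log (1 / θ) - ε) * N ≤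
      (((Icc 1 N).filter (fun n : ℕ => ∃ P : ℕ, P.Prime ∧ (N : ℝ) ^ θ < P ∧ P ∣ n)).card : ℝ) := by
  obtain ⟨N₁, hN₁⟩ := mertens_lower (θ := θ) (by linarith) h1 (half_pos hε)
  obtain ⟨N₂, hN₂⟩ := pi_small (half_pos hε)
  refine ⟨max (max N₁ N₂) 1, fun N hN => ?_⟩
  have hNa := hN₁ N (((le_max_left _ _).trans (le_max_left _ _)).trans hN)
  have hNb := hN₂ N (((le_max_right _ _).trans (le_max_left _ _)).trans hN)
  have hN1 : 1 ≤ N := (le_max_right _ _).trans hN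
  have hN1' : (1 : ℝ) ≤ N := by exact_mod_cast hN1
  obtain ⟨Q, hQ⟩ : ∃ Q, Q = (Icc 1 N).filter (fun p : ℕ => p.Prime ∧ (N : ℝ) ^ θ < p) := ⟨_, rfl⟩
  rw [← hQ] at hNa
  have hQm : ∀ p ∈ Q, p.Prime ∧ (N : ℝ) ^ θ < p := fun p hp => by
    rw [hQ, Finset.mem_filter] at hp
    exact hp.2
  have hdisj : (Q : Set ℕ).PairwiseDisjoint fun p => (Icc 1 N).filter fun n => p ∣ n := by
    intro p hp q hq hpq
    rw [Function.onFun, Finset.disjoint_left]
    intro n hn hn'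
    rw [Finset.mem_filter, Finset.mem_Icc] at hn hn'
    obtain ⟨a1, a2⟩ := hQm p hp
    obtain ⟨b1, b2⟩ := hQm q hq
    have h2 : p * q ∣ n :=
      ((Nat.coprime_primes a1 b1).2 hpq).mul_dvd_of_dvd_of_dvd hn.2 hn'.2
    have h3 : p * q ≤ N := (Nat.le_of_dvd (by omega) h2).trans hn.1.2
    have h4 : (p : ℝ) * q ≤ N := by exact_mod_cast h3
    have h5 : (N : ℝ) ≤ (N : ℝ) ^ θ * (N : ℝ) ^ θ := by
      rw [← Real.rpow_add (by linarith)]
      calc (N : ℝ) = (N : ℝ) ^ (1 : ℝ) := (Real.rpow_one _).symm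
        _ ≤ _ := Real.rpow_le_rpow_of_exponent_le hN1' (by linarith)
    have h6 : (N : ℝ) ^ θ * (N : ℝ) ^ θ < (p : ℝ) * q :=
      mul_lt_mul'' a2 b2 (by positivity) (by positivity)
    linarith
  have hsub : Q.biUnion (fun p => (Icc 1 N).filter fun n => p ∣ n) ⊆
      (Icc 1 N).filter (fun n : ℕ => ∃ P : ℕ, P.Prime ∧ (N : ℝ) ^ θ < P ∧ P ∣ n) := by
    intro n hn
    rw [Finset.mem_biUnion] at hn
    obtain ⟨p, hp, hn⟩ := hn
    rw [Finset.mem_filter] at hn ⊢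
    exact ⟨hn.1, p, (hQm p hp).1, (hQm p hp).2, hn.2⟩
  have hcard := Finset.card_le_card hsub
  rw [Finset.card_biUnion hdisj] at hcard
  have hcard' : ∑ p ∈ Q, ((((Icc 1 N).filter fun n => p ∣ n).card : ℕ) : ℝ) ≤
      (((Icc 1 N).filter (fun n : ℕ => ∃ P : ℕ, P.Prime ∧ (N : ℝ) ^ θ < P ∧ P ∣ n)).card : ℝ) := by
    exact_mod_cast hcard
  refine le_trans ?_ hcard'
  have hone : ∀ p ∈ Q, (N : ℝ) * (1 / p) - 1 ≤
      ((((Icc 1 N).filter fun n => p ∣ n).card : ℕ) : ℝ) := by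
    intro p hp
    have e : (Icc 1 N).filter (fun n => p ∣ n) = (Ioc 0 N).filter (fun n => p ∣ n) := by
      ext n
      simp only [Finset.mem_filter, Finset.mem_Icc, Finset.mem_Ioc]
      constructor
      · rintro ⟨⟨a, b⟩, c⟩
        exact ⟨⟨by omega, b⟩, c⟩
      · rintro ⟨⟨a, b⟩, c⟩
        exact ⟨⟨by omega, b⟩, c⟩
    rw [e, Nat.Ioc_filter_dvd_card_eq_div]
    have hp0 : 0 < p := (hQm p hp).1.pos
    have hp0' : (0 : ℝ) < p := by exact_mod_cast hp0
    have h2 : N < p * (N / p + 1) := Nat.lt_mul_div_succ N hp0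
    have h3 : (N : ℝ) < p * (((N / p : ℕ) : ℝ) + 1) := by exact_mod_cast h2
    have h4 : (N : ℝ) * (1 / p) < ((N / p : ℕ) : ℝ) + 1 := by
      rw [mul_one_div, div_lt_iff₀ hp0']
      linarith
    linarith
  have hsum := Finset.sum_le_sum hone
  rw [Finset.sum_sub_distrib, ← Finset.mul_sum, Finset.sum_const, nsmul_eq_mul, mul_one] at hsum
  have hQc : (Q.card : ℝ) ≤ (((Icc 1 N).filter Nat.Prime).card : ℝ) := by
    have : Q ⊆ (Icc 1 N).filter Nat.Prime := by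
      intro p hp
      rw [hQ, Finset.mem_filter] at hp
      rw [Finset.mem_filter]
      exact ⟨hp.1, hp.2.1⟩
    exact_mod_cast Finset.card_le_card this
  have h7 : (N : ℝ) * (Real.log (1 / θ) - ε / 2) ≤ N * ∑ p ∈ Q, (1 : ℝ) / p :=
    mul_le_mul_of_nonneg_left hNa (by positivity)
  nlinarith

/-- [WD-15] the density of the good numbers.
PROOF. Choose `η` small with `3 log(1/(1/2+η)) - 2 > c` (continuity). `S` the set of `large_prime` (`θ = 1/2 + η`), `S_i = {n ∈ Icc 3 N : n - i ∈ S}` for `i = 0, 1, 2` has at least `|S| - 4` elements; the number of `n ∈ Icc 3 N` in all three sets is at least `|S_0| + |S_1| + |S_2| - 2 N`. -/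
theorem dens {c : ℝ} (hc : c < 3 * Real.log 2 - 2) :
    ∃ η : ℝ, 0 < η ∧ η ≤ 1 / 4 ∧ ∃ N₀ : ℕ, ∀ N : ℕ, N₀ ≤ N → c * N ≤
      (((Icc 3 N).filter (fun n : ℕ => ∀ i < 3, ∃ P : ℕ, P.Prime ∧ (N : ℝ) ^ (1 / 2 + η) < P ∧
        P ∣ n - i)).card : ℝ) := by
  obtain ⟨δ, hδ⟩ : ∃ δ, δ = 3 * Real.log 2 - 2 - c := ⟨_, rfl⟩
  have hδ0 : 0 < δ := by linarith
  obtain ⟨η, hη⟩ : ∃ η, η = min (1 / 4) (δ / 24) := ⟨_, rfl⟩
  have hη0 : 0 < η := by rw [hη]; exact lt_min (by norm_num) (by positivity)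
  have hη1 : η ≤ 1 / 4 := by rw [hη]; exact min_le_left _ _
  have hη2 : η ≤ δ / 24 := by rw [hη]; exact min_le_right _ _
  have hlog : Real.log 2 - 2 * η ≤ Real.log (1 / (1 / 2 + η)) := by
    have e : (1 : ℝ) / (1 / 2 + η) = 2 / (1 + 2 * η) := by
      rw [div_eq_div_iff (by positivity) (by positivity)]
      ring
    rw [e, Real.log_div (by norm_num) (by positivity)]
    have := Real.log_le_sub_one_of_pos (x := 1 + 2 * η) (by positivity)
    linarith
  obtain ⟨N₁, hN₁⟩ := large_prime (θ := 1 / 2 + η) (by linarith) (by linarith)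
    (ε := δ / 12) (by positivity)
  obtain ⟨N₂, hN₂⟩ := exists_nat_ge (12 / (δ / 2))
  refine ⟨η, hη0, hη1, max (max N₁ N₂) 3, fun N hN => ?_⟩
  have hNa := hN₁ N (((le_max_left _ _).trans (le_max_left _ _)).trans hN)
  have hNb : 12 / (δ / 2) ≤ (N : ℝ) := hN₂.trans
    (by exact_mod_cast ((le_max_right _ _).trans (le_max_left _ _)).trans hN)
  have hN3 : 3 ≤ N := (le_max_right _ _).trans hN
  have hNc : 12 ≤ (N : ℝ) * (δ / 2) := (div_le_iff₀ (by positivity)).1 hNb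
  obtain ⟨S, hS⟩ : ∃ S, S = (Icc 1 N).filter
    (fun n : ℕ => ∃ P : ℕ, P.Prime ∧ (N : ℝ) ^ (1 / 2 + η) < P ∧ P ∣ n) := ⟨_, rfl⟩
  rw [← hS] at hNa
  have hSm : ∀ n, n ∈ S ↔ (1 ≤ n ∧ n ≤ N) ∧
      ∃ P : ℕ, P.Prime ∧ (N : ℝ) ^ (1 / 2 + η) < P ∧ P ∣ n := by
    intro n
    rw [hS, Finset.mem_filter, Finset.mem_Icc]
  have hSi : ∀ i < 3, S.card ≤ ((Icc 3 N).filter (fun n : ℕ => ∃ P : ℕ, P.Prime ∧
      (N : ℝ) ^ (1 / 2 + η) < P ∧ P ∣ n - i)).card + 4 := by
    intro i hi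
    have h1 : S ⊆ (({1, 2, N - 1, N} : Finset ℕ)) ∪ ((Icc 3 N).filter (fun n : ℕ => ∃ P : ℕ,
        P.Prime ∧ (N : ℝ) ^ (1 / 2 + η) < P ∧ P ∣ n - i)).image (fun n => n - i) := by
      intro n hn
      rw [hSm] at hn
      rw [Finset.mem_union]
      by_cases h2 : n ∈ (({1, 2, N - 1, N} : Finset ℕ))
      · exact Or.inl h2
      · right
        simp only [Finset.mem_insert, Finset.mem_singleton, not_or] at h2
        rw [Finset.mem_image]
        refine ⟨n + i, ?_, by omega⟩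
        rw [Finset.mem_filter, Finset.mem_Icc, Nat.add_sub_cancel]
        exact ⟨⟨by omega, by omega⟩, hn.2⟩
    refine (Finset.card_le_card h1).trans ((Finset.card_union_le _ _).trans ?_)
    have h3 : (({1, 2, N - 1, N} : Finset ℕ)).card ≤ 4 := Finset.card_le_four
    have h4 := Finset.card_image_le (s := (Icc 3 N).filter (fun n : ℕ => ∃ P : ℕ,
        P.Prime ∧ (N : ℝ) ^ (1 / 2 + η) < P ∧ P ∣ n - i)) (f := fun n => n - i)
    omega
  obtain ⟨A, hA⟩ : ∃ A : ℕ → Finset ℕ, ∀ i, A i = (Icc 3 N).filter (fun n : ℕ => ∃ P : ℕ,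
      P.Prime ∧ (N : ℝ) ^ (1 / 2 + η) < P ∧ P ∣ n - i) := ⟨_, fun i => rfl⟩
  have hint : (Icc 3 N).filter (fun n : ℕ => ∀ i < 3, ∃ P : ℕ, P.Prime ∧
      (N : ℝ) ^ (1 / 2 + η) < P ∧ P ∣ n - i) = A 0 ∩ A 1 ∩ A 2 := by
    ext n
    simp only [hA, Finset.mem_inter, Finset.mem_filter]
    constructor
    · rintro ⟨h1, h2⟩
      exact ⟨⟨⟨h1, h2 0 (by norm_num)⟩, ⟨h1, h2 1 (by norm_num)⟩⟩, ⟨h1, h2 2 (by norm_num)⟩⟩
    · rintro ⟨⟨⟨h1, h2⟩, ⟨-, h3⟩⟩, ⟨-, h4⟩⟩
      refine ⟨h1, fun i hi => ?_⟩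
      interval_cases i
      · exact h2
      · exact h3
      · exact h4
  rw [hint]
  have hu1 := Finset.card_union_add_card_inter (A 0) (A 1)
  have hu2 := Finset.card_union_add_card_inter (A 0 ∩ A 1) (A 2)
  have hAs : ∀ i, A i ⊆ Icc 3 N := fun i => by rw [hA]; exact Finset.filter_subset _ _
  have hU : (Icc 3 N).card ≤ N := by
    rw [Nat.card_Icc]
    omega
  have hu3 : (A 0 ∪ A 1).card ≤ N :=
    (Finset.card_le_card (Finset.union_subset (hAs 0) (hAs 1))).trans hU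
  have hu4 : (A 0 ∩ A 1 ∪ A 2).card ≤ N :=
    (Finset.card_le_card (Finset.union_subset
      ((Finset.inter_subset_left).trans (hAs 0)) (hAs 2))).trans hU
  have hs0 := hSi 0 (by norm_num)
  have hs1 := hSi 1 (by norm_num)
  have hs2 := hSi 2 (by norm_num)
  rw [← hA] at hs0 hs1 hs2
  have hfin : 3 * S.card ≤ (A 0 ∩ A 1 ∩ A 2).card + 12 + 2 * N := by omega
  have hfin' : 3 * (S.card : ℝ) ≤ ((A 0 ∩ A 1 ∩ A 2).card : ℝ) + 12 + 2 * N := by
    exact_mod_cast hfin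
  have hN0 : (0 : ℝ) ≤ N := by positivity
  have h8 : (c + δ / 2) * N ≤ (3 * (Real.log (1 / (1 / 2 + η)) - δ / 12) - 2) * N := by
    apply mul_le_mul_of_nonneg_right _ hN0
    linarith
  nlinarith

end WD
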