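import Pool.Agent.WD.W14
import Pool.Agent.WD.W15
import Pool.Agent.WD.W16

set_option autoImplicit false

open Finset
open scoped Classical

namespace WD

/-- one of two numbers is not divisible -/
theorem w17_tri_pos {a b c : ℕ} :
    0 < (a + b + c).factorial / (a.factorial * b.factorial * c.factorial) := by
  apply Nat.div_pos
  · apply Nat.le_of_dvd (Nat.factorial_pos _)
    have h1 : a.factorial * b.factorial ∣ (a + b).factorial :=
      Nat.factorial_mul_factorial_dvd_factorial_add a b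
    have h2 : (a + b).factorial * c.factorial ∣ (a + b + c).factorial :=
      Nat.factorial_mul_factorial_dvd_factorial_add (a + b) c
    exact (Nat.mul_dvd_mul_right h1 _).trans h2
  · positivity

/-- the size of a covered part -/
theorem w17_lt {N n : ℕ} {R w1 : ℝ} (h3 : 3 ≤ n) (hnN : n ≤ N) (hR3 : 3 ≤ R)
    (hE1 : n ∉ E1 N R w1) {x y z P : ℕ} (hx : 0 < x) (hy : 0 < y) (hz : 0 < z)
    (hn : x + y + z = n) (hP : P.Prime) (hRP : R < P) (hc : Cov P x y z) (hd : P ∣ ff n) :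
    (WW x y z : ℝ) < w1 := by
  by_contra hcon
  push Not at hcon
  apply hE1
  unfold E1
  rw [Finset.mem_filter, Finset.mem_Icc]
  refine ⟨⟨h3, hnN⟩, x, y, z, P, hx, hy, hz, hn, hP, ?_, hRP, hc, hd, hcon⟩
  rintro rfl
  norm_num at hRP
  linarith

theorem w17_two {N n : ℕ} {R w0 w1 : ℝ} (h3 : 3 ≤ n) (hnN : n ≤ N) (hR3 : 3 ≤ R)
    (hE2 : n ∉ E2 N R w0 w1) {x y z P : ℕ} (hx : 0 < x) (hy : 0 < y) (hz : 0 < z)
    (hn : x + y + z = n) (hP : P.Prime) (hRP : R < P) (hc : Cov P x y z) (hd : P ∣ ff n)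
    (h2 : Cov 2 x y z) (h0 : w0 ≤ WW x y z) (h1 : (WW x y z : ℝ) ≤ w1) : False := by
  apply hE2
  unfold E2
  rw [Finset.mem_filter, Finset.mem_Icc]
  refine ⟨⟨h3, hnN⟩, x, y, z, P, hx, hy, hz, hn, hP, ?_, hRP, hc, hd, h2, h0, h1⟩
  rintro rfl
  norm_num at hRP
  linarith

theorem w17_ge {a b c w0 w1 : ℝ} (hb0 : 0 ≤ b) (hc0 : 0 ≤ c) (hw0 : 0 < w0)
    (hw1 : 0 < w1) (hb : b < w1) (hc : c < w1) (h : w0 * w1 ^ 2 ≤ a * b * c) : w0 ≤ a := by
  by_contra hcon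
  push Not at hcon
  have hbc : b * c ≤ w1 ^ 2 := by nlinarith
  have hbc0 : 0 ≤ b * c := mul_nonneg hb0 hc0
  have h1 : a * b * c < w0 * w1 ^ 2 := by
    rcases le_or_gt a 0 with ha | ha
    · have : a * (b * c) ≤ 0 := mul_nonpos_of_nonpos_of_nonneg ha hbc0
      have : 0 < w0 * w1 ^ 2 := by positivity
      nlinarith
    · have h2 : a * (b * c) ≤ a * w1 ^ 2 := mul_le_mul_of_nonneg_left hbc ha.le
      have h3 : a * w1 ^ 2 < w0 * w1 ^ 2 := mul_lt_mul_of_pos_right hcon (by positivity)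
      nlinarith
  linarith

/-- one of three triples covers each of three primes; each triple covers only one -/
theorem w17_perm {C : Fin 3 → Fin 3 → Prop} (h : ∀ i, ∃ k, C i k)
    (hinj : ∀ i j k, i < j → C i k → C j k → False) : ∀ k, ∃ i, C i k := by
  choose f hf using h
  have hfi : Function.Injective f := by
    intro i j hij
    by_contra hne
    rcases lt_or_gt_of_ne hne with hlt | hlt
    · exact hinj i j (f i) hlt (hf i) (hij ▸ hf j)
    · exact hinj j i (f j) hlt (hf j) (hij ▸ hf i)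
  intro k
  obtain ⟨i, rfl⟩ := (Finite.injective_iff_surjective.mp hfi) k
  exact ⟨i, hf i⟩

/-- [WD-17] the conclusion for one `n`.
PROOF. Suppose three triples `T₁, T₂, T₃` with gcd `≤ 1` (`n.factorial ≠ 0`; the gcd is `≥ 1` since the numbers are not zero, so each prime `q` does not divide one of them): for each prime `q` some `T_i` has `Cov q T_i` (`cov_of_not_dvd`). The primes `P_i ∣ n - i` (`i = 0, 1, 2`) are `> R ≥ 3` and `P_i P_j > R² ≥ n`, `n % P_i = i`; `not_both`: they are covered by three different triples, so each triple `T_i` covers a prime `> R` dividing `ff n`. As `n ∉ E1`, `WW T_i < w1` for each `i`.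
`ff_le_prod`: `(n-2)^3 ≤ ff n ≤ 2^v WW₁ WW₂ WW₃`, so each `WW T_i ≥ (n-2)^3/(2^v w1²) ≥ w0` (`hw`). The triple covering `2` shows `n ∈ E2`, contradiction. -/
theorem good {N n : ℕ} {R w0 w1 : ℝ} (h3 : 3 ≤ n) (hnN : n ≤ N) (hR3 : 3 ≤ R) (hR : (n : ℝ) ≤ R ^ 2)
    (hw1 : 0 < w1) (hw0 : 0 < w0)
    (hw : w0 * w1 ^ 2 * 2 ^ (ff n).factorization 2 ≤ ((n : ℝ) - 2) ^ 3)
    (hP : ∀ i < 3, ∃ P : ℕ, P.Prime ∧ R < P ∧ P ∣ n - i) (hE1 : n ∉ E1 N R w1)
    (hE2 : n ∉ E2 N R w0 w1) : Q1n n := by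
  intro a₁ b₁ c₁ a₂ b₂ c₂ a₃ b₃ c₃ ha₁ hb₁ hc₁ hn₁ ha₂ hb₂ hc₂ hn₂ ha₃ hb₃ hc₃ hn₃
  by_contra hcon
  push Not at hcon
  -- every prime is covered by one of the triples
  have hcov : ∀ q : ℕ, q.Prime → Cov q a₁ b₁ c₁ ∨ Cov q a₂ b₂ c₂ ∨ Cov q a₃ b₃ c₃ := by
    intro q hq
    by_contra hno
    push Not at hno
    obtain ⟨hno1, hno2, hno3⟩ := hno
    have d1 : q ∣ n.factorial / (a₁.factorial * b₁.factorial * c₁.factorial) := by
      by_contra hnd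
      rw [← hn₁] at hnd
      exact hno1 (cov_of_not_dvd hq hnd)
    have d2 : q ∣ n.factorial / (a₂.factorial * b₂.factorial * c₂.factorial) := by
      by_contra hnd
      rw [← hn₂] at hnd
      exact hno2 (cov_of_not_dvd hq hnd)
    have d3 : q ∣ n.factorial / (a₃.factorial * b₃.factorial * c₃.factorial) := by
      by_contra hnd
      rw [← hn₃] at hnd
      exact hno3 (cov_of_not_dvd hq hnd)
    have hd := Nat.dvd_gcd (Nat.dvd_gcd d1 d2) d3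
    have hpos : 0 < Nat.gcd
        (Nat.gcd (n.factorial / (a₁.factorial * b₁.factorial * c₁.factorial))
                 (n.factorial / (a₂.factorial * b₂.factorial * c₂.factorial)))
        (n.factorial / (a₃.factorial * b₃.factorial * c₃.factorial)) := by
      apply Nat.gcd_pos_of_pos_right
      rw [← hn₃]
      exact w17_tri_pos
    have := Nat.le_of_dvd hpos hd
    have := hq.two_le
    omega
  -- the three primes
  choose P hPp hPR hPd using hP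
  have hP3 : ∀ i (hi : i < 3), 3 < P i hi := by
    intro i hi
    have h1 := hPR i hi
    have h2 : (3 : ℝ) < P i hi := by linarith
    exact_mod_cast h2
  have hmod : ∀ i (hi : i < 3), n % P i hi = i := by
    intro i hi
    obtain ⟨t, ht⟩ := hPd i hi
    have h1 : n = i + P i hi * t := by omega
    have h2 := hP3 i hi
    rw [h1, Nat.add_mul_mod_self_left, Nat.mod_eq_of_lt (by omega)]
  have hff : ∀ i (hi : i < 3), P i hi ∣ ff n := by
    intro i hi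
    have h1 := hPd i hi
    unfold ff
    have h2 : n - i ∣ n * (n - 1) * (n - 2) := by
      interval_cases i
      · exact ⟨(n - 1) * (n - 2), by simp [mul_assoc]⟩
      · exact ⟨n * (n - 2), by ring⟩
      · exact ⟨n * (n - 1), by ring⟩
    exact h1.trans h2
  have hprod : ∀ i (hi : i < 3) j (hj : j < 3), n < P i hi * P j hj := by
    intro i hi j hj
    have h1 := hPR i hi
    have h2 := hPR j hj
    have h4 : (n : ℝ) < (P i hi : ℝ) * (P j hj : ℝ) := by nlinarith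
    exact_mod_cast h4
  have key : ∀ k : Fin 3, ∃ i : Fin 3, Cov (P i i.2) (![a₁, a₂, a₃] k) (![b₁, b₂, b₃] k)
      (![c₁, c₂, c₃] k) := by
    apply w17_perm (C := fun i k : Fin 3 => Cov (P i i.2) (![a₁, a₂, a₃] k) (![b₁, b₂, b₃] k)
      (![c₁, c₂, c₃] k))
    · intro i
      rcases hcov _ (hPp i i.2) with h | h | h
      · exact ⟨0, h⟩
      · exact ⟨1, h⟩
      · exact ⟨2, h⟩
    · intro i j k hij h h'
      have hij' : (i : ℕ) < j := hij
      have hj2 : (j : ℕ) ≤ 2 := by omega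
      have hx : 0 < ![a₁, a₂, a₃] k := by fin_cases k <;> assumption
      have hy : 0 < ![b₁, b₂, b₃] k := by fin_cases k <;> assumption
      have hz : 0 < ![c₁, c₂, c₃] k := by fin_cases k <;> assumption
      have hs : ![a₁, a₂, a₃] k + ![b₁, b₂, b₃] k + ![c₁, c₂, c₃] k = n := by
        fin_cases k <;> assumption
      exact not_both hx hy hz hs (hPp i i.2) (hPp j j.2) (hP3 i i.2).le (hP3 j j.2).le
        (hmod i i.2) (hmod j j.2) hij' hj2 (hprod i i.2 j j.2) h h'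
  obtain ⟨i₁, k₁⟩ := key 0
  obtain ⟨i₂, k₂⟩ := key 1
  obtain ⟨i₃, k₃⟩ := key 2
  have k₁' : Cov (P i₁ i₁.2) a₁ b₁ c₁ := k₁
  have k₂' : Cov (P i₂ i₂.2) a₂ b₂ c₂ := k₂
  have k₃' : Cov (P i₃ i₃.2) a₃ b₃ c₃ := k₃
  have l₁ := w17_lt h3 hnN hR3 hE1 ha₁ hb₁ hc₁ hn₁ (hPp i₁ i₁.2) (hPR i₁ i₁.2) k₁' (hff i₁ i₁.2)
  have l₂ := w17_lt h3 hnN hR3 hE1 ha₂ hb₂ hc₂ hn₂ (hPp i₂ i₂.2) (hPR i₂ i₂.2) k₂' (hff i₂ i₂.2)
  have l₃ := w17_lt h3 hnN hR3 hE1 ha₃ hb₃ hc₃ hn₃ (hPp i₃ i₃.2) (hPR i₃ i₃.2) k₃' (hff i₃ i₃.2)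
  have hle := ff_le_prod h3 hn₁ hn₂ hn₃ (fun q hq _ => hcov q hq)
  have hcube : ((n : ℝ) - 2) ^ 3 ≤ (ff n : ℝ) := by
    unfold ff
    have e1 : ((n - 1 : ℕ) : ℝ) = (n : ℝ) - 1 := by
      rw [Nat.cast_sub (by omega)]
      norm_num
    have e2 : ((n - 2 : ℕ) : ℝ) = (n : ℝ) - 2 := by
      rw [Nat.cast_sub (by omega)]
      norm_num
    have hn3 : (3 : ℝ) ≤ n := by exact_mod_cast h3
    push_cast
    rw [e1, e2]
    have h1 : 0 ≤ (n : ℝ) - 2 := by linarith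
    nlinarith [mul_nonneg h1 h1]
  have hmain : w0 * w1 ^ 2 ≤ (WW a₁ b₁ c₁ : ℝ) * WW a₂ b₂ c₂ * WW a₃ b₃ c₃ := by
    have h1 : (ff n : ℝ) ≤ 2 ^ (ff n).factorization 2 *
        ((WW a₁ b₁ c₁ : ℝ) * WW a₂ b₂ c₂ * WW a₃ b₃ c₃) := by exact_mod_cast hle
    have h2 : 2 ^ (ff n).factorization 2 * (w0 * w1 ^ 2) ≤ 2 ^ (ff n).factorization 2 *
        ((WW a₁ b₁ c₁ : ℝ) * WW a₂ b₂ c₂ * WW a₃ b₃ c₃) := by linarith
    exact le_of_mul_le_mul_left h2 (by positivity)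
  have g₁ : w0 ≤ WW a₁ b₁ c₁ :=
    w17_ge (Nat.cast_nonneg _) (Nat.cast_nonneg _) hw0 hw1 l₂ l₃ hmain
  have g₂ : w0 ≤ WW a₂ b₂ c₂ :=
    w17_ge (Nat.cast_nonneg _) (Nat.cast_nonneg _) hw0 hw1 l₁ l₃
      (by linarith [mul_comm (WW a₁ b₁ c₁ : ℝ) (WW a₂ b₂ c₂ : ℝ)])
  have g₃ : w0 ≤ WW a₃ b₃ c₃ :=
    w17_ge (Nat.cast_nonneg _) (Nat.cast_nonneg _) hw0 hw1 l₁ l₂
      (by
        have : (WW a₃ b₃ c₃ : ℝ) * WW a₁ b₁ c₁ * WW a₂ b₂ c₂ =
          (WW a₁ b₁ c₁ : ℝ) * WW a₂ b₂ c₂ * WW a₃ b₃ c₃ := by ring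
        linarith)
  rcases hcov 2 Nat.prime_two with h | h | h
  · exact w17_two h3 hnN hR3 hE2 ha₁ hb₁ hc₁ hn₁ (hPp i₁ i₁.2) (hPR i₁ i₁.2) k₁' (hff i₁ i₁.2) h
      g₁ l₁.le
  · exact w17_two h3 hnN hR3 hE2 ha₂ hb₂ hc₂ hn₂ (hPp i₂ i₂.2) (hPR i₂ i₂.2) k₂' (hff i₂ i₂.2) h
      g₂ l₂.le
  · exact w17_two h3 hnN hR3 hE2 ha₃ hb₃ hc₃ hn₃ (hPp i₃ i₃.2) (hPR i₃ i₃.2) k₃' (hff i₃ i₃.2) h
      g₃ l₃.le

/-- [WD-17] PROOF. Let `c < c' < 3 log 2 - 2`, `dens` for `c'` gives `η`; `τ = η/100`, `s = τ/4`; `E1_small`, `E2_small`, `small_bad` with `ε = (c' - c)/3`. For `n` in the set of `dens` not in `E1, E2` and not in the set of `small_bad`: `R = N^{1/2+η}`, `R² ≥ N ≥ n`, `w0 w1² 2^v ≤ N^{1-4τ} N^{2+2τ} N^{s} ≤ N^{3-3s} ≤ (n-2)^3`: `good`. -/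
theorem main {c : ℝ} (hc : c < 3 * Real.log 2 - 2) :
    ∃ N₀ : ℕ, ∀ N : ℕ, N₀ ≤ N →
      c * N ≤ (((Icc 3 N).filter (fun n => Q1n n)).card : ℝ) := by
  obtain ⟨c', hc1, hc2⟩ := exists_between hc
  obtain ⟨η, hη, hη4, N₁, hN₁⟩ := dens hc2
  have hε : 0 < (c' - c) / 3 := by linarith
  obtain ⟨N₂, hN₂⟩ := E1_small hη (by linarith) hε
  obtain ⟨N₃, hN₃⟩ := E2_small hη (by linarith) hε
  obtain ⟨N₄, hN₄⟩ := small_bad (s := η / 400) (by linarith) (by linarith) hε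
  refine ⟨max (max N₁ N₂) (max (max N₃ N₄) 9), fun N hN => ?_⟩
  have hNN₁ : N₁ ≤ N := le_trans (le_trans (le_max_left _ _) (le_max_left _ _)) hN
  have hNN₂ : N₂ ≤ N := le_trans (le_trans (le_max_right _ _) (le_max_left _ _)) hN
  have hNN₃ : N₃ ≤ N :=
    le_trans (le_trans (le_trans (le_max_left _ _) (le_max_left _ _)) (le_max_right _ _)) hN
  have hNN₄ : N₄ ≤ N :=
    le_trans (le_trans (le_trans (le_max_right _ _) (le_max_left _ _)) (le_max_right _ _)) hN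
  have hN9 : 9 ≤ N := le_trans (le_trans (le_max_right _ _) (le_max_right _ _)) hN
  have h1 := hN₁ N hNN₁
  have h2 := hN₂ N hNN₂
  have h3 := hN₃ N hNN₃
  have h4 := hN₄ N hNN₄
  have hN9' : (9 : ℝ) ≤ N := by exact_mod_cast hN9
  have hN0 : (0 : ℝ) < N := by linarith
  have hN1 : (1 : ℝ) ≤ N := by linarith
  set R : ℝ := (N : ℝ) ^ (1 / 2 + η) with hR
  set w1 : ℝ := (N : ℝ) ^ (1 + η / 100) with hw1
  set w0 : ℝ := (N : ℝ) ^ (1 - 4 * (η / 100)) with hw0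
  have hR3 : 3 ≤ R := by
    have e1 : (3 : ℝ) = (9 : ℝ) ^ ((1 : ℝ) / 2) := by
      rw [← Real.sqrt_eq_rpow]
      rw [show (9 : ℝ) = 3 ^ 2 by norm_num, Real.sqrt_sq (by norm_num)]
    calc (3 : ℝ) = (9 : ℝ) ^ ((1 : ℝ) / 2) := e1
      _ ≤ (N : ℝ) ^ ((1 : ℝ) / 2) := Real.rpow_le_rpow (by norm_num) hN9' (by norm_num)
      _ ≤ R := Real.rpow_le_rpow_of_exponent_le hN1 (by linarith)
  have hRN : (N : ℝ) ≤ R ^ 2 := by
    rw [hR, ← Real.rpow_natCast, ← Real.rpow_mul hN0.le]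
    calc (N : ℝ) = (N : ℝ) ^ (1 : ℝ) := (Real.rpow_one _).symm
      _ ≤ _ := Real.rpow_le_rpow_of_exponent_le hN1 (by push_cast; linarith)
  have hw1p : 0 < w1 := Real.rpow_pos_of_pos hN0 _
  have hw0p : 0 < w0 := Real.rpow_pos_of_pos hN0 _
  -- the inclusion
  have hsub : (Icc 3 N).filter (fun n : ℕ => ∀ i < 3, ∃ P : ℕ, P.Prime ∧ R < P ∧ P ∣ n - i) ⊆
      (((Icc 3 N).filter (fun n => Q1n n)) ∪ E1 N R w1) ∪ (E2 N R w0 w1 ∪
        (Icc 3 N).filter (fun n : ℕ => ((n : ℝ) - 2 < (N : ℝ) ^ (1 - η / 400)) ∨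
          (N : ℝ) ^ (η / 400) < 2 ^ (ff n).factorization 2)) := by
    intro n hn
    simp only [Finset.mem_filter] at hn
    obtain ⟨hn1, hn2⟩ := hn
    have hn3 := mem_Icc.1 hn1
    by_cases hE1 : n ∈ E1 N R w1
    · exact mem_union_left _ (mem_union_right _ hE1)
    by_cases hE2 : n ∈ E2 N R w0 w1
    · exact mem_union_right _ (mem_union_left _ hE2)
    by_cases hB : ((n : ℝ) - 2 < (N : ℝ) ^ (1 - η / 400)) ∨
          (N : ℝ) ^ (η / 400) < 2 ^ (ff n).factorization 2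
    · exact mem_union_right _ (mem_union_right _ (mem_filter.2 ⟨hn1, hB⟩))
    · push Not at hB
      obtain ⟨hB1, hB2⟩ := hB
      refine mem_union_left _ (mem_union_left _ (mem_filter.2 ⟨hn1, ?_⟩))
      refine good (R := R) (w0 := w0) (w1 := w1) hn3.1 hn3.2 hR3 ?_ hw1p hw0p ?_ hn2 hE1 hE2
      · exact le_trans (by exact_mod_cast hn3.2) hRN
      · have e1 : w0 * w1 ^ 2 * 2 ^ (ff n).factorization 2 ≤
            w0 * w1 ^ 2 * (N : ℝ) ^ (η / 400) :=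
          mul_le_mul_of_nonneg_left hB2 (by positivity)
        have e2 : w0 * w1 ^ 2 * (N : ℝ) ^ (η / 400) =
            (N : ℝ) ^ (1 - 4 * (η / 100) + (1 + η / 100) * 2 + η / 400) := by
          rw [Real.rpow_add hN0, Real.rpow_add hN0, Real.rpow_mul hN0.le]
          norm_num [hw0, hw1]
        have e3 : (N : ℝ) ^ (1 - 4 * (η / 100) + (1 + η / 100) * 2 + η / 400) ≤
            (N : ℝ) ^ ((1 - η / 400) * 3) :=
          Real.rpow_le_rpow_of_exponent_le hN1 (by linarith)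
        have e4 : (N : ℝ) ^ ((1 - η / 400) * 3) = ((N : ℝ) ^ (1 - η / 400)) ^ 3 := by
          rw [Real.rpow_mul hN0.le]
          norm_num
        have e5 : ((N : ℝ) ^ (1 - η / 400)) ^ 3 ≤ ((n : ℝ) - 2) ^ 3 :=
          pow_le_pow_left₀ (Real.rpow_nonneg hN0.le _) hB1 3
        rw [e2] at e1
        rw [e4] at e3
        exact e1.trans (e3.trans e5)
  have hcard := (card_le_card hsub).trans ((card_union_le _ _).trans
    (Nat.add_le_add (card_union_le _ _) (card_union_le _ _)))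
  have hcard' : (((Icc 3 N).filter (fun n : ℕ => ∀ i < 3, ∃ P : ℕ, P.Prime ∧ R < P ∧
      P ∣ n - i)).card : ℝ) ≤ ((((Icc 3 N).filter (fun n => Q1n n)).card : ℝ) +
      ((E1 N R w1).card : ℝ)) + (((E2 N R w0 w1).card : ℝ) +
      (((Icc 3 N).filter (fun n : ℕ => ((n : ℝ) - 2 < (N : ℝ) ^ (1 - η / 400)) ∨
          (N : ℝ) ^ (η / 400) < 2 ^ (ff n).factorization 2)).card : ℝ)) := by
    exact_mod_cast hcard
  have hfin : c' * N ≤ (((Icc 3 N).filter (fun n => Q1n n)).card : ℝ) +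
      ((c' - c) / 3 * N) + ((c' - c) / 3 * N + (c' - c) / 3 * N) := by
    linarith
  linarith

end WD
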