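import Mathlib

set_option autoImplicit false

/-! # Three trinomial coefficients have a common factor for a positive proportion of `n`: definitions -/

open Finset
open scoped Classical

namespace WD

/-- the trinomial coefficient -/
def tri (x y z : ℕ) : ℕ := (x + y + z).factorial / (x.factorial * y.factorial * z.factorial)

/-- the prime `q` is covered by `(x, y, z)`: no carries in base `q` -/
def Cov (q x y z : ℕ) : Prop :=
  ∀ i : ℕ, x % q ^ i + y % q ^ i + z % q ^ i = (x + y + z) % q ^ i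

/-- `n (n - 1) (n - 2)` (equal to `0` for `n ≤ 2`) -/
def ff (n : ℕ) : ℕ := n * (n - 1) * (n - 2)

/-- the odd primes dividing `ff n` which are covered -/
noncomputable def QQ (x y z : ℕ) : Finset ℕ :=
  (ff (x + y + z)).primeFactors.filter (fun q => q ≠ 2 ∧ Cov q x y z)

/-- the covered part of `ff n` -/
noncomputable def WW (x y z : ℕ) : ℕ :=
  ∏ q ∈ QQ x y z, q ^ (ff (x + y + z)).factorization q

/-- the six residue types of a pair -/
def pr : Fin 6 → ℕ × ℕ := ![(0, 0), (1, 0), (0, 1), (2, 0), (0, 2), (1, 1)]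

/-- `M k` is a modulus with `(x, y) ≡ pr k` -/
structure Str (x y : ℕ) (M : Fin 6 → ℕ) : Prop where
  odd : ∀ k, Odd (M k)
  cop : ∀ k l, k ≠ l → Nat.Coprime (M k) (M l)
  d1 : ∀ k, (M k : ℤ) ∣ (x : ℤ) - (pr k).1
  d2 : ∀ k, (M k : ℤ) ∣ (y : ℤ) - (pr k).2

/-- nondegenerate pair for the type `k0` -/
def ND (x y : ℕ) (k0 : Fin 6) : Prop :=
  (pr k0).1 < x ∧ (pr k0).2 < y ∧ ∀ k, k ≠ k0 →
    (((pr k).2 : ℤ) - (pr k0).2) * ((x : ℤ) - (pr k0).1) ≠
      (((pr k).1 : ℤ) - (pr k0).1) * ((y : ℤ) - (pr k0).2)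

/-- the data used in the counting: the modulus of type `k0` is larger than `R` -/
structure Core (R : ℝ) (k0 : Fin 6) (x y z : ℕ) (M : Fin 6 → ℕ) : Prop where
  str : Str x y M
  nd : ND x y k0
  big : R < M k0
  pos : 0 < z
  wz : (∏ k, M k) ∣ ff z
  wn : (∏ k, M k) ∣ ff (x + y + z)

/-- no carries in base `2` -/
def dj (s t : ℕ) : Prop := ∀ i : ℕ, s % 2 ^ i + t % 2 ^ i < 2 ^ i

/-- `B` bounds the number of divisors up to `4 N^3` -/
def DB (B : ℝ) (N : ℕ) : Prop :=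
  1 ≤ B ∧ ∀ m : ℕ, 1 ≤ m → m ≤ 4 * N ^ 3 → (m.divisors.card : ℝ) ≤ B

/-- the assertion of Q1 for one `n` -/
def Q1n (n : ℕ) : Prop := ∀ a₁ b₁ c₁ a₂ b₂ c₂ a₃ b₃ c₃ : ℕ,
  0 < a₁ → 0 < b₁ → 0 < c₁ → a₁ + b₁ + c₁ = n →
  0 < a₂ → 0 < b₂ → 0 < c₂ → a₂ + b₂ + c₂ = n →
  0 < a₃ → 0 < b₃ → 0 < c₃ → a₃ + b₃ + c₃ = n →
  1 < Nat.gcd
        (Nat.gcd (n.factorial / (a₁.factorial * b₁.factorial * c₁.factorial))
                 (n.factorial / (a₂.factorial * b₂.factorial * c₂.factorial)))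
        (n.factorial / (a₃.factorial * b₃.factorial * c₃.factorial))

end WD
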