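import Pool.Agent.WD.D0

set_option autoImplicit false

open Finset
open scoped Classical

namespace WD

theorem w_nocarry {q n k : ℕ} (hq : q.Prime) (h : ¬ q ∣ (n + k).choose k) (i : ℕ) :
    k % q ^ i + n % q ^ i < q ^ i := by
  rcases Nat.eq_zero_or_pos i with hi | hi
  · subst hi
    simp [Nat.mod_one]
  · have h1 := Nat.factorization_choose' (p := q) (n := n) (k := k)
      (b := max (i + 1) (Nat.log q (n + k) + 1)) hq (lt_of_lt_of_le (Nat.lt_succ_self _)
        (le_max_right _ _))
    rw [Nat.factorization_eq_zero_of_not_dvd h] at h1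
    have h2 := Finset.card_eq_zero.1 h1.symm
    by_contra hcon
    have h3 : i ∈ ({i ∈ Finset.Ico 1 (max (i + 1) (Nat.log q (n + k) + 1)) |
        q ^ i ≤ k % q ^ i + n % q ^ i} : Finset ℕ) := by
      rw [Finset.mem_filter, Finset.mem_Ico]
      exact ⟨⟨hi, lt_of_lt_of_le (Nat.lt_succ_self _) (le_max_left _ _)⟩, not_lt.1 hcon⟩
    rw [h2] at h3
    exact absurd h3 (Finset.notMem_empty i)

theorem w_tri (x y z : ℕ) : (x + y + z).factorial / (x.factorial * y.factorial * z.factorial) =
    ((y + z) + x).choose x * (z + y).choose y := by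
  have h1 := Nat.add_choose_mul_factorial_mul_factorial (y + z) x
  have h2 := Nat.add_choose_mul_factorial_mul_factorial z y
  have h3 : (x + y + z).factorial = x.factorial * y.factorial * z.factorial *
      (((y + z) + x).choose x * (z + y).choose y) := by
    have e1 : x + y + z = (y + z) + x := by ring
    have e2 : z + y = y + z := by ring
    rw [e1, ← h1]
    rw [e2] at h2 ⊢
    rw [← h2]
    ring
  rw [h3]
  exact Nat.mul_div_cancel_left _ (by positivity)

/-- [WD-1] Kummer: a prime which does not divide the trinomial coefficient is covered.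
PROOF. `tri x y z = choose (x+y+z) x * choose (y+z) y` (`Nat.choose_eq_factorial_div_factorial`, or `Nat.add_choose`), so `q` divides neither of the two. `Nat.factorization_choose'` (or `Nat.Prime.multiplicity_choose'`): the number of `i ∈ Ico 1 b` with `q^i ≤ x % q^i + (y+z) % q^i` is the exponent of `q`, i.e. `0`;
so `x % q^i + (y+z) % q^i < q^i` for all `i ≥ 1` (take `b` large), and similarly `y % q^i + z % q^i < q^i`; then `Nat.add_mod` and `Nat.mod_eq_of_lt`. `i = 0`: everything is `0`. -/
theorem cov_of_not_dvd {q x y z : ℕ} (hq : q.Prime)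
    (h : ¬ q ∣ (x + y + z).factorial / (x.factorial * y.factorial * z.factorial)) :
    Cov q x y z := by
  rw [w_tri] at h
  have h1 : ¬ q ∣ ((y + z) + x).choose x := fun h0 => h (Dvd.dvd.mul_right h0 _)
  have h2 : ¬ q ∣ (z + y).choose y := fun h0 => h (Dvd.dvd.mul_left h0 _)
  intro i
  have h3 := w_nocarry hq h1 i
  have h4 := w_nocarry hq h2 i
  have h5 : (y + z) % q ^ i = y % q ^ i + z % q ^ i := by
    rw [Nat.add_mod, Nat.mod_eq_of_lt h4]
  have h6 : (x + (y + z)) % q ^ i = x % q ^ i + (y + z) % q ^ i := by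
    rw [Nat.add_mod, Nat.mod_eq_of_lt h3]
  rw [add_assoc x y z, h6, h5, add_assoc]

/-- [WD-1] -/
theorem Cov.dj_pair {x y z : ℕ} (h : Cov 2 x y z) : dj x y ∧ dj x z ∧ dj y z := by
  refine ⟨fun i => ?_, fun i => ?_, fun i => ?_⟩
  all_goals
    have h1 := h i
    have h2 : (x + y + z) % 2 ^ i < 2 ^ i := Nat.mod_lt _ (by positivity)
    omega

/-- [WD-1] two equal positive numbers have a carry. PROOF. Let `2^i` be the leading power of `x` (`Nat.log`), `x % 2^(i+1) = x ≥ 2^i`. -/
theorem dj_ne {x y : ℕ} (hx : 0 < x) (h : dj x y) : x ≠ y := by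
  rintro rfl
  have h1 := h (Nat.log 2 x + 1)
  have h2 : x < 2 ^ (Nat.log 2 x + 1) := Nat.lt_pow_succ_log_self (by norm_num) x
  have h3 : 2 ^ Nat.log 2 x ≤ x := Nat.pow_log_le_self 2 hx.ne'
  rw [Nat.mod_eq_of_lt h2] at h1
  rw [pow_succ] at h1
  omega

end WD
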