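import Pool.Agent.WD.W9

set_option autoImplicit false

open Finset
open scoped Classical

namespace WD

/-- the possible values of the modulus `D` of type `k0`, for given `Y, Z` and given moduli `M'` of the other types (`M' k0 = 1`); `Pf` is an additional condition on `x, y, W` -/
noncomputable def DS (N : ℕ) (k0 : Fin 6) (R w0 : ℝ) (Pf : ℕ → ℕ → ℕ → Prop) (Y Z : ℕ)
    (M' : Fin 6 → ℕ) : Finset ℕ :=
  (Icc 1 N).filter (fun D => R < D ∧ D * (Y + Z) ≤ N ∧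
    Str ((pr k0).1 + D * Y) ((pr k0).2 + D * Z) (Function.update M' k0 D) ∧
    w0 ≤ ((D * ∏ k, M' k : ℕ) : ℝ) ∧
    Pf ((pr k0).1 + D * Y) ((pr k0).2 + D * Z) (D * ∏ k, M' k))

/-- the possible values of the third coordinate -/
noncomputable def w10_Z (N : ℕ) (w0 : ℝ) (W : ℕ) : Finset ℕ :=
  (range (N + 1)).filter (fun z => W ∣ ff z ∧ Odd W ∧ w0 ≤ W ∧ ∃ n, 3 ≤ n ∧ n ≤ N ∧ W ∣ ff n)

theorem w10_Z_card {N : ℕ} {w0 B : ℝ} (hw0 : 0 < w0) (hB : DB B N) (W : ℕ) :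
    ((w10_Z N w0 W).card : ℝ) ≤ B ^ 3 * (N / w0 + 1) := by
  have hB0 : (0 : ℝ) ≤ B := le_trans zero_le_one hB.1
  rcases (w10_Z N w0 W).eq_empty_or_nonempty with h | h
  · rw [h, Finset.card_empty, Nat.cast_zero]
    positivity
  · obtain ⟨z, hz⟩ := h
    rw [w10_Z, Finset.mem_filter] at hz
    obtain ⟨-, -, hodd, hw, n, h3, hn, hd⟩ := hz
    obtain ⟨hW1, -, hWB⟩ := hB.ff_div h3 hn hd
    have h1 : w10_Z N w0 W ⊆ (range (N + 1)).filter (fun z => W ∣ ff z) := by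
      intro z hz
      rw [w10_Z, Finset.mem_filter] at hz
      rw [Finset.mem_filter]
      exact ⟨hz.1, hz.2.1⟩
    have h2 : ((w10_Z N w0 W).card : ℝ) ≤ (((range (N + 1)).filter (fun z => W ∣ ff z)).card : ℝ) := by
      exact_mod_cast Finset.card_le_card h1
    refine h2.trans ((zcount hodd hWB).trans ?_)
    have h5 : (N : ℝ) / W ≤ N / w0 := div_le_div_of_nonneg_left (Nat.cast_nonneg _) hw0 hw
    have h6 : (0 : ℝ) ≤ B ^ 3 := pow_nonneg hB0 3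
    nlinarith

/-- the pairs `(Y, Z)` -/
noncomputable def w10_P (C : ℕ) : Finset (ℕ × ℕ) :=
  (Icc 1 C ×ˢ Icc 1 C).filter (fun p => p.1 + p.2 ≤ C)

theorem w10_P_sum (C : ℕ) (F : ℕ → ℝ) (hF0 : ∀ c, 0 ≤ F c) :
    ∑ p ∈ w10_P C, F (p.1 + p.2) ≤ ∑ c ∈ Icc 1 C, (c : ℝ) * F c := by
  have hmaps : ∀ p ∈ w10_P C, p.1 + p.2 ∈ Icc 1 C := by
    intro p hp
    rw [w10_P, Finset.mem_filter, Finset.mem_product, Finset.mem_Icc, Finset.mem_Icc] at hp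
    rw [Finset.mem_Icc]
    omega
  rw [← Finset.sum_fiberwise_of_maps_to hmaps]
  refine Finset.sum_le_sum fun c _ => ?_
  have h1 : ∑ p ∈ (w10_P C).filter (fun p => p.1 + p.2 = c), F (p.1 + p.2) =
      (((w10_P C).filter (fun p => p.1 + p.2 = c)).card : ℝ) * F c := by
    rw [← nsmul_eq_mul, ← Finset.sum_const]
    refine Finset.sum_congr rfl fun p hp => ?_
    rw [(Finset.mem_filter.1 hp).2]
  rw [h1]
  refine mul_le_mul_of_nonneg_right ?_ (hF0 c)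
  have h2 : ((w10_P C).filter (fun p => p.1 + p.2 = c)).card ≤ (Icc 1 c).card := by
    refine Finset.card_le_card_of_injOn (fun p => p.1) ?_ ?_
    · intro p hp
      have hp' := Finset.mem_filter.1 (Finset.mem_coe.1 hp)
      have hp1 := hp'.1
      rw [w10_P, Finset.mem_filter, Finset.mem_product, Finset.mem_Icc, Finset.mem_Icc] at hp1
      rw [Finset.coe_Icc, Set.mem_Icc]
      have := hp'.2
      constructor
      · exact hp1.1.1.1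
      · show p.1 ≤ c
        omega
    · intro p hp q hq hpq
      have hp2 := (Finset.mem_filter.1 (Finset.mem_coe.1 hp)).2
      have hq2 := (Finset.mem_filter.1 (Finset.mem_coe.1 hq)).2
      have hpq' : p.1 = q.1 := hpq
      refine Prod.ext hpq' ?_
      omega
  rw [Nat.card_Icc, Nat.add_sub_cancel] at h2
  exact_mod_cast h2

/-- the triples with given parameters -/
noncomputable def w10_T (N : ℕ) (k0 : Fin 6) (w0 : ℝ) (Y Z : ℕ) (M' : Fin 6 → ℕ) (D : ℕ) :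
    Finset (ℕ × ℕ × ℕ) :=
  (w10_Z N w0 (D * ∏ k, M' k)).image (fun z => ((pr k0).1 + D * Y, (pr k0).2 + D * Z, z))

theorem w10_coord {D x a : ℕ} (hd : (D : ℤ) ∣ (x : ℤ) - a) (hax : a < x) :
    ∃ Y : ℕ, 0 < Y ∧ x = a + D * Y := by
  have h1 : D ∣ x - a := by
    have e : ((x - a : ℕ) : ℤ) = (x : ℤ) - a := by
      rw [Nat.cast_sub hax.le]
    rw [← e] at hd
    exact_mod_cast hd
  obtain ⟨Y, hY⟩ := h1
  refine ⟨Y, ?_, by omega⟩
  rcases Nat.eq_zero_or_pos Y with h | h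
  · rw [h, mul_zero] at hY
    omega
  · exact h

theorem w10_cover {N : ℕ} {R w0 : ℝ} (hR : 1 ≤ R) (k0 : Fin 6) (Pf : ℕ → ℕ → ℕ → Prop)
    {x y z : ℕ} {M : Fin 6 → ℕ} (hN : x + y + z ≤ N) (hc : Core R k0 x y z M)
    (hw : w0 ≤ ((∏ k, M k : ℕ) : ℝ)) (hPf : Pf x y (∏ k, M k)) :
    ∃ p ∈ w10_P ⌊(N : ℝ) / R⌋₊, ∃ M' ∈ Fintype.piFinset (dset k0 p.1 p.2),
      ∃ D ∈ DS N k0 R w0 Pf p.1 p.2 M', (x, y, z) ∈ w10_T N k0 w0 p.1 p.2 M' D := by
  have hRD : R < M k0 := hc.big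
  have hDpos : 0 < M k0 := by
    have h1 : (0 : ℝ) < M k0 := by linarith
    exact_mod_cast h1
  obtain ⟨Y, hY0, hY⟩ := w10_coord (hc.str.d1 k0) hc.nd.1
  obtain ⟨Z, hZ0, hZ⟩ := w10_coord (hc.str.d2 k0) hc.nd.2.1
  have hDYZ : M k0 * (Y + Z) ≤ N := by
    rw [mul_add]
    omega
  have hYZ : Y + Z ≤ ⌊(N : ℝ) / R⌋₊ := by
    apply Nat.le_floor
    rw [le_div_iff₀ (by linarith)]
    have h1 : ((M k0 * (Y + Z) : ℕ) : ℝ) ≤ N := by exact_mod_cast hDYZ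
    have h2 : ((Y + Z : ℕ) : ℝ) * R ≤ ((Y + Z : ℕ) : ℝ) * M k0 :=
      mul_le_mul_of_nonneg_left hRD.le (Nat.cast_nonneg _)
    have h3 : ((M k0 * (Y + Z) : ℕ) : ℝ) = ((Y + Z : ℕ) : ℝ) * M k0 := by
      push_cast
      ring
    linarith
  have hupd : Function.update (Function.update M k0 1) k0 (M k0) = M := by
    rw [Function.update_idem, Function.update_eq_self]
  have hprod : M k0 * ∏ k, (Function.update M k0 1) k = ∏ k, M k := by
    rw [← Finset.mul_prod_erase Finset.univ M (Finset.mem_univ k0),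
      ← Finset.mul_prod_erase Finset.univ (Function.update M k0 1) (Finset.mem_univ k0),
      Function.update_self, one_mul]
    congr 1
    refine Finset.prod_congr rfl fun k hk => ?_
    rw [Function.update_of_ne (Finset.ne_of_mem_erase hk)]
  refine ⟨(Y, Z), ?_, Function.update M k0 1, mem_dset hc hY hZ, M k0, ?_, ?_⟩
  · rw [w10_P, Finset.mem_filter, Finset.mem_product, Finset.mem_Icc, Finset.mem_Icc]
    simp only
    omega
  · rw [DS, Finset.mem_filter, Finset.mem_Icc]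
    have h1 : M k0 ≤ M k0 * (Y + Z) := Nat.le_mul_of_pos_right _ (by omega)
    refine ⟨⟨hDpos, h1.trans hDYZ⟩, hRD, hDYZ, ?_, ?_, ?_⟩
    · rw [hupd, ← hY, ← hZ]
      exact hc.str
    · rw [hprod]
      exact hw
    · rw [hprod, ← hY, ← hZ]
      exact hPf
  · rw [w10_T, Finset.mem_image]
    refine ⟨z, ?_, ?_⟩
    · rw [w10_Z, Finset.mem_filter, Finset.mem_range, hprod]
      refine ⟨by omega, hc.wz, ?_, hw, x + y + z, ?_, hN, hc.wn⟩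
      · exact Finset.prod_induction M Odd (fun a b => Odd.mul) odd_one (fun k _ => hc.str.odd k)
      · have h1 := hc.nd.1
        have h2 := hc.nd.2.1
        have h3 := hc.pos
        omega
    · rw [← hY, ← hZ]

/-- [WD-10] the general counting lemma.
PROOF. For `t = (x, y, z) ∈ A` choose `M` (`hA`); `D = M k0`, `Y = (x - a)/D`, `Z = (y - b)/D` (`D ∣ x - a > 0` by `Str.d1`, `pr k = pr k0` at `k = k0`), so `Y, Z ≥ 1`, `x = a + D Y`, `y = b + D Z`, `D (Y + Z) ≤ N`, so `c = Y + Z ≤ N/D < N/R`; `M' = update M k0 1`, `∏ M = D ∏ M'` (`Finset.prod_update_of_mem`, `Finset.mul_prod_erase`), `update M' k0 D = M`.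
The map `t ↦ ((Y, Z), (M', (D, z)))` is injective (`x, y` are determined by `Y, Z, D`) into the `Finset.sigma` of: `(Y, Z) ∈ Icc 1 C ×ˢ Icc 1 C` with `Y + Z ≤ C = ⌊N/R⌋₊` (`C ≤ N` as `R ≥ 1`); `M' ∈ piFinset (dset k0 Y Z)` (`mem_dset`) with `M' k0 = 1`; `D ∈ DS ..`; `z ≤ N` with `W ∣ ff z` and `∃ n, 3 ≤ n ≤ N ∧ W ∣ ff n`, `W = D ∏ M'` odd.
Sizes: `card_dset`, `hF`, and `zcount` with `DB.ff_div` (`N/W ≤ N/w0`; if no such `n` exists the set is empty). Then the sum over `(Y, Z)` with `Y + Z = c` of `F c` is at most `c F c` (`F c ≥ 0`). -/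
theorem general {N : ℕ} {R w0 B : ℝ} (hN : 3 ≤ N) (hR : 1 ≤ R) (hw0 : 0 < w0) (hB : DB B N)
    (k0 : Fin 6) (Pf : ℕ → ℕ → ℕ → Prop) (F : ℕ → ℝ) (hF0 : ∀ c, 0 ≤ F c)
    (hF : ∀ Y Z : ℕ, 0 < Y → 0 < Z → (((Y + Z : ℕ) : ℝ) * R ≤ N) → ∀ M' : Fin 6 → ℕ, M' k0 = 1 →
      ((DS N k0 R w0 Pf Y Z M').card : ℝ) ≤ F (Y + Z))
    (A : Finset (ℕ × ℕ × ℕ))
    (hA : ∀ t ∈ A, t.1 + t.2.1 + t.2.2 ≤ N ∧ ∃ M : Fin 6 → ℕ, Core R k0 t.1 t.2.1 t.2.2 M ∧
      w0 ≤ ((∏ k, M k : ℕ) : ℝ) ∧ Pf t.1 t.2.1 (∏ k, M k)) :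
    (A.card : ℝ) ≤ (∑ c ∈ Icc 1 ⌊(N : ℝ) / R⌋₊, (c : ℝ) * F c) * (B ^ 5 * (B ^ 3 * (N / w0 + 1))) := by
  have hB0 : (0 : ℝ) ≤ B := le_trans zero_le_one hB.1
  set C := ⌊(N : ℝ) / R⌋₊ with hC
  set K2 : ℝ := B ^ 3 * (N / w0 + 1) with hK2
  have hK20 : 0 ≤ K2 := by positivity
  have hsub : A ⊆ (w10_P C).biUnion (fun p => (Fintype.piFinset (dset k0 p.1 p.2)).biUnion
      (fun M' => (DS N k0 R w0 Pf p.1 p.2 M').biUnion (fun D => w10_T N k0 w0 p.1 p.2 M' D))) := by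
    rintro ⟨x, y, z⟩ ht
    obtain ⟨h1, M, h2, h3, h4⟩ := hA _ ht
    obtain ⟨p, hp, M', hM', D, hD, h5⟩ := w10_cover hR k0 Pf h1 h2 h3 h4
    simp only [Finset.mem_biUnion]
    exact ⟨p, hp, M', hM', D, hD, h5⟩
  have hcard : A.card ≤ ∑ p ∈ w10_P C, ∑ M' ∈ Fintype.piFinset (dset k0 p.1 p.2),
      ∑ D ∈ DS N k0 R w0 Pf p.1 p.2 M', (w10_T N k0 w0 p.1 p.2 M' D).card := by
    refine (Finset.card_le_card hsub).trans (Finset.card_biUnion_le.trans ?_)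
    refine Finset.sum_le_sum fun p _ => Finset.card_biUnion_le.trans ?_
    exact Finset.sum_le_sum fun M' _ => Finset.card_biUnion_le
  have hcard' : (A.card : ℝ) ≤ ∑ p ∈ w10_P C, ∑ M' ∈ Fintype.piFinset (dset k0 p.1 p.2),
      ∑ D ∈ DS N k0 R w0 Pf p.1 p.2 M', ((w10_T N k0 w0 p.1 p.2 M' D).card : ℝ) := by
    exact_mod_cast hcard
  refine hcard'.trans ?_
  have hinner : ∀ p ∈ w10_P C, ∑ M' ∈ Fintype.piFinset (dset k0 p.1 p.2),
      ∑ D ∈ DS N k0 R w0 Pf p.1 p.2 M', ((w10_T N k0 w0 p.1 p.2 M' D).card : ℝ) ≤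
      F (p.1 + p.2) * (B ^ 5 * K2) := by
    intro p hp
    rw [w10_P, Finset.mem_filter, Finset.mem_product, Finset.mem_Icc, Finset.mem_Icc] at hp
    obtain ⟨⟨⟨hY, -⟩, ⟨hZ, -⟩⟩, hYZ⟩ := hp
    have hYZR : ((p.1 + p.2 : ℕ) : ℝ) * R ≤ N := by
      have h1 : ((p.1 + p.2 : ℕ) : ℝ) ≤ (N : ℝ) / R :=
        (Nat.cast_le.2 hYZ).trans (Nat.floor_le (by positivity))
      rwa [le_div_iff₀ (by linarith)] at h1
    have hYZN : p.1 + p.2 ≤ N := by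
      have h1 : ((p.1 + p.2 : ℕ) : ℝ) ≤ ((p.1 + p.2 : ℕ) : ℝ) * R :=
        le_mul_of_one_le_right (Nat.cast_nonneg _) hR
      exact_mod_cast h1.trans hYZR
    have hT : ∀ M' D, ((w10_T N k0 w0 p.1 p.2 M' D).card : ℝ) ≤ K2 := by
      intro M' D
      have h1 : (w10_T N k0 w0 p.1 p.2 M' D).card ≤ (w10_Z N w0 (D * ∏ k, M' k)).card :=
        Finset.card_image_le
      have h2 : ((w10_T N k0 w0 p.1 p.2 M' D).card : ℝ) ≤ ((w10_Z N w0 (D * ∏ k, M' k)).card : ℝ) := by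
        exact_mod_cast h1
      exact h2.trans (w10_Z_card hw0 hB _)
    have hD : ∀ M' ∈ Fintype.piFinset (dset k0 p.1 p.2),
        ∑ D ∈ DS N k0 R w0 Pf p.1 p.2 M', ((w10_T N k0 w0 p.1 p.2 M' D).card : ℝ) ≤
        F (p.1 + p.2) * K2 := by
      intro M' hM'
      have hk0 : M' k0 = 1 := by
        have h1 := Fintype.mem_piFinset.1 hM' k0
        rw [dset, if_pos rfl, Finset.mem_singleton] at h1
        exact h1
      calc ∑ D ∈ DS N k0 R w0 Pf p.1 p.2 M', ((w10_T N k0 w0 p.1 p.2 M' D).card : ℝ)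
          ≤ ∑ _D ∈ DS N k0 R w0 Pf p.1 p.2 M', K2 := Finset.sum_le_sum fun D _ => hT M' D
        _ = ((DS N k0 R w0 Pf p.1 p.2 M').card : ℝ) * K2 := by
            rw [Finset.sum_const, nsmul_eq_mul]
        _ ≤ F (p.1 + p.2) * K2 :=
            mul_le_mul_of_nonneg_right (hF p.1 p.2 hY hZ hYZR M' hk0) hK20
    calc ∑ M' ∈ Fintype.piFinset (dset k0 p.1 p.2),
          ∑ D ∈ DS N k0 R w0 Pf p.1 p.2 M', ((w10_T N k0 w0 p.1 p.2 M' D).card : ℝ)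
        ≤ ∑ _M' ∈ Fintype.piFinset (dset k0 p.1 p.2), F (p.1 + p.2) * K2 := Finset.sum_le_sum hD
      _ = ((Fintype.piFinset (dset k0 p.1 p.2)).card : ℝ) * (F (p.1 + p.2) * K2) := by
          rw [Finset.sum_const, nsmul_eq_mul]
      _ ≤ B ^ 5 * (F (p.1 + p.2) * K2) :=
          mul_le_mul_of_nonneg_right (card_dset hB (by omega) k0 hY hZ hYZN)
            (mul_nonneg (hF0 _) hK20)
      _ = F (p.1 + p.2) * (B ^ 5 * K2) := by ring
  calc ∑ p ∈ w10_P C, ∑ M' ∈ Fintype.piFinset (dset k0 p.1 p.2),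
        ∑ D ∈ DS N k0 R w0 Pf p.1 p.2 M', ((w10_T N k0 w0 p.1 p.2 M' D).card : ℝ)
      ≤ ∑ p ∈ w10_P C, F (p.1 + p.2) * (B ^ 5 * K2) := Finset.sum_le_sum hinner
    _ = (∑ p ∈ w10_P C, F (p.1 + p.2)) * (B ^ 5 * K2) := by rw [Finset.sum_mul]
    _ ≤ (∑ c ∈ Icc 1 C, (c : ℝ) * F c) * (B ^ 5 * K2) :=
        mul_le_mul_of_nonneg_right (w10_P_sum C F hF0) (by positivity)

end WD
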