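import Pool.Agent.WD.W6

set_option autoImplicit false

open Finset
open scoped Classical

namespace WD

/-- [WD-7] helper: shifting keeps the absence of carries. -/
theorem w7_dj_shift {s t : ℕ} (k : ℕ) (h : dj s t) : dj (s / 2 ^ k) (t / 2 ^ k) := by
  intro i
  have h1 := h (k + i)
  rw [pow_add] at h1
  rw [← Nat.mod_mul_right_div_self s (2 ^ k) (2 ^ i), ← Nat.mod_mul_right_div_self t (2 ^ k) (2 ^ i)]
  have hp : 0 < 2 ^ k := by positivity
  have h2 : (s % (2 ^ k * 2 ^ i)) / 2 ^ k + (t % (2 ^ k * 2 ^ i)) / 2 ^ k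
      ≤ (s % (2 ^ k * 2 ^ i) + t % (2 ^ k * 2 ^ i)) / 2 ^ k := Nat.add_div_le_add_div _ _ _
  refine lt_of_le_of_lt h2 ?_
  rw [Nat.div_lt_iff_lt_mul hp, mul_comm (2 ^ i)]
  exact h1

theorem w7_add_div (A c k v : ℕ) : (A + 2 ^ k * c * v) / 2 ^ k = A / 2 ^ k + c * v := by
  rw [mul_assoc, Nat.add_mul_div_left _ _ (by positivity)]

/-- [WD-7] several blocks.
PROOF. Induction on `h` for all `A, A'`. `v = v₀ + 2^(2d) v'`; by `block` at most `3^d` values of `v₀` (the condition for `k ≤ 2d` depends only on `v₀`), and for given `v₀` `dj (A + b v) (A' + b' v)` implies `dj (A₁ + b v') (A₁' + b' v')`, `A₁ = (A + b v₀)/2^(2d)`, `A₁' = (A' + b' v₀)/2^(2d)` (`Nat.add_mul_div_left`; `dj s t → dj (s/2^k) (t/2^k)`: `(s/2^k) % 2^i = (s % 2^(k+i))/2^k`, `Nat.mod_mul_right_div_self`). -/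
theorem blocks {d b b' : ℕ} (h : Val d b b') (m A A' : ℕ) :
    ((range (2 ^ (2 * d * m))).filter (fun v => dj (A + b * v) (A' + b' * v))).card ≤ 3 ^ (d * m) := by
  induction m generalizing A A' with
  | zero =>
    refine le_trans (card_filter_le _ _) ?_
    simp
  | succ m ih =>
    have hpos : 0 < 2 ^ (2 * d) := by positivity
    have key : ((range (2 ^ (2 * d * (m + 1)))).filter
        (fun v => dj (A + b * v) (A' + b' * v))).card ≤
        3 ^ (d * m) * ((range (2 ^ (2 * d))).filter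
      (fun v => ∀ k ≤ 2 * d, (A + b * v) % 2 ^ k + (A' + b' * v) % 2 ^ k < 2 ^ k)).card := by
      refine card_le_mul_card_image_of_maps_to (f := fun v => v % 2 ^ (2 * d)) ?_ _ ?_
      · intro v hv
        rw [mem_filter] at hv
        simp only [mem_filter, mem_range]
        refine ⟨Nat.mod_lt _ hpos, ?_⟩
        intro k hk
        have h1 := hv.2 k
        have hdk : 2 ^ k ∣ 2 ^ (2 * d) := pow_dvd_pow 2 hk
        have e1 : (A + b * (v % 2 ^ (2 * d))) % 2 ^ k = (A + b * v) % 2 ^ k := by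
          rw [Nat.add_mod, Nat.mul_mod, Nat.mod_mod_of_dvd _ hdk, ← Nat.mul_mod, ← Nat.add_mod]
        have e2 : (A' + b' * (v % 2 ^ (2 * d))) % 2 ^ k = (A' + b' * v) % 2 ^ k := by
          rw [Nat.add_mod, Nat.mul_mod, Nat.mod_mod_of_dvd _ hdk, ← Nat.mul_mod, ← Nat.add_mod]
        rw [e1, e2]
        exact h1
      · intro v₀ _
        refine le_trans ?_ (ih ((A + b * v₀) / 2 ^ (2 * d)) ((A' + b' * v₀) / 2 ^ (2 * d)))
        refine card_le_card_of_injOn (fun v => v / 2 ^ (2 * d)) ?_ ?_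
        · intro v hv
          simp only [coe_filter, mem_filter, mem_range, Set.mem_setOf_eq] at hv
          obtain ⟨⟨hv1, hv2⟩, hv3⟩ := hv
          simp only [coe_filter, mem_range, Set.mem_setOf_eq]
          have hv4 : v = v₀ + 2 ^ (2 * d) * (v / 2 ^ (2 * d)) := by
            rw [← hv3]; exact (Nat.mod_add_div v _).symm
          refine ⟨?_, ?_⟩
          · rw [Nat.div_lt_iff_lt_mul hpos, ← pow_add]
            have : 2 * d * m + 2 * d = 2 * d * (m + 1) := by ring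
            rw [this]; exact hv1
          · have h5 := w7_dj_shift (2 * d) hv2
            have e1 : (A + b * v) / 2 ^ (2 * d) =
                (A + b * v₀) / 2 ^ (2 * d) + b * (v / 2 ^ (2 * d)) := by
              conv_lhs => rw [hv4]
              have : A + b * (v₀ + 2 ^ (2 * d) * (v / 2 ^ (2 * d))) =
                (A + b * v₀) + 2 ^ (2 * d) * b * (v / 2 ^ (2 * d)) := by ring
              rw [this, w7_add_div]
            have e2 : (A' + b' * v) / 2 ^ (2 * d) =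
                (A' + b' * v₀) / 2 ^ (2 * d) + b' * (v / 2 ^ (2 * d)) := by
              conv_lhs => rw [hv4]
              have : A' + b' * (v₀ + 2 ^ (2 * d) * (v / 2 ^ (2 * d))) =
                (A' + b' * v₀) + 2 ^ (2 * d) * b' * (v / 2 ^ (2 * d)) := by ring
              rw [this, w7_add_div]
            rw [e1, e2] at h5
            exact h5
        · intro v hv w hw hvw
          simp only [coe_filter, mem_filter, mem_range, Set.mem_setOf_eq] at hv hw
          have h1 := hv.2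
          have h2 := hw.2
          simp only at hvw
          calc v = v % 2 ^ (2 * d) + 2 ^ (2 * d) * (v / 2 ^ (2 * d)) := (Nat.mod_add_div v _).symm
            _ = w % 2 ^ (2 * d) + 2 ^ (2 * d) * (w / 2 ^ (2 * d)) := by rw [h1, h2, hvw]
            _ = w := Nat.mod_add_div w _
    calc _ ≤ _ := key
      _ ≤ 3 ^ (d * m) * 3 ^ d := Nat.mul_le_mul_left _ (block h A A')
      _ = 3 ^ (d * (m + 1)) := by rw [← pow_add]; ring_nf

/-- [WD-7] the digit lemma.
PROOF. `m = 2j/d ≥ 1`; `2 d m ≤ 4j`; `[0, 16^j)` is the union of `2^(4j - 2dm)` blocks of length `2^(2dm)` (`v = 2^(2dm) u + v'`, new `A`), so the number is `≤ 2^(4j-2dm) 3^(dm)`, and `d m ≥ j` (`d m ≥ d` and `d m > 2j - d`), `16^j (3/4)^(dm) ≤ 16^j (3/4)^j = 12^j`: `2^(4j-2dm) 3^(dm) ≤ 12^j` (write `dm = j + e`, `2j ≥ j + e`: `2^(2j - 2e) 3^(j+e) = 12^j (3/4)^e`). -/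
theorem digits0 {d b b' j : ℕ} (h : Val d b b') (hd : d ≤ 2 * j) (A A' : ℕ) :
    ((range (16 ^ j)).filter (fun v => dj (A + b * v) (A' + b' * v))).card ≤ 12 ^ j := by
  have hd1 : 1 ≤ d := h.1
  obtain ⟨m, hm⟩ : ∃ m, m = 2 * j / d := ⟨_, rfl⟩
  have hm1 : d * m ≤ 2 * j := by rw [hm]; exact Nat.mul_div_le _ _
  have hm2 : 1 ≤ m := by rw [hm]; exact (Nat.one_le_div_iff (by omega)).mpr hd
  have hm3 : 2 * j < d * m + d := by
    rw [hm]
    have := Nat.lt_mul_div_succ (2 * j) (show 0 < d by omega)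
    rw [Nat.mul_add, mul_one] at this
    exact this
  have hm4 : d ≤ d * m := Nat.le_mul_of_pos_right _ hm2
  have hm5 : j ≤ d * m := by omega
  obtain ⟨e, he⟩ : ∃ e, d * m = j + e := ⟨d * m - j, by omega⟩
  have he2 : e ≤ j := by omega
  obtain ⟨f, hf⟩ : ∃ f, j = e + f := ⟨j - e, by omega⟩
  have hpos : 0 < 2 ^ (2 * d * m) := by positivity
  have h16 : 16 ^ j = 2 ^ (2 * f) * 2 ^ (2 * d * m) := by
    rw [← pow_add]
    have : 2 * f + 2 * d * m = 4 * j := by
      have : 2 * d * m = 2 * (d * m) := by ring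
      rw [this, he]; omega
    rw [this, pow_mul]; norm_num
  have key : ((range (16 ^ j)).filter (fun v => dj (A + b * v) (A' + b' * v))).card ≤
      3 ^ (d * m) * (range (2 ^ (2 * f))).card := by
    refine card_le_mul_card_image_of_maps_to (f := fun v => v / 2 ^ (2 * d * m)) ?_ _ ?_
    · intro v hv
      rw [mem_filter, mem_range, h16] at hv
      simp only [mem_range]
      rw [Nat.div_lt_iff_lt_mul hpos]
      exact hv.1
    · intro u _
      refine le_trans ?_ (blocks h m (A + b * (2 ^ (2 * d * m) * u)) (A' + b' * (2 ^ (2 * d * m) * u)))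
      refine card_le_card_of_injOn (fun v => v % 2 ^ (2 * d * m)) ?_ ?_
      · intro v hv
        simp only [coe_filter, mem_filter, mem_range, Set.mem_setOf_eq] at hv
        obtain ⟨⟨hv1, hv2⟩, hv3⟩ := hv
        simp only [coe_filter, mem_range, Set.mem_setOf_eq]
        refine ⟨Nat.mod_lt _ hpos, ?_⟩
        have hv4 : v = v % 2 ^ (2 * d * m) + 2 ^ (2 * d * m) * u := by
          rw [← hv3]; exact (Nat.mod_add_div v _).symm
        have e1 : A + b * (2 ^ (2 * d * m) * u) + b * (v % 2 ^ (2 * d * m)) = A + b * v := by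
          conv_rhs => rw [hv4]
          ring
        have e2 : A' + b' * (2 ^ (2 * d * m) * u) + b' * (v % 2 ^ (2 * d * m)) = A' + b' * v := by
          conv_rhs => rw [hv4]
          ring
        rw [e1, e2]
        exact hv2
      · intro v hv w hw hvw
        simp only [coe_filter, mem_filter, mem_range, Set.mem_setOf_eq] at hv hw
        have h1 := hv.2
        have h2 := hw.2
        simp only at hvw
        calc v = v % 2 ^ (2 * d * m) + 2 ^ (2 * d * m) * (v / 2 ^ (2 * d * m)) := (Nat.mod_add_div v _).symm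
          _ = w % 2 ^ (2 * d * m) + 2 ^ (2 * d * m) * (w / 2 ^ (2 * d * m)) := by rw [h1, h2, hvw]
          _ = w := Nat.mod_add_div w _
  refine le_trans key ?_
  rw [card_range, he, hf, pow_mul]
  calc 3 ^ (e + f + e) * (2 ^ 2) ^ f = 3 ^ (e + f) * 4 ^ f * 3 ^ e := by rw [pow_add 3 (e + f) e]; ring
    _ ≤ 3 ^ (e + f) * 4 ^ f * 4 ^ e := Nat.mul_le_mul_left _ (Nat.pow_le_pow_left (by norm_num) e)
    _ = 12 ^ (e + f) := by
      have : (12 : ℕ) = 3 * 4 := by norm_num
      rw [this, mul_pow, pow_add 4 e f]; ring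

/-- [WD-7] PROOF. Let `2^e` be the largest power of `2` dividing `Y` and `Z`; `Y = 2^e y`, `Z = 2^e z`; exactly one of `y, z, y + z` is even, and it is `2^d g`, `g` odd, `d ≥ 1` (`Nat.exists_eq_two_pow_mul_odd`). -/
theorem exists_val {Y Z : ℕ} (hY : 0 < Y) (hZ : 0 < Z) :
    ∃ e d y z, Val d y z ∧ Y = 2 ^ e * y ∧ Z = 2 ^ e * z ∧
      (2 ^ d ∣ Y ∨ 2 ^ d ∣ Z ∨ 2 ^ d ∣ Y + Z) := by
  obtain ⟨a, y, hy, rfl⟩ := Nat.exists_eq_two_pow_mul_odd hY.ne'
  obtain ⟨c, z, hz, rfl⟩ := Nat.exists_eq_two_pow_mul_odd hZ.ne'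
  rcases lt_trichotomy a c with hac | hac | hac
  · obtain ⟨d, rfl⟩ : ∃ d, c = a + d := ⟨c - a, by omega⟩
    refine ⟨a, d, y, 2 ^ d * z, ⟨by omega, Or.inl ⟨hy, z, hz, rfl⟩⟩, rfl, by rw [pow_add]; ring, ?_⟩
    right; left
    rw [pow_add]
    exact ⟨2 ^ a * z, by ring⟩
  · subst hac
    have hyz : y + z ≠ 0 := by
      have := hy.pos
      omega
    obtain ⟨d, g, hg, hg2⟩ := Nat.exists_eq_two_pow_mul_odd hyz
    refine ⟨a, d, y, z, ⟨?_, Or.inr (Or.inr ⟨hy, hz, g, hg, hg2⟩)⟩, rfl, rfl, ?_⟩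
    · rcases Nat.eq_zero_or_pos d with hd | hd
      · exfalso
        subst hd
        rw [pow_zero, one_mul] at hg2
        have h1 : Even (y + z) := hy.add_odd hz
        rw [hg2] at h1
        exact (Nat.not_even_iff_odd.mpr hg) h1
      · exact hd
    · right; right
      rw [← mul_add, hg2]
      exact ⟨2 ^ a * g, by ring⟩
  · obtain ⟨d, rfl⟩ : ∃ d, a = c + d := ⟨a - c, by omega⟩
    refine ⟨c, d, 2 ^ d * y, z, ⟨by omega, Or.inr (Or.inl ⟨hz, y, hy, rfl⟩)⟩, by rw [pow_add]; ring, rfl, ?_⟩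
    left
    rw [pow_add]
    exact ⟨2 ^ c * y, by ring⟩

/-- [WD-7] the digit lemma for an arithmetic progression with odd multiplier.
PROOF. `exists_val`: if `d > 2j` then `4^j = 2^(2j) ∣ 2^d`, contradiction. `Val d (M y) (M z)` as `M` is odd. `dj (A + M Y v) (A' + M Z v) → dj (A/2^e + M y v) (A'/2^e + M z v)`, `digits0`. -/
theorem digits {Y Z M j : ℕ} (hY : 0 < Y) (hZ : 0 < Z) (hM : Odd M) (h1 : ¬ 4 ^ j ∣ Y)
    (h2 : ¬ 4 ^ j ∣ Z) (h3 : ¬ 4 ^ j ∣ Y + Z) (A A' : ℕ) :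
    ((range (16 ^ j)).filter (fun v => dj (A + M * Y * v) (A' + M * Z * v))).card ≤ 12 ^ j := by
  obtain ⟨e, d, y, z, hv, rfl, rfl, hd⟩ := exists_val hY hZ
  have hdj : d ≤ 2 * j := by
    by_contra hlt
    push_neg at hlt
    have h4 : 4 ^ j ∣ 2 ^ d := by
      have : (4 : ℕ) ^ j = 2 ^ (2 * j) := by rw [pow_mul]; norm_num
      rw [this]
      exact pow_dvd_pow 2 hlt.le
    rcases hd with hd | hd | hd
    · exact h1 (h4.trans hd)
    · exact h2 (h4.trans hd)
    · exact h3 (h4.trans hd)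
  have hv' : Val d (M * y) (M * z) := by
    refine ⟨hv.1, ?_⟩
    rcases hv.2 with ⟨ho, g, hg, hg2⟩ | ⟨ho, g, hg, hg2⟩ | ⟨ho, ho', g, hg, hg2⟩
    · exact Or.inl ⟨hM.mul ho, M * g, hM.mul hg, by rw [hg2]; ring⟩
    · exact Or.inr (Or.inl ⟨hM.mul ho, M * g, hM.mul hg, by rw [hg2]; ring⟩)
    · exact Or.inr (Or.inr ⟨hM.mul ho, hM.mul ho', M * g, hM.mul hg, by rw [← mul_add, hg2]; ring⟩)
  refine le_trans ?_ (digits0 hv' hdj (A / 2 ^ e) (A' / 2 ^ e))
  refine card_le_card ?_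
  intro v hv
  rw [mem_filter] at hv ⊢
  refine ⟨hv.1, ?_⟩
  have h5 := w7_dj_shift e hv.2
  have e1 : (A + M * (2 ^ e * y) * v) / 2 ^ e = A / 2 ^ e + M * y * v := by
    have : M * (2 ^ e * y) * v = 2 ^ e * (M * y) * v := by ring
    rw [this, w7_add_div]
  have e2 : (A' + M * (2 ^ e * z) * v) / 2 ^ e = A' / 2 ^ e + M * z * v := by
    have : M * (2 ^ e * z) * v = 2 ^ e * (M * z) * v := by ring
    rw [this, w7_add_div]
  rw [e1, e2] at h5
  exact h5

end WD
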