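import Pool.Agent.WD.W10
import Pool.Agent.WD.W7

set_option autoImplicit false

open Finset
open scoped Classical

namespace WD

theorem w11_pr_le (k : Fin 6) : (pr k).1 ≤ 2 ∧ (pr k).2 ≤ 2 := by
  fin_cases k <;> simp [pr]

theorem w11_pr_ne {k l : Fin 6} (h : k ≠ l) : (pr k).1 ≠ (pr l).1 ∨ (pr k).2 ≠ (pr l).2 := by
  fin_cases k <;> fin_cases l <;> simp_all [pr]

theorem w11_cop {m Y a p D : ℕ} (hm : Odd m) (ha : a ≤ 2) (hp : p ≤ 2) (hne : p ≠ a)
    (h : (m : ℤ) ∣ ((a + D * Y : ℕ) : ℤ) - p) : IsCoprime (m : ℤ) (Y : ℤ) := by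
  rw [Nat.isCoprime_iff_coprime]
  by_contra hc
  obtain ⟨q, hq, hqm, hqY⟩ := Nat.Prime.not_coprime_iff_dvd.1 hc
  have h1 : (q : ℤ) ∣ ((a + D * Y : ℕ) : ℤ) - p := dvd_trans (Int.natCast_dvd_natCast.2 hqm) h
  have h2 : (q : ℤ) ∣ (D : ℤ) * Y := Dvd.dvd.mul_left (Int.natCast_dvd_natCast.2 hqY) _
  have h3 : (q : ℤ) ∣ (a : ℤ) - p := by
    have h4 := dvd_sub h1 h2
    have h5 : ((a + D * Y : ℕ) : ℤ) - p - (D : ℤ) * Y = (a : ℤ) - p := by push_cast; ring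
    rwa [h5] at h4
  have hq2 : q ≠ 2 := by
    rintro rfl
    obtain ⟨r, hr⟩ := hm
    obtain ⟨s, hs⟩ := hqm
    omega
  have hq3 : 3 ≤ q := by
    have := hq.two_le
    omega
  have h6 : ((a : ℤ) - p) ≠ 0 := by
    intro h7
    apply hne
    omega
  have h7 := Int.le_of_dvd (abs_pos.2 h6) ((dvd_abs _ _).2 h3)
  have h8 : |(a : ℤ) - p| ≤ 2 := by
    rw [abs_le]
    constructor <;> omega
  omega

/-- [WD-11] all `D` are in one class modulo `∏ M'`.
PROOF. For `k ≠ k0` (`update M' k0 D k = M' k`): `M' k ∣ a + D Y - p₁`, `M' k ∣ a + D' Y - p₁`, so `M' k ∣ (D - D') Y`, similarly `M' k ∣ (D - D') Z`. `(p₁ - a, p₂ - b) ≠ (0, 0)` with entries in `{-2, .., 2}` (`decide`/`fin_cases`); if `p₁ ≠ a`, a prime dividing `M' k` and `Y` divides `p₁ - a ∈ {±1, ±2}`, impossible as `M' k` is odd: `M' k` is coprime to `Y`, so `M' k ∣ D - D'`. Similarly with `Z` if `p₂ ≠ b`.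
For `k = k0`: `M' k0 = 1`. The `M' k` are pairwise coprime (`Str.cop`, `k0`: `1`): the product divides (`Finset.prod_dvd_of_coprime`). -/
theorem DS_class {N : ℕ} {k0 : Fin 6} {R w0 : ℝ} {Pf : ℕ → ℕ → ℕ → Prop} {Y Z : ℕ}
    {M' : Fin 6 → ℕ} (h1 : M' k0 = 1) {D D' : ℕ} (hD : D ∈ DS N k0 R w0 Pf Y Z M')
    (hD' : D' ∈ DS N k0 R w0 Pf Y Z M') : ((∏ k, M' k : ℕ) : ℤ) ∣ (D : ℤ) - D' := by
  unfold DS at hD hD'
  rw [mem_filter] at hD hD'
  obtain ⟨-, -, -, hS, -, -⟩ := hD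
  obtain ⟨-, -, -, hS', -, -⟩ := hD'
  have hup : ∀ (E : ℕ) (k : Fin 6), k ≠ k0 → Function.update M' k0 E k = M' k := fun E k hk =>
    Function.update_of_ne hk _ _
  push_cast
  refine Finset.prod_dvd_of_coprime ?_ ?_
  · intro k _ l _ hkl
    by_cases hk : k = k0
    · subst hk
      show IsCoprime ((M' k : ℕ) : ℤ) _
      rw [h1]
      exact_mod_cast isCoprime_one_left
    · by_cases hl : l = k0
      · subst hl
        show IsCoprime _ ((M' l : ℕ) : ℤ)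
        rw [h1]
        exact_mod_cast isCoprime_one_right
      · have h2 := hS.cop k l hkl
        rw [hup D k hk, hup D l hl] at h2
        exact Nat.isCoprime_iff_coprime.2 h2
  · intro k _
    by_cases hk : k = k0
    · subst hk
      rw [h1]
      simp
    · have ho : Odd (M' k) := by
        have := hS.odd k
        rwa [hup D k hk] at this
      have a1 := hS.d1 k
      have a2 := hS.d2 k
      have b1 := hS'.d1 k
      have b2 := hS'.d2 k
      rw [hup D k hk] at a1 a2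
      rw [hup D' k hk] at b1 b2
      rcases w11_pr_ne hk with hne | hne
      · have hc := w11_cop ho (w11_pr_le k0).1 (w11_pr_le k).1 hne a1
        have h3 := dvd_sub a1 b1
        have h4 : (((pr k0).1 + D * Y : ℕ) : ℤ) - ((pr k).1 : ℤ) -
            ((((pr k0).1 + D' * Y : ℕ) : ℤ) - ((pr k).1 : ℤ)) = ((D : ℤ) - D') * Y := by
          push_cast; ring
        rw [h4] at h3
        exact hc.dvd_of_dvd_mul_right h3
      · have hc := w11_cop ho (w11_pr_le k0).2 (w11_pr_le k).2 hne a2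
        have h3 := dvd_sub a2 b2
        have h4 : (((pr k0).2 + D * Z : ℕ) : ℤ) - ((pr k).2 : ℤ) -
            ((((pr k0).2 + D' * Z : ℕ) : ℤ) - ((pr k).2 : ℤ)) = ((D : ℤ) - D') * Z := by
          push_cast; ring
        rw [h4] at h3
        exact hc.dvd_of_dvd_mul_right h3

theorem w11_DS_odd {N : ℕ} {k0 : Fin 6} {R w0 : ℝ} {Pf : ℕ → ℕ → ℕ → Prop} {Y Z : ℕ}
    {M' : Fin 6 → ℕ} (h1 : M' k0 = 1) {D : ℕ} (hD : D ∈ DS N k0 R w0 Pf Y Z M') :
    Odd (∏ k, M' k) := by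
  unfold DS at hD
  rw [mem_filter] at hD
  obtain ⟨-, -, -, hS, -, -⟩ := hD
  refine Finset.prod_induction M' Odd (fun a b ha hb => ha.mul hb) odd_one (fun k _ => ?_)
  by_cases hk : k = k0
  · subst hk
    rw [h1]
    exact odd_one
  · have := hS.odd k
    rwa [Function.update_of_ne hk] at this

theorem w11_DS_bound {N : ℕ} {k0 : Fin 6} {R w0 : ℝ} (hw0 : 0 < w0) {Pf : ℕ → ℕ → ℕ → Prop}
    {Y Z : ℕ} (hY : 0 < Y) (hZ : 0 < Z) {M' : Fin 6 → ℕ} (h1 : M' k0 = 1) {D : ℕ}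
    (hD : D ∈ DS N k0 R w0 Pf Y Z M') :
    (N : ℝ) / ((Y + Z : ℕ) : ℝ) / ((∏ k, M' k : ℕ) : ℝ) ≤
      (N : ℝ) ^ 2 / (w0 * ((Y + Z : ℕ) : ℝ) ^ 2) := by
  have ho := w11_DS_odd h1 hD
  have hm : 0 < ∏ k, M' k := ho.pos
  have hmr : (0 : ℝ) < ((∏ k, M' k : ℕ) : ℝ) := by exact_mod_cast hm
  unfold DS at hD
  rw [mem_filter] at hD
  obtain ⟨-, -, hDN, -, hw, -⟩ := hD
  have hc : (0 : ℝ) < ((Y + Z : ℕ) : ℝ) := by
    have : 0 < Y + Z := by omega
    exact_mod_cast this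
  have hDN' : (D : ℝ) * ((Y + Z : ℕ) : ℝ) ≤ N := by exact_mod_cast hDN
  have hw' : w0 ≤ (D : ℝ) * ((∏ k, M' k : ℕ) : ℝ) := by
    refine le_trans hw (le_of_eq ?_)
    push_cast
    ring
  generalize ((∏ k, M' k : ℕ) : ℝ) = m at *
  generalize ((Y + Z : ℕ) : ℝ) = c at *
  have hN0 : (0 : ℝ) ≤ N := Nat.cast_nonneg _
  rw [div_div, div_le_div_iff₀ (by positivity) (by positivity)]
  -- N * (w0 c^2) ≤ N^2 (c m)
  have h2 : w0 * c ≤ N * m := by
    calc w0 * c ≤ (D * m) * c := mul_le_mul_of_nonneg_right hw' hc.le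
      _ = (D * c) * m := by ring
      _ ≤ N * m := mul_le_mul_of_nonneg_right hDN' hmr.le
  calc (N : ℝ) * (w0 * c ^ 2) = (N * c) * (w0 * c) := by ring
    _ ≤ (N * c) * (N * m) := mul_le_mul_of_nonneg_left h2 (by positivity)
    _ = (N : ℝ) ^ 2 * (c * m) := by ring

/-- [WD-11] PROOF. If the set is empty clear. Otherwise some `D` gives `w0 ≤ D m`, `m = ∏ M'`, `D c ≤ N` (`c = Y + Z`), so `m ≥ w0 c/N`. `card_class` with `L = N/c`: `≤ N/(c m) + 1 ≤ N²/(w0 c²) + 1`. -/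
theorem DS_card_i {N : ℕ} {k0 : Fin 6} {R w0 : ℝ} (hw0 : 0 < w0) {Pf : ℕ → ℕ → ℕ → Prop} {Y Z : ℕ}
    (hY : 0 < Y) (hZ : 0 < Z) {M' : Fin 6 → ℕ} (h1 : M' k0 = 1) :
    ((DS N k0 R w0 Pf Y Z M').card : ℝ) ≤ (N : ℝ) ^ 2 / (w0 * ((Y + Z : ℕ) : ℝ) ^ 2) + 1 := by
  have hc : (0 : ℝ) < ((Y + Z : ℕ) : ℝ) := by
    have : 0 < Y + Z := by omega
    exact_mod_cast this
  rcases (DS N k0 R w0 Pf Y Z M').eq_empty_or_nonempty with he | ⟨D, hD⟩
  · rw [he, card_empty, Nat.cast_zero]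
    positivity
  · have ho := w11_DS_odd h1 hD
    have h2 := card_class (S := DS N k0 R w0 Pf Y Z M') (m := ∏ k, M' k) ho.pos
      (L := (N : ℝ) / ((Y + Z : ℕ) : ℝ)) (by positivity) ?_ ?_
    · refine le_trans h2 ?_
      have h3 := w11_DS_bound hw0 hY hZ h1 hD
      linarith
    · intro u hu
      unfold DS at hu
      rw [mem_filter] at hu
      obtain ⟨-, -, hDN, -, -, -⟩ := hu
      rw [le_div_iff₀ hc]
      exact_mod_cast hDN
    · intro u hu v hv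
      exact DS_class h1 hu hv

/-- the additional condition in the second count -/
def Pii (w1 : ℝ) (j : ℕ) (k0 : Fin 6) (x y W : ℕ) : Prop :=
  (W : ℝ) ≤ w1 ∧ dj x y ∧ ¬ 4 ^ j ∣ x - (pr k0).1 ∧ ¬ 4 ^ j ∣ y - (pr k0).2 ∧
    ¬ 4 ^ j ∣ (x - (pr k0).1) + (y - (pr k0).2)

theorem w11_digits_card {Y Z m j : ℕ} (hY : 0 < Y) (hZ : 0 < Z) (hm : Odd m) (h1 : ¬ 4 ^ j ∣ Y)
    (h2 : ¬ 4 ^ j ∣ Z) (h3 : ¬ 4 ^ j ∣ Y + Z) (A A' V : ℕ) :
    ((range (V + 1)).filter (fun v => dj (A + m * Y * v) (A' + m * Z * v))).card ≤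
      (V / 16 ^ j + 1) * 12 ^ j := by
  classical
  have h16 : 0 < 16 ^ j := by positivity
  set T := (range (V + 1)).filter (fun v => dj (A + m * Y * v) (A' + m * Z * v)) with hT
  have hmap : ∀ v ∈ T, v / 16 ^ j ∈ range (V / 16 ^ j + 1) := by
    intro v hv
    rw [hT, mem_filter, mem_range] at hv
    rw [mem_range]
    have : v / 16 ^ j ≤ V / 16 ^ j := Nat.div_le_div_right (by omega)
    omega
  rw [card_eq_sum_card_fiberwise hmap]
  have hfib : ∀ u ∈ range (V / 16 ^ j + 1), (T.filter (fun v => v / 16 ^ j = u)).card ≤ 12 ^ j := by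
    intro u _
    refine le_trans ?_ (digits hY hZ hm h1 h2 h3 (A + m * Y * (16 ^ j * u)) (A' + m * Z * (16 ^ j * u)))
    refine card_le_card_of_injOn (fun v => v % 16 ^ j) ?_ ?_
    · intro v hv
      simp only [hT, coe_filter, mem_filter, mem_range, Set.mem_ofPred_eq] at hv ⊢
      obtain ⟨⟨hv1, hv2⟩, hv3⟩ := hv
      refine ⟨Nat.mod_lt _ h16, ?_⟩
      have e := Nat.div_add_mod v (16 ^ j)
      rw [hv3] at e
      have e1 : A + m * Y * (16 ^ j * u) + m * Y * (v % 16 ^ j) = A + m * Y * v := by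
        rw [add_assoc, ← mul_add, e]
      have e2 : A' + m * Z * (16 ^ j * u) + m * Z * (v % 16 ^ j) = A' + m * Z * v := by
        rw [add_assoc, ← mul_add, e]
      rw [e1, e2]
      exact hv2
    · intro v hv v' hv' hvv
      simp only [hT, coe_filter, mem_filter, mem_range, Set.mem_ofPred_eq] at hv hv'
      simp only at hvv
      have e := Nat.div_add_mod v (16 ^ j)
      have e' := Nat.div_add_mod v' (16 ^ j)
      rw [hv.2, hvv] at e
      rw [hv'.2] at e'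
      omega
  refine le_trans (sum_le_sum hfib) ?_
  rw [sum_const, card_range, smul_eq_mul]

/-- [WD-11] PROOF. If the set is empty clear. `m = ∏ M'` is odd (`Str.odd` for some element), `c = Y + Z`. By `Pii`, `4^j ∤ D Y`, so `4^j ∤ Y`, similarly `Z`, `Y + Z`. All `D` are `≡ D₀` modulo `m` (`DS_class`), `D₀` the least element; `D = D₀ + m v` with `v ≤ V = N/(c m)`, and `dj (a + D Y) (b + D Z)` is
`dj ((a + D₀ Y) + m Y v) ((b + D₀ Z) + m Z v)`. Split `v = 16^j u + v'`, `v' < 16^j`, `u ≤ V/16^j`: for each `u` at most `12^j` values of `v'` (`digits` with `A = a + D₀ Y + m Y 16^j u`); so the number is at most `(V/16^j + 1) 12^j ≤ 2 V (3/4)^j`, since `V ≥ 16^j`: `D > R`, `D m ≤ w1` give `m ≤ w1/R`, `c ≤ N/R`, so `V ≥ R²/w1 ≥ 16^j`.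
And `V ≤ N²/(w0 c²)` as `w0 ≤ D m ≤ N m/c`. -/
theorem DS_card_ii {N j : ℕ} {k0 : Fin 6} {R w0 w1 : ℝ} (hR : 1 ≤ R) (hw0 : 0 < w0)
    (hw1 : 0 < w1) (hj : (16 : ℝ) ^ j * w1 ≤ R ^ 2) {Y Z : ℕ} (hY : 0 < Y) (hZ : 0 < Z)
    (hYZ : ((Y + Z : ℕ) : ℝ) * R ≤ N) {M' : Fin 6 → ℕ} (h1 : M' k0 = 1) :
    ((DS N k0 R w0 (Pii w1 j k0) Y Z M').card : ℝ) ≤
      2 * ((N : ℝ) ^ 2 / (w0 * ((Y + Z : ℕ) : ℝ) ^ 2)) * (3 / 4) ^ j := by
  classical
  have hc : (0 : ℝ) < ((Y + Z : ℕ) : ℝ) := by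
    have : 0 < Y + Z := by omega
    exact_mod_cast this
  rcases (DS N k0 R w0 (Pii w1 j k0) Y Z M').eq_empty_or_nonempty with he | hne
  · rw [he, card_empty, Nat.cast_zero]
    positivity
  set S := DS N k0 R w0 (Pii w1 j k0) Y Z M' with hS
  set D0 := S.min' hne with hD0
  have hD0S : D0 ∈ S := S.min'_mem hne
  have ho : Odd (∏ k, M' k) := w11_DS_odd h1 hD0S
  set m := ∏ k, M' k with hmdef
  have hm : 0 < m := ho.pos
  have hmr : (0 : ℝ) < (m : ℝ) := by exact_mod_cast hm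
  have hbound := w11_DS_bound hw0 hY hZ h1 hD0S
  rw [← hmdef] at hbound
  have hmem : ∀ D, D ∈ S → R < D ∧ D * (Y + Z) ≤ N ∧
      Pii w1 j k0 ((pr k0).1 + D * Y) ((pr k0).2 + D * Z) (D * m) := by
    intro D hD
    rw [hS] at hD
    unfold DS at hD
    rw [mem_filter] at hD
    exact ⟨hD.2.1, hD.2.2.1, hD.2.2.2.2.2⟩
  obtain ⟨hRD, hDN, hP1, -, hP3, hP4, hP5⟩ := hmem D0 hD0S
  have g1 : ¬ 4 ^ j ∣ Y := by
    intro hd
    apply hP3
    rw [Nat.add_sub_cancel_left]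
    exact Dvd.dvd.mul_left hd _
  have g2 : ¬ 4 ^ j ∣ Z := by
    intro hd
    apply hP4
    rw [Nat.add_sub_cancel_left]
    exact Dvd.dvd.mul_left hd _
  have g3 : ¬ 4 ^ j ∣ Y + Z := by
    intro hd
    apply hP5
    rw [Nat.add_sub_cancel_left, Nat.add_sub_cancel_left, ← mul_add]
    exact Dvd.dvd.mul_left hd _
  set Vr : ℝ := (N : ℝ) / ((Y + Z : ℕ) : ℝ) / (m : ℝ) with hVr
  have hVr0 : 0 ≤ Vr := by positivity
  -- count
  have hcount : S.card ≤ (⌊Vr⌋₊ / 16 ^ j + 1) * 12 ^ j := by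
    refine le_trans ?_ (w11_digits_card hY hZ ho g1 g2 g3 ((pr k0).1 + D0 * Y) ((pr k0).2 + D0 * Z) ⌊Vr⌋₊)
    have hrep : ∀ D ∈ S, D = D0 + m * ((D - D0) / m) := by
      intro D hD
      have h2 : D0 ≤ D := S.min'_le D hD
      have h3 := DS_class h1 hD hD0S
      rw [← hmdef] at h3
      have h4 : (m : ℤ) ∣ ((D - D0 : ℕ) : ℤ) := by
        rw [Nat.cast_sub h2]
        exact h3
      have h5 : m ∣ D - D0 := Int.natCast_dvd_natCast.1 h4
      rw [Nat.mul_div_cancel' h5]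
      omega
    refine card_le_card_of_injOn (fun D => (D - D0) / m) ?_ ?_
    · intro D hD
      have hD' : D ∈ S := hD
      obtain ⟨-, hDN', -, hdj, -⟩ := hmem D hD'
      simp only [coe_filter, mem_range, Set.mem_ofPred_eq]
      have hr := hrep D hD'
      refine ⟨?_, ?_⟩
      · rw [Nat.lt_succ_iff]
        refine Nat.le_floor ?_
        rw [hVr, le_div_iff₀ hmr, le_div_iff₀ hc]
        have h6 : (D - D0) / m * m * (Y + Z) ≤ N := by
          refine le_trans (Nat.mul_le_mul_right _ ?_) hDN'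
          exact le_trans (Nat.div_mul_le_self _ _) (Nat.sub_le _ _)
        exact_mod_cast h6
      · have e1 : (pr k0).1 + D0 * Y + m * Y * ((D - D0) / m) = (pr k0).1 + D * Y := by
          conv_rhs => rw [hr]
          ring
        have e2 : (pr k0).2 + D0 * Z + m * Z * ((D - D0) / m) = (pr k0).2 + D * Z := by
          conv_rhs => rw [hr]
          ring
        rw [e1, e2]
        exact hdj
    · intro D hD D' hD' hDD
      simp only at hDD
      rw [hrep D hD, hrep D' hD', hDD]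
  have h16 : (0 : ℝ) < 16 ^ j := by positivity
  have hV16 : (16 : ℝ) ^ j ≤ Vr := by
    have hmR : (m : ℝ) * R ≤ w1 := by
      have h7 : ((D0 * m : ℕ) : ℝ) ≤ w1 := hP1
      push_cast at h7
      have h8 : (m : ℝ) * R ≤ D0 * m := by
        rw [mul_comm (D0 : ℝ)]
        exact mul_le_mul_of_nonneg_left hRD.le hmr.le
      linarith
    rw [hVr, le_div_iff₀ hmr, le_div_iff₀ hc]
    have hR0 : 0 < R := by linarith
    have h9 : (16 : ℝ) ^ j * m ≤ R := by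
      have h10 : (16 : ℝ) ^ j * m * R ≤ R * R := by
        calc (16 : ℝ) ^ j * m * R = (16 : ℝ) ^ j * (m * R) := by ring
          _ ≤ (16 : ℝ) ^ j * w1 := mul_le_mul_of_nonneg_left hmR h16.le
          _ ≤ R ^ 2 := hj
          _ = R * R := by ring
      exact le_of_mul_le_mul_right h10 hR0
    calc (16 : ℝ) ^ j * m * ((Y + Z : ℕ) : ℝ) ≤ R * ((Y + Z : ℕ) : ℝ) :=
          mul_le_mul_of_nonneg_right h9 hc.le
      _ = ((Y + Z : ℕ) : ℝ) * R := by ring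
      _ ≤ N := hYZ
  have h34 : (12 : ℝ) ^ j = 16 ^ j * (3 / 4) ^ j := by
    rw [← mul_pow]
    norm_num
  calc (S.card : ℝ) ≤ (((⌊Vr⌋₊ / 16 ^ j + 1) * 12 ^ j : ℕ) : ℝ) := by exact_mod_cast hcount
    _ = (((⌊Vr⌋₊ / 16 ^ j : ℕ) : ℝ) + 1) * 12 ^ j := by push_cast; ring
    _ ≤ (Vr / 16 ^ j + 1) * 12 ^ j := by
        have h11 : ((⌊Vr⌋₊ / 16 ^ j : ℕ) : ℝ) ≤ Vr / 16 ^ j := by
          refine le_trans Nat.cast_div_le ?_
          push_cast
          exact div_le_div_of_nonneg_right (Nat.floor_le hVr0) h16.le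
        have h12 : (0 : ℝ) ≤ 12 ^ j := by positivity
        exact mul_le_mul_of_nonneg_right (by linarith) h12
    _ ≤ (2 * (Vr / 16 ^ j)) * 12 ^ j := by
        have h13 : 1 ≤ Vr / 16 ^ j := by rwa [le_div_iff₀ h16, one_mul]
        have h12 : (0 : ℝ) ≤ 12 ^ j := by positivity
        exact mul_le_mul_of_nonneg_right (by linarith) h12
    _ = 2 * Vr * (3 / 4) ^ j := by
        rw [h34]
        field_simp
    _ ≤ _ := by
        have h14 : (0 : ℝ) ≤ (3 / 4) ^ j := by positivity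
        exact mul_le_mul_of_nonneg_right (by linarith) h14

end WD
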