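import Pool.Agent.WD.W2

set_option autoImplicit false

open Finset
open scoped Classical

namespace WD

/-- the type of a pair with sum at most two -/
def w3_ty (a b : ℕ) : Fin 6 :=
  if a = 0 ∧ b = 0 then 0 else if a = 1 ∧ b = 0 then 1 else if a = 0 ∧ b = 1 then 2
  else if a = 2 ∧ b = 0 then 3 else if a = 0 ∧ b = 2 then 4 else 5

theorem w3_pr_ty {a b : ℕ} (h : a + b ≤ 2) : pr (w3_ty a b) = (a, b) := by
  have ha : a ≤ 2 := by omega
  have hb : b ≤ 2 := by omega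
  interval_cases a <;> interval_cases b <;> first | omega | (simp [w3_ty, pr])

/-- the prime power -/
def w3_m (x y z q : ℕ) : ℕ := q ^ (ff (x + y + z)).factorization q

/-- the type of a prime -/
def w3_t (x y z q : ℕ) : Fin 6 := w3_ty (x % w3_m x y z q) (y % w3_m x y z q)

theorem w3_mem {x y z q : ℕ} (hq : q ∈ QQ x y z) :
    q.Prime ∧ q ≠ 2 ∧ Cov q x y z ∧ q ∣ ff (x + y + z) := by
  have h := Finset.mem_filter.mp hq
  exact ⟨Nat.prime_of_mem_primeFactors h.1, h.2.1, h.2.2, Nat.dvd_of_mem_primeFactors h.1⟩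

theorem w3_sum {x y z q : ℕ} (hn : 3 ≤ x + y + z) (hq : q ∈ QQ x y z) :
    x % w3_m x y z q + y % w3_m x y z q + z % w3_m x y z q ≤ 2 := by
  obtain ⟨hp, h2, hc, hd⟩ := w3_mem hq
  have h1 := (mod_le hn hp h2 hd).1
  have h3 := hc ((ff (x + y + z)).factorization q)
  unfold w3_m
  omega

theorem w3_cop {x y z p q : ℕ} (hp : p ∈ QQ x y z) (hq : q ∈ QQ x y z) (h : p ≠ q) :
    Nat.Coprime (w3_m x y z p) (w3_m x y z q) := by
  have hc : Nat.Coprime p q := (Nat.coprime_primes (w3_mem hp).1 (w3_mem hq).1).mpr h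
  exact hc.pow _ _

theorem w3_odd {x y z q : ℕ} (hq : q ∈ QQ x y z) : Odd (w3_m x y z q) := by
  obtain ⟨hp, h2, -, -⟩ := w3_mem hq
  exact (hp.odd_of_ne_two h2).pow

/-- the part of type `k` -/
noncomputable def w3_M (x y z : ℕ) (k : Fin 6) : ℕ :=
  ∏ q ∈ (QQ x y z).filter (fun q => w3_t x y z q = k), w3_m x y z q

theorem w3_prod (x y z : ℕ) : ∏ k, w3_M x y z k = WW x y z := by
  unfold w3_M WW
  rw [Finset.prod_fiberwise (QQ x y z) (w3_t x y z) (w3_m x y z)]
  rfl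

theorem w3_dvd_nat {x y z w : ℕ} (h : ∀ q ∈ QQ x y z, w3_m x y z q ∣ w) :
    WW x y z ∣ w := by
  unfold WW
  refine Finset.prod_dvd_of_isRelPrime ?_ h
  intro a ha b hb hab
  exact Nat.coprime_iff_isRelPrime.mp (w3_cop ha hb hab)

theorem w3_dvd_int {x y z : ℕ} {k : Fin 6} {w : ℤ}
    (h : ∀ q ∈ QQ x y z, w3_t x y z q = k → (w3_m x y z q : ℤ) ∣ w) :
    (w3_M x y z k : ℤ) ∣ w := by
  unfold w3_M
  rw [Nat.cast_prod]
  refine Finset.prod_dvd_of_coprime ?_ ?_
  · intro a ha b hb hab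
    have ha' := (Finset.mem_filter.mp (Finset.mem_coe.mp ha)).1
    have hb' := (Finset.mem_filter.mp (Finset.mem_coe.mp hb)).1
    exact Nat.isCoprime_iff_coprime.mpr (w3_cop ha' hb' hab)
  · intro q hq
    have hq' := Finset.mem_filter.mp hq
    exact h q hq'.1 hq'.2

theorem w3_pr {x y z q : ℕ} (hn : 3 ≤ x + y + z) (hq : q ∈ QQ x y z) :
    pr (w3_t x y z q) = (x % w3_m x y z q, y % w3_m x y z q) := by
  unfold w3_t
  refine w3_pr_ty ?_
  have := w3_sum hn hq
  omega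

theorem w3_sub_mod (a m : ℕ) : (m : ℤ) ∣ (a : ℤ) - ((a % m : ℕ) : ℤ) := by
  have h : ((a % m : ℕ) : ℤ) = (a : ℤ) % (m : ℤ) := by push_cast; rfl
  rw [h]
  exact Int.dvd_self_sub_emod

/-- [WD-3] the moduli of the six types.
PROOF. For `q ∈ QQ x y z` let `m q = q ^ v_q(ff n)`, `n = x+y+z`. By `mod_le` and `Cov` (with `i = v_q`): `x % m q + y % m q + z % m q = n % m q ≤ 2`, so `(x % m q, y % m q)` is `pr k` for exactly one `k` (check the six pairs with sum `≤ 2`).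
`M k = ∏ q ∈ (QQ x y z).filter (fun q => (x % m q, y % m q) = pr k), m q`. Odd: all `q` are odd primes (`Odd.pow`, `Finset.prod_induction`). Coprime: powers of different primes (`Nat.Coprime.prod_left`, `Nat.Coprime.prod_right`, `Nat.coprime_pow_primes`).
`M k ∣ x - (pr k).1` in `ℤ`: each `m q ∣ x - x % m q`, pairwise coprime (`Finset.prod_dvd_of_coprime`, or `Finset.prod_dvd_of_isRelPrime`). `∏ k, M k = WW`: `Finset.prod_fiberwise_of_maps_to` (or `Finset.prod_comp`-like lemmas). `WW ∣ ff z`: each `m q ∣ ff z` by `dvd_ff` (`z % m q ≤ 2`), pairwise coprime. `WW ∣ ff n`: similarly (`n % m q ≤ 2`).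
Last claim: `P ∈ QQ`; let `k` be the type of `m P` (`(x % m P, y % m P) = pr k`); as `P ∣ m P` and `x % m P ≤ 2 < P`, `x % P = (x % m P) % P = x % m P`; `P ∣ m P ∣ M k` (`Finset.dvd_prod_of_mem`). -/
theorem exists_str {x y z : ℕ} (hn : 3 ≤ x + y + z) :
    ∃ M : Fin 6 → ℕ, Str x y M ∧ ∏ k, M k = WW x y z ∧ WW x y z ∣ ff z ∧
      WW x y z ∣ ff (x + y + z) ∧
      ∀ P : ℕ, P.Prime → P ≠ 2 → Cov P x y z → P ∣ ff (x + y + z) →
        ∃ k, (pr k).1 = x % P ∧ (pr k).2 = y % P ∧ P ∣ M k := by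
  refine ⟨w3_M x y z, ⟨?_, ?_, ?_, ?_⟩, w3_prod x y z, ?_, ?_, ?_⟩
  · intro k
    unfold w3_M
    refine Finset.prod_induction _ (fun a : ℕ => Odd a) (fun a b ha hb => ha.mul hb) odd_one ?_
    intro q hq
    exact w3_odd (Finset.mem_filter.mp hq).1
  · intro k l hkl
    unfold w3_M
    refine Nat.Coprime.prod_left (fun p hp => Nat.Coprime.prod_right (fun q hq => ?_))
    have hp' := Finset.mem_filter.mp hp
    have hq' := Finset.mem_filter.mp hq
    refine w3_cop hp'.1 hq'.1 (fun e => hkl ?_)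
    rw [← hp'.2, ← hq'.2, e]
  · intro k
    refine w3_dvd_int (fun q hq hk => ?_)
    have h1 := w3_pr hn hq
    rw [hk] at h1
    rw [h1]
    exact w3_sub_mod _ _
  · intro k
    refine w3_dvd_int (fun q hq hk => ?_)
    have h1 := w3_pr hn hq
    rw [hk] at h1
    rw [h1]
    exact w3_sub_mod _ _
  · refine w3_dvd_nat (fun q hq => dvd_ff ?_)
    have := w3_sum hn hq
    omega
  · refine w3_dvd_nat (fun q hq => dvd_ff ?_)
    obtain ⟨hp, h2, hc, hd⟩ := w3_mem hq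
    exact (mod_le hn hp h2 hd).1
  · intro P hP hP2 hc hd
    have hn0 : ff (x + y + z) ≠ 0 := (ff_pos hn).ne'
    have hmem : P ∈ QQ x y z :=
      Finset.mem_filter.mpr ⟨Nat.mem_primeFactors.mpr ⟨hP, hd, hn0⟩, hP2, hc⟩
    have hP3 : 3 ≤ P := by
      have := hP.two_le
      omega
    have hs := w3_sum hn hmem
    have hv : (ff (x + y + z)).factorization P ≠ 0 :=
      (hP.factorization_pos_of_dvd hn0 hd).ne'
    have hPm : P ∣ w3_m x y z P := dvd_pow_self P hv
    have hpr := w3_pr hn hmem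
    refine ⟨w3_t x y z P, ?_, ?_, ?_⟩
    · rw [hpr]
      show x % w3_m x y z P = x % P
      rw [← Nat.mod_mod_of_dvd x hPm]
      exact (Nat.mod_eq_of_lt (by omega)).symm
    · rw [hpr]
      show y % w3_m x y z P = y % P
      rw [← Nat.mod_mod_of_dvd y hPm]
      exact (Nat.mod_eq_of_lt (by omega)).symm
    · refine hPm.trans ?_
      unfold w3_M
      exact Finset.dvd_prod_of_mem (w3_m x y z) (Finset.mem_filter.mpr ⟨hmem, rfl⟩)

end WD
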