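import Pool.Agent.WD.W4

set_option autoImplicit false

open Finset
open scoped Classical

namespace WD

theorem w5_eq {P P' u v : ℕ} (hcop : Nat.Coprime P P') (h : u % P = v % P)
    (h' : u % P' = v % P') (hu : u < P * P') (hv : v < P * P') : u = v :=
  Nat.ModEq.eq_of_lt_of_lt ((Nat.modEq_and_modEq_iff_modEq_mul hcop).1 ⟨h, h'⟩) hu hv

theorem w5_pred {n P r : ℕ} (hP : 0 < P) (h : n % P = r + 1) : (n - 1) % P = r := by
  have h1 := Nat.div_add_mod n P
  have h2 : r + 1 < P := by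
    rw [← h]; exact Nat.mod_lt _ hP
  have h3 : n - 1 = P * (n / P) + r := by omega
  rw [h3, Nat.mul_add_mod]
  exact Nat.mod_eq_of_lt (by omega)

theorem w5_zero {n w P P' : ℕ} (hw : 0 < w) (hwn : w ≤ n) (hcop : Nat.Coprime P P')
    (hPP : n < P * P') (h : w % P = 0) (h' : w % P' = 0) : False := by
  have := w5_eq (u := w) (v := 0) hcop (by simpa using h) (by simpa using h') (by omega) (by omega)
  omega

theorem w5_12 {n x y z P P' : ℕ} (hx : 0 < x) (hy : 0 < y) (hz : 0 < z)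
    (hn : x + y + z = n) (hcop : Nat.Coprime P P') (h3 : 0 < P) (h3' : 0 < P')
    (hi : n % P = 1) (hj : n % P' = 2) (hPP : n < P * P')
    (hy0 : y % P = 0) (hz0 : z % P = 0) (hs : x % P' + y % P' + z % P' = 2) : False := by
  have hy' : y % P' ≠ 0 := fun h => w5_zero hy (by omega) hcop hPP hy0 h
  have hz' : z % P' ≠ 0 := fun h => w5_zero hz (by omega) hcop hPP hz0 h
  have e1 : y % P' = 1 := by omega
  have e2 : z % P' = 1 := by omega
  have e3 : y = z := w5_eq hcop (by omega) (by omega) (by omega) (by omega)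
  have e4 : (n - 1) % P = 0 := w5_pred h3 hi
  have e5 : (n - 1) % P' = 1 := w5_pred h3' hj
  have e6 : y = n - 1 := w5_eq hcop (by omega) (by omega) (by omega) (by omega)
  omega

/-- [WD-5] two large primes dividing different numbers among `n, n-1, n-2` are not covered by the same triple. -/
theorem not_both {n x y z P P' i j : ℕ} (hx : 0 < x) (hy : 0 < y) (hz : 0 < z)
    (hn : x + y + z = n) (hP : P.Prime) (hP' : P'.Prime) (h3 : 3 ≤ P) (h3' : 3 ≤ P')
    (hi : n % P = i) (hj : n % P' = j) (hij : i < j) (hj2 : j ≤ 2) (hPP : n < P * P')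
    (hc : Cov P x y z) (hc' : Cov P' x y z) : False := by
  have hne : P ≠ P' := by
    intro h
    rw [h] at hi
    omega
  have hcop : Nat.Coprime P P' := (Nat.coprime_primes hP hP').2 hne
  have s := hc 1
  have s' := hc' 1
  rw [pow_one, hn, hi] at s
  rw [pow_one, hn, hj] at s'
  have hi01 : i = 0 ∨ (i = 1 ∧ j = 2) := by omega
  rcases hi01 with h | ⟨h, hj'⟩
  · subst h
    have a1 : x % P' = 0 ∨ y % P' = 0 ∨ z % P' = 0 := by omega
    rcases a1 with a | a | a
    · exact w5_zero hx (by omega) hcop hPP (by omega) a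
    · exact w5_zero hy (by omega) hcop hPP (by omega) a
    · exact w5_zero hz (by omega) hcop hPP (by omega) a
  · rw [h] at hi s
    rw [hj'] at hj s'
    have a1 : (y % P = 0 ∧ z % P = 0) ∨ (x % P = 0 ∧ z % P = 0) ∨ (x % P = 0 ∧ y % P = 0) := by
      omega
    rcases a1 with ⟨a, b⟩ | ⟨a, b⟩ | ⟨a, b⟩
    · exact w5_12 hx hy hz hn hcop (by omega) (by omega) hi hj hPP a b s'
    · exact w5_12 (x := y) (y := x) (z := z) hy hx hz (by omega) hcop (by omega) (by omega) hi hj
        hPP a b (by omega)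
    · exact w5_12 (x := z) (y := x) (z := y) hz hx hy (by omega) hcop (by omega) (by omega) hi hj
        hPP a b (by omega)

theorem w5_nd0 {x y : ℕ} (hx : 0 < x) (hy : 0 < y) (h : x ≠ y) : ND x y 0 := by
  refine ⟨by simpa [pr] using hx, by simpa [pr] using hy, fun k hk => ?_⟩
  fin_cases k <;> simp [pr] at hk ⊢ <;> omega

theorem w5_nd1 {x y : ℕ} (hx : 1 < x) (hy : 0 < y) : ND x y 1 := by
  refine ⟨by simpa [pr] using hx, by simpa [pr] using hy, fun k hk => ?_⟩
  fin_cases k <;> simp [pr] at hk ⊢ <;> omega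

theorem w5_nd2 {x y : ℕ} (hx : 0 < x) (hy : 1 < y) : ND x y 2 := by
  refine ⟨by simpa [pr] using hx, by simpa [pr] using hy, fun k hk => ?_⟩
  fin_cases k <;> simp [pr] at hk ⊢ <;> omega

theorem w5_nd3 {x y : ℕ} (hx : 2 < x) (hy : 0 < y) : ND x y 3 := by
  refine ⟨by simpa [pr] using hx, by simpa [pr] using hy, fun k hk => ?_⟩
  fin_cases k <;> simp [pr] at hk ⊢ <;> omega

theorem w5_nd4 {x y : ℕ} (hx : 0 < x) (hy : 2 < y) : ND x y 4 := by
  refine ⟨by simpa [pr] using hx, by simpa [pr] using hy, fun k hk => ?_⟩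
  fin_cases k <;> simp [pr] at hk ⊢ <;> omega

theorem w5_WW {x y z w : ℕ} (hn : 3 ≤ x + y + z) (hw : 0 < w) (hwn : w ≤ x + y + z)
    (h : ∀ m, 3 ≤ m → x % m + y % m + z % m ≤ 2 → w % m = 0) : WW x y z ≤ x + y + z := by
  refine (Nat.le_of_dvd hw (WW_dvd fun q hq => ?_)).trans hwn
  unfold QQ at hq
  rw [Finset.mem_filter, Nat.mem_primeFactors] at hq
  obtain ⟨⟨hqp, hqd, _⟩, hq2, hcov⟩ := hq
  obtain ⟨h1, h2⟩ := mod_le hn hqp hq2 hqd
  have h3 := hcov ((ff (x + y + z)).factorization q)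
  exact Nat.dvd_of_mod_eq_zero (h _ h2 (by omega))

theorem w5_mod1 {m : ℕ} (hm : 3 ≤ m) : 1 % m = 1 := Nat.mod_eq_of_lt (by omega)

theorem w5_mod2 {m : ℕ} (hm : 3 ≤ m) : 2 % m = 2 := Nat.mod_eq_of_lt (by omega)

/-- [WD-5] the choice of a nondegenerate pair. -/
theorem choose_pair {x y z P : ℕ} (hx : 0 < x) (hy : 0 < y) (hz : 0 < z) (hP : P.Prime)
    (h2 : P ≠ 2) (hc : Cov P x y z) (hd : P ∣ ff (x + y + z)) :
    (∃ k, (pr k).1 = x % P ∧ (pr k).2 = y % P ∧ ND x y k) ∨
    (∃ k, (pr k).1 = x % P ∧ (pr k).2 = z % P ∧ ND x z k) ∨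
    (∃ k, (pr k).1 = y % P ∧ (pr k).2 = z % P ∧ ND y z k) ∨
    ((x = y ∨ x = z ∨ y = z) ∧ WW x y z ≤ x + y + z) := by
  have hn : 3 ≤ x + y + z := by omega
  have hm := mod_le' hn hP h2 hd
  have s := hc 1
  rw [pow_one] at s
  have hp0 : pr 0 = (0, 0) := rfl
  have hp1 : pr 1 = (1, 0) := rfl
  have hp2 : pr 2 = (0, 1) := rfl
  have hp3 : pr 3 = (2, 0) := rfl
  have hp4 : pr 4 = (0, 2) := rfl
  have c : (x % P = 0 ∧ y % P = 0 ∧ z % P = 0) ∨
      (x % P = 1 ∧ y % P = 0 ∧ z % P = 0) ∨ (x % P = 0 ∧ y % P = 1 ∧ z % P = 0) ∨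
      (x % P = 0 ∧ y % P = 0 ∧ z % P = 1) ∨
      (x % P = 2 ∧ y % P = 0 ∧ z % P = 0) ∨ (x % P = 0 ∧ y % P = 2 ∧ z % P = 0) ∨
      (x % P = 0 ∧ y % P = 0 ∧ z % P = 2) ∨
      (x % P = 1 ∧ y % P = 1 ∧ z % P = 0) ∨ (x % P = 1 ∧ y % P = 0 ∧ z % P = 1) ∨
      (x % P = 0 ∧ y % P = 1 ∧ z % P = 1) := by omega
  have lx : x % P ≤ x := Nat.mod_le _ _
  have ly : y % P ≤ y := Nat.mod_le _ _
  have lz : z % P ≤ z := Nat.mod_le _ _
  rcases c with ⟨a, b, d⟩ | ⟨a, b, d⟩ | ⟨a, b, d⟩ | ⟨a, b, d⟩ | ⟨a, b, d⟩ | ⟨a, b, d⟩ |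
    ⟨a, b, d⟩ | ⟨a, b, d⟩ | ⟨a, b, d⟩ | ⟨a, b, d⟩
  · -- (0,0,0)
    by_cases hxy : x = y
    · by_cases hyz : y = z
      · right; right; right
        refine ⟨Or.inl hxy, w5_WW hn hx (by omega) fun m hm3 hs => ?_⟩
        subst hxy; subst hyz
        omega
      · right; right; left
        exact ⟨0, by rw [hp0, b], by rw [hp0, d], w5_nd0 hy hz hyz⟩
    · left
      exact ⟨0, by rw [hp0, a], by rw [hp0, b], w5_nd0 hx hy hxy⟩
  · -- (1,0,0)
    by_cases hyz : y = z
    · by_cases h1 : 1 < x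
      · left
        exact ⟨1, by rw [hp1, a], by rw [hp1, b], w5_nd1 h1 hy⟩
      · have hx1 : x = 1 := by omega
        right; right; right
        refine ⟨Or.inr (Or.inr hyz), w5_WW hn hy (by omega) fun m hm3 hs => ?_⟩
        rw [hx1, w5_mod1 hm3, ← hyz] at hs
        omega
    · right; right; left
      exact ⟨0, by rw [hp0, b], by rw [hp0, d], w5_nd0 hy hz hyz⟩
  · -- (0,1,0)
    by_cases hxz : x = z
    · by_cases h1 : 1 < y
      · left
        exact ⟨2, by rw [hp2, a], by rw [hp2, b], w5_nd2 hx h1⟩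
      · have hy1 : y = 1 := by omega
        right; right; right
        refine ⟨Or.inr (Or.inl hxz), w5_WW hn hx (by omega) fun m hm3 hs => ?_⟩
        rw [hy1, w5_mod1 hm3, ← hxz] at hs
        omega
    · right; left
      exact ⟨0, by rw [hp0, a], by rw [hp0, d], w5_nd0 hx hz hxz⟩
  · -- (0,0,1)
    by_cases hxy : x = y
    · by_cases h1 : 1 < z
      · right; left
        exact ⟨2, by rw [hp2, a], by rw [hp2, d], w5_nd2 hx h1⟩
      · have hz1 : z = 1 := by omega
        right; right; right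
        refine ⟨Or.inl hxy, w5_WW hn hx (by omega) fun m hm3 hs => ?_⟩
        rw [hz1, w5_mod1 hm3, ← hxy] at hs
        omega
    · left
      exact ⟨0, by rw [hp0, a], by rw [hp0, b], w5_nd0 hx hy hxy⟩
  · -- (2,0,0)
    by_cases hyz : y = z
    · by_cases h1 : 2 < x
      · left
        exact ⟨3, by rw [hp3, a], by rw [hp3, b], w5_nd3 h1 hy⟩
      · have hx1 : x = 2 := by omega
        right; right; right
        refine ⟨Or.inr (Or.inr hyz), w5_WW hn hy (by omega) fun m hm3 hs => ?_⟩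
        rw [hx1, w5_mod2 hm3, ← hyz] at hs
        omega
    · right; right; left
      exact ⟨0, by rw [hp0, b], by rw [hp0, d], w5_nd0 hy hz hyz⟩
  · -- (0,2,0)
    by_cases hxz : x = z
    · by_cases h1 : 2 < y
      · left
        exact ⟨4, by rw [hp4, a], by rw [hp4, b], w5_nd4 hx h1⟩
      · have hy1 : y = 2 := by omega
        right; right; right
        refine ⟨Or.inr (Or.inl hxz), w5_WW hn hx (by omega) fun m hm3 hs => ?_⟩
        rw [hy1, w5_mod2 hm3, ← hxz] at hs
        omega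
    · right; left
      exact ⟨0, by rw [hp0, a], by rw [hp0, d], w5_nd0 hx hz hxz⟩
  · -- (0,0,2)
    by_cases hxy : x = y
    · by_cases h1 : 2 < z
      · right; left
        exact ⟨4, by rw [hp4, a], by rw [hp4, d], w5_nd4 hx h1⟩
      · have hz1 : z = 2 := by omega
        right; right; right
        refine ⟨Or.inl hxy, w5_WW hn hx (by omega) fun m hm3 hs => ?_⟩
        rw [hz1, w5_mod2 hm3, ← hxy] at hs
        omega
    · left
      exact ⟨0, by rw [hp0, a], by rw [hp0, b], w5_nd0 hx hy hxy⟩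
  · -- (1,1,0)
    by_cases h1 : 1 < x
    · right; left
      exact ⟨1, by rw [hp1, a], by rw [hp1, d], w5_nd1 h1 hz⟩
    · by_cases h1' : 1 < y
      · right; right; left
        exact ⟨1, by rw [hp1, b], by rw [hp1, d], w5_nd1 h1' hz⟩
      · have hx1 : x = 1 := by omega
        have hy1 : y = 1 := by omega
        right; right; right
        refine ⟨Or.inl (by omega), w5_WW hn hz (by omega) fun m hm3 hs => ?_⟩
        rw [hx1, hy1, w5_mod1 hm3] at hs
        omega
  · -- (1,0,1)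
    by_cases h1 : 1 < x
    · left
      exact ⟨1, by rw [hp1, a], by rw [hp1, b], w5_nd1 h1 hy⟩
    · by_cases h1' : 1 < z
      · right; right; left
        exact ⟨2, by rw [hp2, b], by rw [hp2, d], w5_nd2 hy h1'⟩
      · have hx1 : x = 1 := by omega
        have hz1 : z = 1 := by omega
        right; right; right
        refine ⟨Or.inr (Or.inl (by omega)), w5_WW hn hy (by omega) fun m hm3 hs => ?_⟩
        rw [hx1, hz1, w5_mod1 hm3] at hs
        omega
  · -- (0,1,1)
    by_cases h1 : 1 < y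
    · left
      exact ⟨2, by rw [hp2, a], by rw [hp2, b], w5_nd2 hx h1⟩
    · by_cases h1' : 1 < z
      · right; left
        exact ⟨2, by rw [hp2, a], by rw [hp2, d], w5_nd2 hx h1'⟩
      · have hy1 : y = 1 := by omega
        have hz1 : z = 1 := by omega
        right; right; right
        refine ⟨Or.inr (Or.inr (by omega)), w5_WW hn hx (by omega) fun m hm3 hs => ?_⟩
        rw [hy1, hz1, w5_mod1 hm3] at hs
        omega

end WD
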