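import Pool.Agent.WD.W1
import Pool.Agent.WD.W3
import Pool.Agent.WD.W5
import Pool.Agent.WD.W11
import Pool.Agent.WD.W12

set_option autoImplicit false

open Finset
open scoped Classical

namespace WD

theorem w13_pr : ∀ k l : Fin 6, pr k = pr l → k = l := by
  decide

theorem w13_core {R : ℝ} {x y z P : ℕ} (hz : 0 < z) (hn : 3 ≤ x + y + z) (hP : P.Prime)
    (h2 : P ≠ 2) (hR : R < P) (hc : Cov P x y z) (hd : P ∣ ff (x + y + z)) {k : Fin 6}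
    (h1 : (pr k).1 = x % P) (h1' : (pr k).2 = y % P) (hnd : ND x y k) :
    ∃ M : Fin 6 → ℕ, Core R k x y z M ∧ ∏ k, M k = WW x y z := by
  obtain ⟨M, hS, hW, hz', hn', hk⟩ := exists_str hn
  obtain ⟨l, e1, e2, e3⟩ := hk P hP h2 hc hd
  have hkl : k = l := w13_pr k l (Prod.ext (h1.trans e1.symm) (h1'.trans e2.symm))
  subst hkl
  refine ⟨M, ⟨hS, hnd, ?_, hz, ?_, ?_⟩, hW⟩
  · have h3 : P ≤ M k := Nat.le_of_dvd (hS.odd k).pos e3
    have h4 : (P : ℝ) ≤ M k := by exact_mod_cast h3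
    linarith
  · rw [hW]
    exact hz'
  · rw [hW]
    exact hn'

/-- [WD-13] PROOF. `3 ≤ x + y + z`. `choose_pair` (the last alternative is excluded) gives a pair and `k0`; `exists_str` for this order of the coordinates (`(x,y,z)`, `(x,z,y)` or `(y,z,x)`; `Cov.swap`, `Cov.rot`, `WW_swap`, `WW_rot`, `x + z + y = x + y + z`) gives `M` and a `k` with `pr k` the residues modulo `P` and `P ∣ M k`; `pr` is injective, so `k = k0` and `R < P ≤ M k0` (`M k0` is odd, so positive). `dj` from `Cov.dj_pair`. -/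
theorem core_of {R : ℝ} {x y z P : ℕ} (hx : 0 < x) (hy : 0 < y) (hz : 0 < z) (hP : P.Prime)
    (h2 : P ≠ 2) (hR : R < P) (hc : Cov P x y z) (hd : P ∣ ff (x + y + z))
    (hnd : ¬ ((x = y ∨ x = z ∨ y = z) ∧ WW x y z ≤ x + y + z)) :
    ∃ (u v w : ℕ) (k0 : Fin 6) (M : Fin 6 → ℕ), u + v + w = x + y + z ∧ Core R k0 u v w M ∧
      ∏ k, M k = WW x y z ∧ (Cov 2 x y z → dj u v) := by
  rcases choose_pair hx hy hz hP h2 hc hd with ⟨k, h3, h4, h5⟩ | ⟨k, h3, h4, h5⟩ |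
    ⟨k, h3, h4, h5⟩ | h3
  · obtain ⟨M, hM, hW⟩ := w13_core hz (by omega) hP h2 hR hc hd h3 h4 h5
    exact ⟨x, y, z, k, M, rfl, hM, hW, fun h => h.dj_pair.1⟩
  · have e1 : x + z + y = x + y + z := by omega
    obtain ⟨M, hM, hW⟩ := w13_core (x := x) (y := z) (z := y) hy (by omega) hP h2 hR hc.swap
      (by rw [e1]; exact hd) h3 h4 h5
    exact ⟨x, z, y, k, M, e1, hM, hW.trans (WW_swap x y z), fun h => h.dj_pair.2.1⟩
  · have e1 : y + z + x = x + y + z := by omega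
    obtain ⟨M, hM, hW⟩ := w13_core (x := y) (y := z) (z := x) hx (by omega) hP h2 hR hc.rot
      (by rw [e1]; exact hd) h3 h4 h5
    exact ⟨y, z, x, k, M, e1, hM, hW.trans (WW_rot x y z), fun h => h.dj_pair.2.2⟩
  · exact absurd h3 hnd

/-- first exceptional set -/
noncomputable def E1 (N : ℕ) (R w1 : ℝ) : Finset ℕ :=
  (Icc 3 N).filter (fun n => ∃ x y z P : ℕ, 0 < x ∧ 0 < y ∧ 0 < z ∧ x + y + z = n ∧ P.Prime ∧
    P ≠ 2 ∧ R < P ∧ Cov P x y z ∧ P ∣ ff n ∧ w1 ≤ WW x y z)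

/-- second exceptional set -/
noncomputable def E2 (N : ℕ) (R w0 w1 : ℝ) : Finset ℕ :=
  (Icc 3 N).filter (fun n => ∃ x y z P : ℕ, 0 < x ∧ 0 < y ∧ 0 < z ∧ x + y + z = n ∧ P.Prime ∧
    P ≠ 2 ∧ R < P ∧ Cov P x y z ∧ P ∣ ff n ∧ Cov 2 x y z ∧ w0 ≤ WW x y z ∧ WW x y z ≤ w1)

/-- the triples with a core and an additional property -/
noncomputable def w13_A (N : ℕ) (Q : ℕ → ℕ → ℕ → Prop) : Finset (ℕ × ℕ × ℕ) :=
  ((range (N + 1)) ×ˢ ((range (N + 1)) ×ˢ (range (N + 1)))).filter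
    (fun t => t.1 + t.2.1 + t.2.2 ≤ N ∧ Q t.1 t.2.1 t.2.2)

theorem w13_mem {N : ℕ} {Q : ℕ → ℕ → ℕ → Prop} {u v w : ℕ} (h : u + v + w ≤ N) (hQ : Q u v w) :
    (u, v, w) ∈ w13_A N Q := by
  unfold w13_A
  rw [Finset.mem_filter, Finset.mem_product, Finset.mem_product]
  refine ⟨⟨?_, ?_, ?_⟩, h, hQ⟩
  · exact Finset.mem_range.2 (by show u < N + 1; omega)
  · exact Finset.mem_range.2 (by show v < N + 1; omega)
  · exact Finset.mem_range.2 (by show w < N + 1; omega)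

theorem w13_of {N : ℕ} {Q : ℕ → ℕ → ℕ → Prop} {t : ℕ × ℕ × ℕ} (h : t ∈ w13_A N Q) :
    t.1 + t.2.1 + t.2.2 ≤ N ∧ Q t.1 t.2.1 t.2.2 := (Finset.mem_filter.1 h).2

/-- the union bound -/
theorem w13_union {N : ℕ} {E : Finset ℕ} {Q : Fin 6 → ℕ → ℕ → ℕ → Prop} {X : ℝ}
    (hE : ∀ n ∈ E, ∃ (k : Fin 6) (u v w : ℕ), u + v + w = n ∧ n ≤ N ∧ Q k u v w)
    (hX : ∀ k, ((w13_A N (Q k)).card : ℝ) ≤ X) : (E.card : ℝ) ≤ 6 * X := by
  have h1 : E ⊆ (Finset.univ : Finset (Fin 6)).biUnion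
      (fun k => (w13_A N (Q k)).image (fun t => t.1 + t.2.1 + t.2.2)) := by
    intro n hn
    obtain ⟨k, u, v, w, h2, h3, h4⟩ := hE n hn
    rw [Finset.mem_biUnion]
    refine ⟨k, Finset.mem_univ k, Finset.mem_image.2 ⟨(u, v, w), w13_mem (by omega) h4, h2⟩⟩
  have h2 : E.card ≤ ∑ k : Fin 6, (w13_A N (Q k)).card :=
    (Finset.card_le_card h1).trans (Finset.card_biUnion_le.trans
      (Finset.sum_le_sum fun k _ => Finset.card_image_le))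
  calc (E.card : ℝ) ≤ ((∑ k : Fin 6, (w13_A N (Q k)).card : ℕ) : ℝ) := by exact_mod_cast h2
    _ = ∑ k : Fin 6, ((w13_A N (Q k)).card : ℝ) := by push_cast; rfl
    _ ≤ ∑ _k : Fin 6, X := Finset.sum_le_sum fun k _ => hX k
    _ = 6 * X := by
      rw [Finset.sum_const, Finset.card_univ, Fintype.card_fin, nsmul_eq_mul]
      norm_num

/-- [WD-13] PROOF. For each `n ∈ E1`, `core_of` (`WW ≥ w1 > N ≥ n` excludes the degenerate case) gives `(u, v, w)`, `k0`. So `E1` is contained in the union over `k0` of the images under `(u, v, w) ↦ u + v + w` of `A k0 =` the triples in `(range (N+1))³` with `u + v + w ≤ N` and `∃ M, Core .. ∧ w1 ≤ ∏ M`; `general` with `Pf = fun _ _ _ => True`, `w0 := w1`, `F c = N²/(w1 c²) + 1`, `DS_card_i`. -/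
theorem E1_card {N : ℕ} {R w1 B : ℝ} (hN : 3 ≤ N) (hR : 1 ≤ R) (hw1 : (N : ℝ) < w1)
    (hB : DB B N) : ((E1 N R w1).card : ℝ) ≤
      6 * ((∑ c ∈ Icc 1 ⌊(N : ℝ) / R⌋₊, (c : ℝ) * ((N : ℝ) ^ 2 / (w1 * (c : ℝ) ^ 2) + 1)) *
        (B ^ 5 * (B ^ 3 * (N / w1 + 1)))) := by
  have hw1' : 0 < w1 := lt_of_le_of_lt (Nat.cast_nonneg N) hw1
  apply w13_union (N := N) (Q := fun k u v w => ∃ M : Fin 6 → ℕ, Core R k u v w M ∧
    w1 ≤ ((∏ k, M k : ℕ) : ℝ) ∧ True)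
  · intro n hn
    obtain ⟨h1, x, y, z, P, hx, hy, hz, hxyz, hP, h2, hRP, hc, hd, hw⟩ := Finset.mem_filter.1 hn
    have hnN : n ≤ N := (Finset.mem_Icc.1 h1).2
    have hnd : ¬ ((x = y ∨ x = z ∨ y = z) ∧ WW x y z ≤ x + y + z) := by
      rintro ⟨-, h3⟩
      have h4 : WW x y z ≤ N := by omega
      have h5 : ((WW x y z : ℕ) : ℝ) ≤ N := by exact_mod_cast h4
      linarith
    obtain ⟨u, v, w, k0, M, e1, e2, e3, -⟩ :=
      core_of hx hy hz hP h2 hRP hc (by rw [hxyz]; exact hd) hnd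
    refine ⟨k0, u, v, w, by omega, hnN, M, e2, ?_, trivial⟩
    rw [e3]
    exact hw
  · intro k
    refine general hN hR hw1' hB k (fun _ _ _ => True)
      (fun c => (N : ℝ) ^ 2 / (w1 * (c : ℝ) ^ 2) + 1) (fun c => by positivity) ?_ _ ?_
    · intro Y Z hY hZ _ M' h1
      exact DS_card_i hw1' hY hZ h1
    · intro t ht
      exact w13_of ht

/-- [WD-13] PROOF. As `E1_card`; the degenerate case is excluded by `dj_ne` (`Cov.dj_pair`). The triples are split into those with `Pii w1 j k0 u v W` (`general`, `DS_card_ii`) and the others (`exceptional`). -/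
theorem E2_card {N j : ℕ} {R w0 w1 B : ℝ} (hN : 3 ≤ N) (hR : 1 ≤ R) (hw0 : 0 < w0)
    (hw1 : 0 < w1) (hj1 : 1 ≤ j) (hj : (16 : ℝ) ^ j * w1 ≤ R ^ 2) (hB : DB B N) :
    ((E2 N R w0 w1).card : ℝ) ≤
      6 * ((∑ c ∈ Icc 1 ⌊(N : ℝ) / R⌋₊,
          (c : ℝ) * (2 * ((N : ℝ) ^ 2 / (w0 * (c : ℝ) ^ 2)) * (3 / 4) ^ j)) *
        (B ^ 5 * (B ^ 3 * (N / w0 + 1))) +
        3 * (N / 4 ^ j) * (B * (B ^ 3 * (N / w0 + 1)) ^ 2)) := by
  apply w13_union (N := N) (Q := fun k u v w =>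
    (∃ M : Fin 6 → ℕ, Core R k u v w M ∧ w0 ≤ ((∏ k, M k : ℕ) : ℝ) ∧
      Pii w1 j k u v (∏ k, M k)) ∨
    (∃ M : Fin 6 → ℕ, Core R k u v w M ∧ w0 ≤ ((∏ k, M k : ℕ) : ℝ) ∧
      (4 ^ j ∣ u - (pr k).1 ∨ 4 ^ j ∣ v - (pr k).2 ∨
        4 ^ j ∣ (u - (pr k).1) + (v - (pr k).2))))
  · intro n hn
    obtain ⟨h1, x, y, z, P, hx, hy, hz, hxyz, hP, h2, hRP, hc, hd, hc2, hw, hw'⟩ :=
      Finset.mem_filter.1 hn
    have hnN : n ≤ N := (Finset.mem_Icc.1 h1).2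
    have hnd : ¬ ((x = y ∨ x = z ∨ y = z) ∧ WW x y z ≤ x + y + z) := by
      rintro ⟨h3, -⟩
      obtain ⟨d1, d2, d3⟩ := hc2.dj_pair
      rcases h3 with h3 | h3 | h3
      · exact dj_ne hx d1 h3
      · exact dj_ne hx d2 h3
      · exact dj_ne hy d3 h3
    obtain ⟨u, v, w, k0, M, e1, e2, e3, e4⟩ :=
      core_of hx hy hz hP h2 hRP hc (by rw [hxyz]; exact hd) hnd
    refine ⟨k0, u, v, w, by omega, hnN, ?_⟩
    by_cases hdv : 4 ^ j ∣ u - (pr k0).1 ∨ 4 ^ j ∣ v - (pr k0).2 ∨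
        4 ^ j ∣ (u - (pr k0).1) + (v - (pr k0).2)
    · exact Or.inr ⟨M, e2, by rw [e3]; exact hw, hdv⟩
    · refine Or.inl ⟨M, e2, by rw [e3]; exact hw, ?_, e4 hc2, ?_, ?_, ?_⟩
      · rw [e3]
        exact hw'
      · exact fun h => hdv (Or.inl h)
      · exact fun h => hdv (Or.inr (Or.inl h))
      · exact fun h => hdv (Or.inr (Or.inr h))
  · intro k
    have hsub : w13_A N (fun u v w =>
        (∃ M : Fin 6 → ℕ, Core R k u v w M ∧ w0 ≤ ((∏ k, M k : ℕ) : ℝ) ∧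
          Pii w1 j k u v (∏ k, M k)) ∨
        (∃ M : Fin 6 → ℕ, Core R k u v w M ∧ w0 ≤ ((∏ k, M k : ℕ) : ℝ) ∧
          (4 ^ j ∣ u - (pr k).1 ∨ 4 ^ j ∣ v - (pr k).2 ∨
            4 ^ j ∣ (u - (pr k).1) + (v - (pr k).2)))) ⊆
        w13_A N (fun u v w => ∃ M : Fin 6 → ℕ, Core R k u v w M ∧
          w0 ≤ ((∏ k, M k : ℕ) : ℝ) ∧ Pii w1 j k u v (∏ k, M k)) ∪
        w13_A N (fun u v w => ∃ M : Fin 6 → ℕ, Core R k u v w M ∧ w0 ≤ ((∏ k, M k : ℕ) : ℝ) ∧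
          (4 ^ j ∣ u - (pr k).1 ∨ 4 ^ j ∣ v - (pr k).2 ∨
            4 ^ j ∣ (u - (pr k).1) + (v - (pr k).2))) := by
      rintro ⟨u, v, w⟩ ht
      obtain ⟨h1, h2⟩ := w13_of ht
      rcases h2 with h2 | h2
      · exact Finset.mem_union_left _ (w13_mem h1 h2)
      · exact Finset.mem_union_right _ (w13_mem h1 h2)
    have hcard := (Finset.card_le_card hsub).trans (Finset.card_union_le _ _)
    have hcard' := (Nat.cast_le (α := ℝ)).2 hcard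
    rw [Nat.cast_add] at hcard'
    refine hcard'.trans (add_le_add ?_ ?_)
    · refine general hN hR hw0 hB k (Pii w1 j k)
        (fun c => 2 * ((N : ℝ) ^ 2 / (w0 * (c : ℝ) ^ 2)) * (3 / 4) ^ j)
        (fun c => by positivity) ?_ _ ?_
      · intro Y Z hY hZ hYZ M' h1
        exact DS_card_ii hR hw0 hw1 hj hY hZ hYZ h1
      · intro t ht
        exact w13_of ht
    · exact exceptional hj1 hw0 hB k _ (fun t ht => w13_of ht)

end WD
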