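import Pool.Agent.WD.W13
import Pool.Agent.Lib.helper69.DivisorBound

set_option autoImplicit false

open Finset
open scoped Classical

namespace WD

/-- [WD-14] PROOF. `card_divisors_le_rpow ε₀` with `ε₀ = ε/3`: `C (4 N^3)^{ε/3} ≤ 4 C N^ε` (`ε ≤ 1`). -/
theorem exists_DB {ε : ℝ} (hε : 0 < ε) (hε1 : ε ≤ 1) :
    ∃ C : ℝ, 1 ≤ C ∧ ∀ N : ℕ, 1 ≤ N → DB (C * (N : ℝ) ^ ε) N := by
  obtain ⟨C, hC, h⟩ := Pool.Agent.Lib.helper69.card_divisors_le_rpow (ε / 3) (by positivity)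
  refine ⟨4 * C, by linarith, ?_⟩
  intro N hN
  have hx : (1 : ℝ) ≤ N := by exact_mod_cast hN
  have h1 : (1 : ℝ) ≤ (N : ℝ) ^ ε := Real.one_le_rpow hx hε.le
  refine ⟨?_, ?_⟩
  · nlinarith
  · intro m hm hm4
    have hm' : (m : ℝ) ≤ 4 * (N : ℝ) ^ 3 := by exact_mod_cast hm4
    have h2 : (m : ℝ) ^ (ε / 3) ≤ (4 * (N : ℝ) ^ 3) ^ (ε / 3) :=
      Real.rpow_le_rpow (by positivity) hm' (by positivity)
    have h3 : (4 * (N : ℝ) ^ 3) ^ (ε / 3) = (4 : ℝ) ^ (ε / 3) * (N : ℝ) ^ ε := by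
      rw [Real.mul_rpow (by norm_num) (by positivity), ← Real.rpow_natCast,
        ← Real.rpow_mul (by positivity)]
      congr 2
      push_cast
      ring
    have h4 : (4 : ℝ) ^ (ε / 3) ≤ 4 := by
      calc (4 : ℝ) ^ (ε / 3) ≤ (4 : ℝ) ^ (1 : ℝ) :=
            Real.rpow_le_rpow_of_exponent_le (by norm_num) (by linarith)
        _ = 4 := Real.rpow_one 4
    have h0 : (0 : ℝ) ≤ (N : ℝ) ^ ε := by linarith
    calc (m.divisors.card : ℝ) ≤ C * (m : ℝ) ^ (ε / 3) := h m hm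
      _ ≤ C * ((4 : ℝ) ^ (ε / 3) * (N : ℝ) ^ ε) := by
          rw [← h3]; exact mul_le_mul_of_nonneg_left h2 (by linarith)
      _ ≤ C * (4 * (N : ℝ) ^ ε) := by
          apply mul_le_mul_of_nonneg_left _ (by linarith)
          exact mul_le_mul_of_nonneg_right h4 h0
      _ = 4 * C * (N : ℝ) ^ ε := by ring

theorem w_harm {N : ℕ} {R : ℝ} (hN : 1 ≤ N) (hR : 1 ≤ R) :
    ∑ c ∈ Icc 1 ⌊(N : ℝ) / R⌋₊, (1 : ℝ) / c ≤ 1 + Real.log N := by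
  have hx : (1 : ℝ) ≤ N := by exact_mod_cast hN
  have hR0 : 0 < R := by linarith
  have h1 := harmonic_le_one_add_log ⌊(N : ℝ) / R⌋₊
  have h2 : ((harmonic ⌊(N : ℝ) / R⌋₊ : ℚ) : ℝ) = ∑ c ∈ Icc 1 ⌊(N : ℝ) / R⌋₊, (1 : ℝ) / c := by
    rw [harmonic_eq_sum_Icc]
    push_cast
    apply Finset.sum_congr rfl
    intro c _
    rw [one_div]
  rw [← h2]
  refine h1.trans ?_
  have h3 : Real.log (⌊(N : ℝ) / R⌋₊ : ℝ) ≤ Real.log N := by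
    rcases Nat.eq_zero_or_pos ⌊(N : ℝ) / R⌋₊ with h | h
    · rw [h]
      simp only [Nat.cast_zero, Real.log_zero]
      exact Real.log_nonneg hx
    · apply Real.log_le_log (by exact_mod_cast h)
      calc ((⌊(N : ℝ) / R⌋₊ : ℕ) : ℝ) ≤ (N : ℝ) / R := Nat.floor_le (by positivity)
        _ ≤ N := div_le_self (by linarith) hR
  linarith

/-- [WD-14] the elementary sums. PROOF. `∑ 1/c ≤ 1 + log C` (`harmonic_le_one_add_log`), `∑ c ≤ C²`. -/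
theorem sum_i {N : ℕ} {R w : ℝ} (hN : 1 ≤ N) (hR : 1 ≤ R) (hw : 0 < w) :
    ∑ c ∈ Icc 1 ⌊(N : ℝ) / R⌋₊, (c : ℝ) * ((N : ℝ) ^ 2 / (w * (c : ℝ) ^ 2) + 1) ≤
      (N : ℝ) ^ 2 / w * (1 + Real.log N) + ((N : ℝ) / R) ^ 2 := by
  have hx : (1 : ℝ) ≤ N := by exact_mod_cast hN
  have hR0 : 0 < R := by linarith
  have h1 := w_harm hN hR
  set C := ⌊(N : ℝ) / R⌋₊ with hC
  have h2 : ∑ c ∈ Icc 1 C, (c : ℝ) * ((N : ℝ) ^ 2 / (w * (c : ℝ) ^ 2) + 1) =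
      (N : ℝ) ^ 2 / w * ∑ c ∈ Icc 1 C, (1 : ℝ) / c + ∑ c ∈ Icc 1 C, (c : ℝ) := by
    rw [Finset.mul_sum, ← Finset.sum_add_distrib]
    apply Finset.sum_congr rfl
    intro c hc
    have hc1 : (1 : ℝ) ≤ c := by exact_mod_cast (Finset.mem_Icc.mp hc).1
    field_simp
  have h3 : ∑ c ∈ Icc 1 C, (c : ℝ) ≤ ((N : ℝ) / R) ^ 2 := by
    have hCle : (C : ℝ) ≤ (N : ℝ) / R := Nat.floor_le (by positivity)
    have : ∑ c ∈ Icc 1 C, (c : ℝ) ≤ ∑ c ∈ Icc 1 C, (C : ℝ) := by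
      apply Finset.sum_le_sum
      intro c hc
      exact_mod_cast (Finset.mem_Icc.mp hc).2
    refine this.trans ?_
    rw [Finset.sum_const, Nat.card_Icc, nsmul_eq_mul, Nat.add_sub_cancel, ← sq]
    exact pow_le_pow_left₀ (by positivity) hCle 2
  rw [h2]
  have h4 : (0 : ℝ) ≤ (N : ℝ) ^ 2 / w := by positivity
  have h5 := mul_le_mul_of_nonneg_left h1 h4
  linarith

theorem sum_ii {N : ℕ} {R w t : ℝ} (hN : 1 ≤ N) (hR : 1 ≤ R) (hw : 0 < w) (ht : 0 ≤ t) :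
    ∑ c ∈ Icc 1 ⌊(N : ℝ) / R⌋₊, (c : ℝ) * (2 * ((N : ℝ) ^ 2 / (w * (c : ℝ) ^ 2)) * t) ≤
      2 * t * ((N : ℝ) ^ 2 / w) * (1 + Real.log N) := by
  have h1 := w_harm hN hR
  set C := ⌊(N : ℝ) / R⌋₊ with hC
  have h2 : ∑ c ∈ Icc 1 C, (c : ℝ) * (2 * ((N : ℝ) ^ 2 / (w * (c : ℝ) ^ 2)) * t) =
      2 * t * ((N : ℝ) ^ 2 / w) * ∑ c ∈ Icc 1 C, (1 : ℝ) / c := by
    rw [Finset.mul_sum]
    apply Finset.sum_congr rfl
    intro c hc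
    have hc1 : (1 : ℝ) ≤ c := by exact_mod_cast (Finset.mem_Icc.mp hc).1
    field_simp
  rw [h2]
  exact mul_le_mul_of_nonneg_left h1 (by positivity)

theorem w_small (K : ℝ) {δ ε : ℝ} (hδ : 0 < δ) (hε : 0 < ε) :
    ∃ N₀ : ℕ, ∀ N : ℕ, N₀ ≤ N → K * (N : ℝ) ^ (1 - δ) ≤ ε * N := by
  have h1 : Filter.Tendsto (fun N : ℕ => K * (N : ℝ) ^ (-δ)) Filter.atTop (nhds (K * 0)) :=
    ((tendsto_rpow_neg_atTop hδ).comp tendsto_natCast_atTop_atTop).const_mul K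
  rw [mul_zero] at h1
  have h2 := (h1.eventually (gt_mem_nhds hε)).and (Filter.eventually_ge_atTop 1)
  obtain ⟨N₀, hN₀⟩ := Filter.eventually_atTop.mp h2
  refine ⟨N₀, ?_⟩
  intro N hN
  obtain ⟨h3, h4⟩ := hN₀ N hN
  have hx : (1 : ℝ) ≤ N := by exact_mod_cast h4
  have hx0 : (0 : ℝ) < N := by linarith
  have h5 : (N : ℝ) ^ (1 - δ) = (N : ℝ) ^ (-δ) * N := by
    conv_rhs => rw [← Real.rpow_one (N : ℝ)]
    rw [← Real.rpow_mul hx0.le, ← Real.rpow_add hx0]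
    congr 1
    ring
  rw [h5, ← mul_assoc]
  exact mul_le_mul_of_nonneg_right h3.le hx0.le

theorem w_log {N : ℕ} (hN : 1 ≤ N) {t : ℝ} (ht : 0 < t) :
    1 + Real.log N ≤ (1 + 1 / t) * (N : ℝ) ^ t := by
  have hx : (1 : ℝ) ≤ N := by exact_mod_cast hN
  have h1 := Real.log_le_rpow_div (x := (N : ℝ)) (by linarith) ht
  have h2 := Real.one_le_rpow hx ht.le
  have h3 : (1 + 1 / t) * (N : ℝ) ^ t = (N : ℝ) ^ t + (N : ℝ) ^ t / t := by ring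
  rw [h3]
  linarith

/-- [WD-14] PROOF. `R = N^{1/2+η}`, `w1 = N^{1+τ}`, `τ = η/100`, `B = C N^{τ/100}` (`exists_DB`): the bound of `E1_card` is at most `6 (N^{1-τ}(1 + log N) + N^{1-2η}) · 2 C^8 N^{8τ/100}`, which is `o(N)` (`isLittleO_log_rpow_atTop`). -/
theorem E1_small {η : ℝ} (hη : 0 < η) (hη1 : η ≤ 1 / 2) {ε : ℝ} (hε : 0 < ε) :
    ∃ N₀ : ℕ, ∀ N : ℕ, N₀ ≤ N →
      ((E1 N ((N : ℝ) ^ (1 / 2 + η)) ((N : ℝ) ^ (1 + η / 100))).card : ℝ) ≤ ε * N := by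
  set τ := η / 100 with hτ
  have hτ0 : 0 < τ := by positivity
  have hητ : η = 100 * τ := by rw [hτ]; ring
  obtain ⟨C, hC, hDB⟩ := exists_DB (ε := τ / 100) (by positivity) (by linarith)
  obtain ⟨N₁, hN₁⟩ := w_small (12 * C ^ 8 * (2 + 2 / τ)) (δ := 42 / 100 * τ) (ε := ε)
    (by positivity) hε
  refine ⟨max N₁ 3, ?_⟩
  intro N hN
  have hN3 : 3 ≤ N := le_trans (le_max_right _ _) hN
  have hx3 : (3 : ℝ) ≤ N := by exact_mod_cast hN3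
  have hx1 : (1 : ℝ) ≤ N := by linarith
  have hx0 : (0 : ℝ) < N := by linarith
  have hR : 1 ≤ (N : ℝ) ^ (1 / 2 + η) := Real.one_le_rpow hx1 (by linarith)
  have hR0 : 0 < (N : ℝ) ^ (1 / 2 + η) := by linarith
  have hw1 : (N : ℝ) < (N : ℝ) ^ (1 + τ) := by
    conv_lhs => rw [← Real.rpow_one (N : ℝ)]
    exact Real.rpow_lt_rpow_of_exponent_lt (by linarith) (by linarith)
  have hw0 : 0 < (N : ℝ) ^ (1 + τ) := by positivity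
  have hB := hDB N (by omega)
  have hcard := E1_card hN3 hR hw1 hB
  have hS := sum_i (N := N) (R := (N : ℝ) ^ (1 / 2 + η)) (w := (N : ℝ) ^ (1 + τ)) (by omega) hR hw0
  refine hcard.trans ?_
  refine le_trans ?_ (hN₁ N (le_trans (le_max_left _ _) hN))
  set S := ∑ c ∈ Icc 1 ⌊(N : ℝ) / (N : ℝ) ^ (1 / 2 + η)⌋₊,
    (c : ℝ) * ((N : ℝ) ^ 2 / ((N : ℝ) ^ (1 + τ) * (c : ℝ) ^ 2) + 1) with hSdef
  have e1 : (N : ℝ) ^ 2 / (N : ℝ) ^ (1 + τ) = (N : ℝ) ^ (1 - τ) := by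
    rw [← Real.rpow_natCast, ← Real.rpow_sub hx0]
    congr 1
    push_cast
    ring
  have e2 : ((N : ℝ) / (N : ℝ) ^ (1 / 2 + η)) ^ 2 = (N : ℝ) ^ (1 - 2 * η) := by
    conv_lhs => rw [← Real.rpow_one (N : ℝ)]
    rw [← Real.rpow_mul hx0.le, ← Real.rpow_sub hx0, ← Real.rpow_natCast,
      ← Real.rpow_mul hx0.le]
    congr 1
    push_cast
    ring
  have e3 : (N : ℝ) / (N : ℝ) ^ (1 + τ) ≤ 1 := by
    rw [div_le_one hw0]; exact hw1.le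
  have hlog := w_log (N := N) (by omega) (t := τ / 2) (by positivity)
  have hS2 : S ≤ (2 + 2 / τ) * (N : ℝ) ^ (1 - τ / 2) := by
    rw [e1, e2] at hS
    have f1 : (N : ℝ) ^ (1 - 2 * η) ≤ (N : ℝ) ^ (1 - τ / 2) :=
      Real.rpow_le_rpow_of_exponent_le hx1 (by linarith)
    have f2 : (N : ℝ) ^ (1 - τ) * (1 + Real.log N) ≤
        (N : ℝ) ^ (1 - τ) * ((1 + 1 / (τ / 2)) * (N : ℝ) ^ (τ / 2)) :=
      mul_le_mul_of_nonneg_left hlog (by positivity)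
    have f3 : (N : ℝ) ^ (1 - τ) * ((1 + 1 / (τ / 2)) * (N : ℝ) ^ (τ / 2)) =
        (1 + 2 / τ) * (N : ℝ) ^ (1 - τ / 2) := by
      have : (N : ℝ) ^ (1 - τ / 2) = (N : ℝ) ^ (1 - τ) * (N : ℝ) ^ (τ / 2) := by
        rw [← Real.rpow_add hx0]
        congr 1
        ring
      rw [this]
      field_simp
    rw [f3] at f2
    calc S ≤ (N : ℝ) ^ (1 - τ) * (1 + Real.log N) + (N : ℝ) ^ (1 - 2 * η) := hS
      _ ≤ (1 + 2 / τ) * (N : ℝ) ^ (1 - τ / 2) + (N : ℝ) ^ (1 - τ / 2) := add_le_add f2 f1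
      _ = (2 + 2 / τ) * (N : ℝ) ^ (1 - τ / 2) := by ring
  set B := C * (N : ℝ) ^ (τ / 100) with hBdef
  have hB0 : 0 ≤ B := by positivity
  have hB8 : B ^ 8 = C ^ 8 * (N : ℝ) ^ (8 / 100 * τ) := by
    rw [hBdef, mul_pow, ← Real.rpow_natCast ((N : ℝ) ^ (τ / 100)), ← Real.rpow_mul hx0.le]
    congr 2
    push_cast
    ring
  have g1 : B ^ 5 * (B ^ 3 * ((N : ℝ) / (N : ℝ) ^ (1 + τ) + 1)) ≤
      2 * (C ^ 8 * (N : ℝ) ^ (8 / 100 * τ)) := by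
    rw [← hB8]
    have : B ^ 5 * (B ^ 3 * ((N : ℝ) / (N : ℝ) ^ (1 + τ) + 1)) =
      ((N : ℝ) / (N : ℝ) ^ (1 + τ) + 1) * B ^ 8 := by ring
    rw [this]
    exact mul_le_mul_of_nonneg_right (by linarith) (by positivity)
  have g2 : (N : ℝ) ^ (1 - 42 / 100 * τ) = (N : ℝ) ^ (1 - τ / 2) * (N : ℝ) ^ (8 / 100 * τ) := by
    rw [← Real.rpow_add hx0]
    congr 1
    ring
  have g3 : S * (B ^ 5 * (B ^ 3 * ((N : ℝ) / (N : ℝ) ^ (1 + τ) + 1))) ≤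
      ((2 + 2 / τ) * (N : ℝ) ^ (1 - τ / 2)) * (2 * (C ^ 8 * (N : ℝ) ^ (8 / 100 * τ))) :=
    mul_le_mul hS2 g1 (by positivity) (by positivity)
  rw [g2]
  calc 6 * (S * (B ^ 5 * (B ^ 3 * ((N : ℝ) / (N : ℝ) ^ (1 + τ) + 1))))
      ≤ 6 * (((2 + 2 / τ) * (N : ℝ) ^ (1 - τ / 2)) *
        (2 * (C ^ 8 * (N : ℝ) ^ (8 / 100 * τ)))) := by linarith
    _ = 12 * C ^ 8 * (2 + 2 / τ) * ((N : ℝ) ^ (1 - τ / 2) * (N : ℝ) ^ (8 / 100 * τ)) := by ring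

theorem w_large {s : ℝ} (hs : 0 < s) :
    ∃ N₀ : ℕ, ∀ N : ℕ, N₀ ≤ N → 1 ≤ ⌊s * Real.log N / Real.log 16⌋₊ ∧
      (16 : ℝ) ^ ⌊s * Real.log N / Real.log 16⌋₊ ≤ (N : ℝ) ^ s ∧
      (3 / 4 : ℝ) ^ ⌊s * Real.log N / Real.log 16⌋₊ ≤ 4 / 3 * (N : ℝ) ^ (-(s / 10)) ∧
      ((4 : ℝ) ^ ⌊s * Real.log N / Real.log 16⌋₊)⁻¹ ≤ 4 * (N : ℝ) ^ (-(s / 2)) := by
  have h16 : 0 < Real.log 16 := Real.log_pos (by norm_num)
  have h1 : Filter.Tendsto (fun N : ℕ => s * Real.log N / Real.log 16) Filter.atTop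
      Filter.atTop := by
    apply Filter.Tendsto.atTop_div_const h16
    apply Filter.Tendsto.const_mul_atTop hs
    exact Real.tendsto_log_atTop.comp tendsto_natCast_atTop_atTop
  have h2 := (h1.eventually (Filter.eventually_ge_atTop 1)).and (Filter.eventually_ge_atTop 1)
  obtain ⟨N₀, hN₀⟩ := Filter.eventually_atTop.mp h2
  refine ⟨N₀, ?_⟩
  intro N hN
  obtain ⟨h3, h4⟩ := hN₀ N hN
  have hx : (1 : ℝ) ≤ N := by exact_mod_cast h4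
  have hx0 : (0 : ℝ) < N := by linarith
  set X := s * Real.log N / Real.log 16 with hX
  have hX0 : 0 ≤ X := by linarith
  have hXl : X * Real.log 16 = s * Real.log N := by
    rw [hX]; field_simp
  have hf1 : ((⌊X⌋₊ : ℕ) : ℝ) ≤ X := Nat.floor_le hX0
  have hf2 : X - 1 ≤ ((⌊X⌋₊ : ℕ) : ℝ) := (Nat.sub_one_lt_floor X).le
  have hNs : (N : ℝ) ^ s = (16 : ℝ) ^ X := by
    rw [Real.rpow_def_of_pos hx0, Real.rpow_def_of_pos (by norm_num : (0 : ℝ) < 16)]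
    congr 1
    linarith
  refine ⟨?_, ?_, ?_, ?_⟩
  · exact Nat.le_floor (by exact_mod_cast h3)
  · rw [hNs, ← Real.rpow_natCast]
    exact Real.rpow_le_rpow_of_exponent_le (by norm_num) hf1
  · have a1 : (3 / 4 : ℝ) ^ ⌊X⌋₊ ≤ (3 / 4 : ℝ) ^ (X - 1) := by
      rw [← Real.rpow_natCast]
      exact Real.rpow_le_rpow_of_exponent_ge (by norm_num) (by norm_num) hf2
    have a2 : (3 / 4 : ℝ) ^ (X - 1) = 4 / 3 * (3 / 4 : ℝ) ^ X := by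
      rw [Real.rpow_sub (by norm_num), Real.rpow_one]
      ring
    have a3 : (3 / 4 : ℝ) ^ X ≤ (N : ℝ) ^ (-(s / 10)) := by
      rw [Real.rpow_def_of_pos hx0, Real.rpow_def_of_pos (by norm_num : (0 : ℝ) < 3 / 4)]
      apply Real.exp_le_exp.mpr
      have b1 : Real.log (3 / 4) = - Real.log (4 / 3) := by
        rw [← Real.log_inv]; norm_num
      have b2 : Real.log 16 ≤ 10 * Real.log (4 / 3) := by
        have : (10 : ℝ) * Real.log (4 / 3) = Real.log ((4 / 3) ^ 10) := by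
          rw [Real.log_pow]; norm_num
        rw [this]
        apply Real.log_le_log (by norm_num)
        norm_num
      rw [b1]
      have b3 : X * Real.log 16 ≤ X * (10 * Real.log (4 / 3)) := mul_le_mul_of_nonneg_left b2 hX0
      nlinarith
    rw [a2] at a1
    linarith
  · have a1 : ((4 : ℝ) ^ ⌊X⌋₊)⁻¹ ≤ 4 * (4 : ℝ) ^ (-X) := by
      have c1 : ((4 : ℝ) ^ ⌊X⌋₊)⁻¹ = (4 : ℝ) ^ (-((⌊X⌋₊ : ℕ) : ℝ)) := by
        rw [Real.rpow_neg (by norm_num), Real.rpow_natCast]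
      have c2 : 4 * (4 : ℝ) ^ (-X) = (4 : ℝ) ^ (1 - X) := by
        rw [sub_eq_add_neg, Real.rpow_add (by norm_num), Real.rpow_one]
      rw [c1, c2]
      exact Real.rpow_le_rpow_of_exponent_le (by norm_num) (by linarith)
    have a2 : (4 : ℝ) ^ (-X) = (N : ℝ) ^ (-(s / 2)) := by
      rw [Real.rpow_def_of_pos hx0, Real.rpow_def_of_pos (by norm_num : (0 : ℝ) < 4)]
      congr 1
      have : Real.log 16 = 2 * Real.log 4 := by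
        have : (16 : ℝ) = 4 ^ 2 := by norm_num
        rw [this, Real.log_pow]
        norm_num
      rw [this] at hXl
      linarith
    rw [a2] at a1
    exact a1

/-- [WD-14] PROOF. `w0 = N^{1-4τ}`, `j = ⌊(2η - τ) log N/log 16⌋₊`: `16^j w1 ≤ N^{2η-τ} N^{1+τ} = R²`, `(3/4)^j ≤ (4/3) N^{-(2η-τ) log(4/3)/log 16}` and `log(4/3)/log 16 ≥ 1/10` (`(4/3)^10 ≥ 16`: `(4/3)^10 = 17.7..`), so `(3/4)^j ≤ (4/3) N^{-(2η-τ)/10}`, `4^{-j} ≤ 4 N^{-(2η-τ)/2}`. The bound of `E2_card` is at most a constant times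
`N^{1+8τ+8τ/100-(2η-τ)/10}(1 + log N) + N^{1-(2η-τ)/2+8τ+7τ/100}`, and `(2η - τ)/10 = 19.9 τ > 8.08 τ`. -/
theorem E2_small {η : ℝ} (hη : 0 < η) (hη1 : η ≤ 1 / 2) {ε : ℝ} (hε : 0 < ε) :
    ∃ N₀ : ℕ, ∀ N : ℕ, N₀ ≤ N →
      ((E2 N ((N : ℝ) ^ (1 / 2 + η)) ((N : ℝ) ^ (1 - 4 * (η / 100)))
        ((N : ℝ) ^ (1 + η / 100))).card : ℝ) ≤ ε * N := by
  set τ := η / 100 with hτ
  have hτ0 : 0 < τ := by positivity
  have hητ : η = 100 * τ := by rw [hτ]; ring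
  obtain ⟨C, hC, hDB⟩ := exists_DB (ε := τ / 100) (by positivity) (by linarith)
  obtain ⟨N₁, hN₁⟩ := w_small (6 * (16 / 3 * (1 + 1 / τ) * C ^ 8 + 48 * C ^ 7)) (δ := τ) (ε := ε)
    hτ0 hε
  obtain ⟨N₂, hN₂⟩ := w_large (s := 199 * τ) (by positivity)
  refine ⟨max (max N₁ N₂) 3, ?_⟩
  intro N hN
  have hN3 : 3 ≤ N := le_trans (le_max_right _ _) hN
  have hN1' : N₁ ≤ N := le_trans (le_trans (le_max_left _ _) (le_max_left _ _)) hN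
  have hN2' : N₂ ≤ N := le_trans (le_trans (le_max_right _ _) (le_max_left _ _)) hN
  have hx3 : (3 : ℝ) ≤ N := by exact_mod_cast hN3
  have hx1 : (1 : ℝ) ≤ N := by linarith
  have hx0 : (0 : ℝ) < N := by linarith
  have hR : 1 ≤ (N : ℝ) ^ (1 / 2 + η) := Real.one_le_rpow hx1 (by linarith)
  have hw0 : 0 < (N : ℝ) ^ (1 - 4 * τ) := by positivity
  have hw1 : 0 < (N : ℝ) ^ (1 + τ) := by positivity
  have hB := hDB N (by omega)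
  obtain ⟨hj1, hj16, hj34, hj4⟩ := hN₂ N hN2'
  set j := ⌊199 * τ * Real.log N / Real.log 16⌋₊ with hjdef
  have hj : (16 : ℝ) ^ j * (N : ℝ) ^ (1 + τ) ≤ ((N : ℝ) ^ (1 / 2 + η)) ^ 2 := by
    calc (16 : ℝ) ^ j * (N : ℝ) ^ (1 + τ) ≤ (N : ℝ) ^ (199 * τ) * (N : ℝ) ^ (1 + τ) :=
          mul_le_mul_of_nonneg_right hj16 hw1.le
      _ = ((N : ℝ) ^ (1 / 2 + η)) ^ 2 := by
          rw [← Real.rpow_add hx0, ← Real.rpow_natCast, ← Real.rpow_mul hx0.le]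
          congr 1
          push_cast
          rw [hητ]
          ring
  have hcard := E2_card hN3 hR hw0 hw1 hj1 hj hB
  have hS := sum_ii (N := N) (R := (N : ℝ) ^ (1 / 2 + η)) (w := (N : ℝ) ^ (1 - 4 * τ))
    (t := (3 / 4 : ℝ) ^ j) (by omega) hR hw0 (by positivity)
  refine hcard.trans ?_
  refine le_trans ?_ (hN₁ N hN1')
  set S := ∑ c ∈ Icc 1 ⌊(N : ℝ) / (N : ℝ) ^ (1 / 2 + η)⌋₊,
    (c : ℝ) * (2 * ((N : ℝ) ^ 2 / ((N : ℝ) ^ (1 - 4 * τ) * (c : ℝ) ^ 2)) * (3 / 4) ^ j) with hSdef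
  have e1 : (N : ℝ) ^ 2 / (N : ℝ) ^ (1 - 4 * τ) = (N : ℝ) ^ (1 + 4 * τ) := by
    rw [← Real.rpow_natCast, ← Real.rpow_sub hx0]
    congr 1
    push_cast
    ring
  have e3 : (N : ℝ) / (N : ℝ) ^ (1 - 4 * τ) = (N : ℝ) ^ (4 * τ) := by
    conv_lhs => rw [← Real.rpow_one (N : ℝ)]
    rw [← Real.rpow_mul hx0.le, ← Real.rpow_sub hx0]
    congr 1
    ring
  have e4 : (N : ℝ) / (N : ℝ) ^ (1 - 4 * τ) + 1 ≤ 2 * (N : ℝ) ^ (4 * τ) := by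
    rw [e3]
    have : 1 ≤ (N : ℝ) ^ (4 * τ) := Real.one_le_rpow hx1 (by positivity)
    linarith
  have e5 : 0 ≤ (N : ℝ) / (N : ℝ) ^ (1 - 4 * τ) + 1 := by positivity
  have hlog := w_log (N := N) (by omega) (t := τ) hτ0
  have hlog0 : 0 ≤ 1 + Real.log N := by
    have := Real.log_nonneg hx1
    linarith
  have hS2 : S ≤ 8 / 3 * (1 + 1 / τ) * (N : ℝ) ^ (1 - 149 / 10 * τ) := by
    rw [e1] at hS
    have f0 : (N : ℝ) ^ (1 - 149 / 10 * τ) =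
        (N : ℝ) ^ (-(199 / 10 * τ)) * (N : ℝ) ^ (1 + 4 * τ) * (N : ℝ) ^ τ := by
      rw [← Real.rpow_add hx0, ← Real.rpow_add hx0]
      congr 1
      ring
    have hj34' : (3 / 4 : ℝ) ^ j ≤ 4 / 3 * (N : ℝ) ^ (-(199 / 10 * τ)) := by
      convert hj34 using 3
      ring
    calc S ≤ 2 * (3 / 4) ^ j * (N : ℝ) ^ (1 + 4 * τ) * (1 + Real.log N) := hS
      _ ≤ 2 * (4 / 3 * (N : ℝ) ^ (-(199 / 10 * τ))) * (N : ℝ) ^ (1 + 4 * τ) *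
            ((1 + 1 / τ) * (N : ℝ) ^ τ) := by
          apply mul_le_mul _ hlog hlog0 (by positivity)
          apply mul_le_mul_of_nonneg_right _ (by positivity)
          exact mul_le_mul_of_nonneg_left hj34' (by norm_num)
      _ = 8 / 3 * (1 + 1 / τ) * (N : ℝ) ^ (1 - 149 / 10 * τ) := by
          rw [f0]
          ring
  set B := C * (N : ℝ) ^ (τ / 100) with hBdef
  have hB0 : 0 ≤ B := by positivity
  have hB8 : B ^ 8 = C ^ 8 * (N : ℝ) ^ (8 / 100 * τ) := by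
    rw [hBdef, mul_pow, ← Real.rpow_natCast ((N : ℝ) ^ (τ / 100)), ← Real.rpow_mul hx0.le]
    congr 2
    push_cast
    ring
  have hB7 : B ^ 7 = C ^ 7 * (N : ℝ) ^ (7 / 100 * τ) := by
    rw [hBdef, mul_pow, ← Real.rpow_natCast ((N : ℝ) ^ (τ / 100)), ← Real.rpow_mul hx0.le]
    congr 2
    push_cast
    ring
  have g1 : B ^ 5 * (B ^ 3 * ((N : ℝ) / (N : ℝ) ^ (1 - 4 * τ) + 1)) ≤
      2 * (N : ℝ) ^ (4 * τ) * (C ^ 8 * (N : ℝ) ^ (8 / 100 * τ)) := by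
    rw [← hB8]
    have : B ^ 5 * (B ^ 3 * ((N : ℝ) / (N : ℝ) ^ (1 - 4 * τ) + 1)) =
      ((N : ℝ) / (N : ℝ) ^ (1 - 4 * τ) + 1) * B ^ 8 := by ring
    rw [this]
    exact mul_le_mul_of_nonneg_right e4 (by positivity)
  have g2 : (N : ℝ) ^ (1 - 149 / 10 * τ) * ((N : ℝ) ^ (4 * τ) * (N : ℝ) ^ (8 / 100 * τ)) ≤
      (N : ℝ) ^ (1 - τ) := by
    rw [← Real.rpow_add hx0, ← Real.rpow_add hx0]
    exact Real.rpow_le_rpow_of_exponent_le hx1 (by linarith)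
  have g3 : S * (B ^ 5 * (B ^ 3 * ((N : ℝ) / (N : ℝ) ^ (1 - 4 * τ) + 1))) ≤
      16 / 3 * (1 + 1 / τ) * C ^ 8 * (N : ℝ) ^ (1 - τ) := by
    calc S * (B ^ 5 * (B ^ 3 * ((N : ℝ) / (N : ℝ) ^ (1 - 4 * τ) + 1)))
        ≤ (8 / 3 * (1 + 1 / τ) * (N : ℝ) ^ (1 - 149 / 10 * τ)) *
          (2 * (N : ℝ) ^ (4 * τ) * (C ^ 8 * (N : ℝ) ^ (8 / 100 * τ))) :=
          mul_le_mul hS2 g1 (by positivity) (by positivity)
      _ = 16 / 3 * (1 + 1 / τ) * C ^ 8 *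
          ((N : ℝ) ^ (1 - 149 / 10 * τ) * ((N : ℝ) ^ (4 * τ) * (N : ℝ) ^ (8 / 100 * τ))) := by ring
      _ ≤ 16 / 3 * (1 + 1 / τ) * C ^ 8 * (N : ℝ) ^ (1 - τ) :=
          mul_le_mul_of_nonneg_left g2 (by positivity)
  have g4 : (B * (B ^ 3 * ((N : ℝ) / (N : ℝ) ^ (1 - 4 * τ) + 1)) ^ 2) ≤
      4 * (C ^ 7 * (N : ℝ) ^ (7 / 100 * τ)) * ((N : ℝ) ^ (4 * τ)) ^ 2 := by
    rw [← hB7]
    have : B * (B ^ 3 * ((N : ℝ) / (N : ℝ) ^ (1 - 4 * τ) + 1)) ^ 2 =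
      B ^ 7 * ((N : ℝ) / (N : ℝ) ^ (1 - 4 * τ) + 1) ^ 2 := by ring
    rw [this]
    have h2 : ((N : ℝ) / (N : ℝ) ^ (1 - 4 * τ) + 1) ^ 2 ≤ (2 * (N : ℝ) ^ (4 * τ)) ^ 2 :=
      pow_le_pow_left₀ e5 e4 2
    calc B ^ 7 * ((N : ℝ) / (N : ℝ) ^ (1 - 4 * τ) + 1) ^ 2 ≤
          B ^ 7 * (2 * (N : ℝ) ^ (4 * τ)) ^ 2 := mul_le_mul_of_nonneg_left h2 (by positivity)
      _ = 4 * B ^ 7 * ((N : ℝ) ^ (4 * τ)) ^ 2 := by ring
  have g5 : (N : ℝ) / 4 ^ j ≤ 4 * (N : ℝ) ^ (1 - 199 / 2 * τ) := by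
    have f0 : (N : ℝ) ^ (1 - 199 / 2 * τ) = (N : ℝ) * (N : ℝ) ^ (-(199 * τ / 2)) := by
      conv_rhs => rw [← Real.rpow_one (N : ℝ)]
      rw [← Real.rpow_mul hx0.le, ← Real.rpow_add hx0]
      congr 1
      ring
    rw [f0, div_eq_mul_inv]
    have := mul_le_mul_of_nonneg_left hj4 hx0.le
    linarith
  have g6 : (N : ℝ) ^ (1 - 199 / 2 * τ) * ((N : ℝ) ^ (7 / 100 * τ) * ((N : ℝ) ^ (4 * τ)) ^ 2) ≤
      (N : ℝ) ^ (1 - τ) := by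
    rw [← Real.rpow_natCast ((N : ℝ) ^ (4 * τ)), ← Real.rpow_mul hx0.le, ← Real.rpow_add hx0,
      ← Real.rpow_add hx0]
    exact Real.rpow_le_rpow_of_exponent_le hx1 (by push_cast; linarith)
  have g7 : 3 * ((N : ℝ) / 4 ^ j) * (B * (B ^ 3 * ((N : ℝ) / (N : ℝ) ^ (1 - 4 * τ) + 1)) ^ 2) ≤
      48 * C ^ 7 * (N : ℝ) ^ (1 - τ) := by
    calc 3 * ((N : ℝ) / 4 ^ j) * (B * (B ^ 3 * ((N : ℝ) / (N : ℝ) ^ (1 - 4 * τ) + 1)) ^ 2)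
        ≤ 3 * (4 * (N : ℝ) ^ (1 - 199 / 2 * τ)) *
          (4 * (C ^ 7 * (N : ℝ) ^ (7 / 100 * τ)) * ((N : ℝ) ^ (4 * τ)) ^ 2) := by
          apply mul_le_mul _ g4 (by positivity) (by positivity)
          linarith
      _ = 48 * C ^ 7 *
          ((N : ℝ) ^ (1 - 199 / 2 * τ) * ((N : ℝ) ^ (7 / 100 * τ) * ((N : ℝ) ^ (4 * τ)) ^ 2)) := by
          ring
      _ ≤ 48 * C ^ 7 * (N : ℝ) ^ (1 - τ) := mul_le_mul_of_nonneg_left g6 (by positivity)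
  calc 6 * (S * (B ^ 5 * (B ^ 3 * ((N : ℝ) / (N : ℝ) ^ (1 - 4 * τ) + 1))) +
        3 * ((N : ℝ) / 4 ^ j) * (B * (B ^ 3 * ((N : ℝ) / (N : ℝ) ^ (1 - 4 * τ) + 1)) ^ 2))
      ≤ 6 * (16 / 3 * (1 + 1 / τ) * C ^ 8 * (N : ℝ) ^ (1 - τ) +
          48 * C ^ 7 * (N : ℝ) ^ (1 - τ)) := by linarith
    _ = 6 * (16 / 3 * (1 + 1 / τ) * C ^ 8 + 48 * C ^ 7) * (N : ℝ) ^ (1 - τ) := by ring

end WD
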