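import Pool.Agent.WD.D0

set_option autoImplicit false

open Finset
open scoped Classical

namespace WD

/-- [WD-2] (`n - 2 ≥ 1`) -/
theorem ff_pos {n : ℕ} (hn : 3 ≤ n) : 0 < ff n := by
  unfold ff
  have h1 : 0 < n := by omega
  have h2 : 0 < n - 1 := by omega
  have h3 : 0 < n - 2 := by omega
  positivity

theorem ff_le (n : ℕ) : ff n ≤ n ^ 3 := by
  unfold ff
  calc n * (n - 1) * (n - 2) ≤ n * n * n :=
        Nat.mul_le_mul (Nat.mul_le_mul le_rfl (Nat.sub_le _ _)) (Nat.sub_le _ _)
    _ = n ^ 3 := by ring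

theorem w2_mod {n m j : ℕ} (hj : j ≤ 2) (hjn : j ≤ n) (h : m ∣ n - j) : n % m ≤ 2 := by
  have h1 : n = (n - j) + j := by omega
  rw [h1, Nat.add_mod, Nat.mod_eq_zero_of_dvd h, zero_add, Nat.mod_mod]
  exact (Nat.mod_le _ _).trans hj

/-- [WD-2] an odd prime divides only one of `n, n-1, n-2`. -/
theorem mod_le {n q : ℕ} (hn : 3 ≤ n) (hq : q.Prime) (h2 : q ≠ 2) (hd : q ∣ ff n) :
    n % q ^ (ff n).factorization q ≤ 2 ∧ 3 ≤ q ^ (ff n).factorization q := by
  have hq3 : 3 ≤ q := by
    have := hq.two_le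
    omega
  have hff : ff n ≠ 0 := (ff_pos hn).ne'
  have hv : 1 ≤ (ff n).factorization q :=
    (hq.dvd_iff_one_le_factorization hff).1 hd
  refine ⟨?_, ?_⟩
  · have hfac : (ff n).factorization q =
        n.factorization q + (n - 1).factorization q + (n - 2).factorization q := by
      unfold ff
      rw [Nat.factorization_mul (Nat.mul_ne_zero (by omega) (by omega)) (by omega),
        Nat.factorization_mul (by omega) (by omega)]
      rfl
    have nd : ∀ a b : ℕ, q ∣ a → a < b → b - a ≤ 2 → ¬ q ∣ b := by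
      intro a b ha hab hb2 hb
      have := Nat.dvd_sub hb ha
      have := Nat.le_of_dvd (by omega) this
      omega
    have nd' : ∀ a b : ℕ, q ∣ b → a < b → b - a ≤ 2 → ¬ q ∣ a := by
      intro a b hb hab hb2 ha
      exact nd a b ha hab hb2 hb
    have hd' : q ∣ n ∨ q ∣ n - 1 ∨ q ∣ n - 2 := by
      unfold ff at hd
      rcases (hq.dvd_mul).1 hd with h | h
      · rcases (hq.dvd_mul).1 h with h | h
        · exact Or.inl h
        · exact Or.inr (Or.inl h)
      · exact Or.inr (Or.inr h)
    rcases hd' with h | h | h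
    · have e1 : (n - 1).factorization q = 0 :=
        Nat.factorization_eq_zero_of_not_dvd (nd' _ _ h (by omega) (by omega))
      have e2 : (n - 2).factorization q = 0 :=
        Nat.factorization_eq_zero_of_not_dvd (nd' _ _ h (by omega) (by omega))
      rw [hfac, e1, e2]
      simp only [add_zero]
      exact w2_mod (j := 0) (by omega) (by omega) (Nat.ordProj_dvd n q)
    · have e1 : n.factorization q = 0 :=
        Nat.factorization_eq_zero_of_not_dvd (nd _ _ h (by omega) (by omega))
      have e2 : (n - 2).factorization q = 0 :=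
        Nat.factorization_eq_zero_of_not_dvd (nd' _ _ h (by omega) (by omega))
      rw [hfac, e1, e2]
      simp only [add_zero, zero_add]
      exact w2_mod (j := 1) (by omega) (by omega) (Nat.ordProj_dvd (n - 1) q)
    · have e1 : n.factorization q = 0 :=
        Nat.factorization_eq_zero_of_not_dvd (nd _ _ h (by omega) (by omega))
      have e2 : (n - 1).factorization q = 0 :=
        Nat.factorization_eq_zero_of_not_dvd (nd _ _ h (by omega) (by omega))
      rw [hfac, e1, e2]
      simp only [zero_add]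
      exact w2_mod (j := 2) (by omega) (by omega) (Nat.ordProj_dvd (n - 2) q)
  · calc 3 ≤ q := hq3
      _ = q ^ 1 := (pow_one q).symm
      _ ≤ q ^ (ff n).factorization q := Nat.pow_le_pow_right (by omega) hv

/-- [WD-2] for a single power -/
theorem mod_le' {n q : ℕ} (hn : 3 ≤ n) (hq : q.Prime) (h2 : q ≠ 2) (hd : q ∣ ff n) :
    n % q ≤ 2 := by
  unfold ff at hd
  rcases (hq.dvd_mul).1 hd with h | h
  · rcases (hq.dvd_mul).1 h with h | h
    · exact w2_mod (j := 0) (by omega) (by omega) h
    · exact w2_mod (j := 1) (by omega) (by omega) h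
  · exact w2_mod (j := 2) (by omega) (by omega) h

/-- [WD-2] (`Nat.ModEq`-free form) if `x % m = a ≤ 2` then `m` divides `ff x` -/
theorem dvd_ff {x m : ℕ} (h : x % m ≤ 2) : m ∣ ff x := by
  have h1 : m ∣ x - x % m := Nat.dvd_sub_mod x
  unfold ff
  have h3 : x % m = 0 ∨ x % m = 1 ∨ x % m = 2 := by omega
  rcases h3 with h3 | h3 | h3
  · rw [h3, Nat.sub_zero] at h1
    exact Dvd.dvd.mul_right (Dvd.dvd.mul_right h1 _) _
  · rw [h3] at h1
    exact Dvd.dvd.mul_right (Dvd.dvd.mul_left h1 _) _
  · rw [h3] at h1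
    exact Dvd.dvd.mul_left h1 _

end WD
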