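import Pool.Agent.WD.W2

set_option autoImplicit false

open Finset
open scoped Classical

namespace WD

/-- [WD-4] symmetry -/
theorem Cov.swap {q x y z : ℕ} (h : Cov q x y z) : Cov q x z y := by
  intro i
  have h1 := h i
  have e : x + z + y = x + y + z := by ring
  rw [e]
  omega

theorem Cov.rot {q x y z : ℕ} (h : Cov q x y z) : Cov q y z x := by
  intro i
  have h1 := h i
  have e : y + z + x = x + y + z := by ring
  rw [e]
  omega

theorem w_QQ_congr {x y z x' y' z' : ℕ} (hs : x' + y' + z' = x + y + z)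
    (h : ∀ q, Cov q x' y' z' ↔ Cov q x y z) : WW x' y' z' = WW x y z := by
  unfold WW QQ
  rw [hs]
  refine Finset.prod_congr ?_ (fun _ _ => rfl)
  refine Finset.filter_congr (fun q _ => ?_)
  rw [h q]

theorem WW_swap (x y z : ℕ) : WW x z y = WW x y z :=
  w_QQ_congr (by ring) (fun _ => ⟨fun h => h.swap, fun h => h.swap⟩)

theorem WW_rot (x y z : ℕ) : WW y z x = WW x y z :=
  w_QQ_congr (by ring) (fun _ => ⟨fun h => h.rot.rot, fun h => h.rot⟩)

theorem w_one_le {n q : ℕ} (hq : q ∈ (ff n).primeFactors) :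
    1 ≤ q ^ (ff n).factorization q :=
  Nat.one_le_iff_ne_zero.mpr (pow_ne_zero _ (Nat.prime_of_mem_primeFactors hq).ne_zero)

theorem w_prod_union_le {f : ℕ → ℕ} (S A B : Finset ℕ) (hA : A ⊆ S) (hB : B ⊆ S)
    (hf : ∀ q ∈ S, 1 ≤ f q) :
    ∏ q ∈ A ∪ B, f q ≤ (∏ q ∈ A, f q) * ∏ q ∈ B, f q := by
  rw [← Finset.prod_union_inter]
  refine Nat.le_mul_of_pos_right _ ?_
  refine Finset.prod_pos (fun q hq => ?_)
  exact hf q (hA (Finset.mem_inter.mp hq).1)

/-- [WD-4] the three covered parts together contain the odd part of `ff n`.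
PROOF. `ff n = ∏ q ∈ primeFactors, q^v` (`Nat.factorization_prod_pow_eq_self`), the factor of `2` is `2^v_2` (`1` if `2` is not a prime factor), the others: `primeFactors.erase 2 ⊆ QQ₁ ∪ QQ₂ ∪ QQ₃`, and `∏ over a union ≤ product of the products` for factors `≥ 1` (`Finset.prod_le_prod_of_subset_of_one_le'`, `Finset.prod_union_inter`). -/
theorem ff_le_prod {n x₁ y₁ z₁ x₂ y₂ z₂ x₃ y₃ z₃ : ℕ} (hn : 3 ≤ n) (h1 : x₁ + y₁ + z₁ = n)
    (h2 : x₂ + y₂ + z₂ = n) (h3 : x₃ + y₃ + z₃ = n)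
    (hc : ∀ q : ℕ, q.Prime → q ≠ 2 → Cov q x₁ y₁ z₁ ∨ Cov q x₂ y₂ z₂ ∨ Cov q x₃ y₃ z₃) :
    ff n ≤ 2 ^ (ff n).factorization 2 * (WW x₁ y₁ z₁ * WW x₂ y₂ z₂ * WW x₃ y₃ z₃) := by
  have h0 : ff n ≠ 0 := (ff_pos hn).ne'
  have hW1 : WW x₁ y₁ z₁ = ∏ q ∈ QQ x₁ y₁ z₁, q ^ (ff n).factorization q := by
    unfold WW; rw [h1]
  have hW2 : WW x₂ y₂ z₂ = ∏ q ∈ QQ x₂ y₂ z₂, q ^ (ff n).factorization q := by
    unfold WW; rw [h2]
  have hW3 : WW x₃ y₃ z₃ = ∏ q ∈ QQ x₃ y₃ z₃, q ^ (ff n).factorization q := by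
    unfold WW; rw [h3]
  have hQ1 : QQ x₁ y₁ z₁ ⊆ (ff n).primeFactors := by
    unfold QQ; rw [h1]; exact Finset.filter_subset _ _
  have hQ2 : QQ x₂ y₂ z₂ ⊆ (ff n).primeFactors := by
    unfold QQ; rw [h2]; exact Finset.filter_subset _ _
  have hQ3 : QQ x₃ y₃ z₃ ⊆ (ff n).primeFactors := by
    unfold QQ; rw [h3]; exact Finset.filter_subset _ _
  have hprod : ff n = ∏ q ∈ (ff n).primeFactors, q ^ (ff n).factorization q := by
    conv_lhs => rw [← Nat.prod_factorization_pow_eq_self h0]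
    rfl
  have hsplit : ∏ q ∈ (ff n).primeFactors, q ^ (ff n).factorization q ≤
      2 ^ (ff n).factorization 2 * ∏ q ∈ (ff n).primeFactors.erase 2, q ^ (ff n).factorization q := by
    by_cases hm : 2 ∈ (ff n).primeFactors
    · rw [Finset.mul_prod_erase _ (fun q => q ^ (ff n).factorization q) hm]
    · rw [Finset.erase_eq_of_notMem hm]
      exact Nat.le_mul_of_pos_left _ (by positivity)
  have hsub : (ff n).primeFactors.erase 2 ⊆ QQ x₁ y₁ z₁ ∪ QQ x₂ y₂ z₂ ∪ QQ x₃ y₃ z₃ := by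
    intro q hq
    have hq1 := Finset.mem_erase.mp hq
    have hp := Nat.prime_of_mem_primeFactors hq1.2
    rw [Finset.mem_union, Finset.mem_union]
    rcases hc q hp hq1.1 with h | h | h
    · left; left
      unfold QQ; rw [h1]
      exact Finset.mem_filter.mpr ⟨hq1.2, hq1.1, h⟩
    · left; right
      unfold QQ; rw [h2]
      exact Finset.mem_filter.mpr ⟨hq1.2, hq1.1, h⟩
    · right
      unfold QQ; rw [h3]
      exact Finset.mem_filter.mpr ⟨hq1.2, hq1.1, h⟩
  have hone : ∀ q ∈ (ff n).primeFactors, 1 ≤ q ^ (ff n).factorization q := fun q hq => w_one_le hq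
  have hle : ∏ q ∈ (ff n).primeFactors.erase 2, q ^ (ff n).factorization q ≤
      ∏ q ∈ QQ x₁ y₁ z₁ ∪ QQ x₂ y₂ z₂ ∪ QQ x₃ y₃ z₃, q ^ (ff n).factorization q := by
    refine Finset.prod_le_prod_of_subset_of_one_le' hsub (fun q hq _ => ?_)
    refine hone q ?_
    exact (Finset.union_subset (Finset.union_subset hQ1 hQ2) hQ3) hq
  calc ff n = ∏ q ∈ (ff n).primeFactors, q ^ (ff n).factorization q := hprod
    _ ≤ _ := hsplit
    _ ≤ _ := by
      refine Nat.mul_le_mul_left _ (hle.trans ?_)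
      rw [hW1, hW2, hW3]
      refine (w_prod_union_le (f := fun q => q ^ (ff n).factorization q) (ff n).primeFactors _ _
        (Finset.union_subset hQ1 hQ2) hQ3 hone).trans ?_
      exact Nat.mul_le_mul_right _
        (w_prod_union_le (f := fun q => q ^ (ff n).factorization q) (ff n).primeFactors _ _
          hQ1 hQ2 hone)

/-- [WD-4] `WW` divides any number which is `0` modulo all the prime powers -/
theorem WW_dvd {x y z w : ℕ} (h : ∀ q ∈ QQ x y z, q ^ (ff (x + y + z)).factorization q ∣ w) :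
    WW x y z ∣ w := by
  unfold WW
  refine Finset.prod_dvd_of_isRelPrime ?_ h
  intro a ha b hb hab
  have hpa : a.Prime := Nat.prime_of_mem_primeFactors (Finset.mem_filter.mp ha).1
  have hpb : b.Prime := Nat.prime_of_mem_primeFactors (Finset.mem_filter.mp hb).1
  have hc : Nat.Coprime a b := (Nat.coprime_primes hpa hpb).mpr hab
  exact Nat.coprime_iff_isRelPrime.mp (hc.pow _ _)

end WD
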