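import Pool.Agent.WD.D0

set_option autoImplicit false

open Finset
open scoped Classical

namespace WD

theorem w6_mod (s k : ℕ) : s % 2 ^ (k + 1) = s % 2 + 2 * (s / 2 % 2 ^ k) := by
  rw [pow_succ, mul_comm (2 ^ k) 2]
  exact Nat.mod_mul

/-- [WD-6] the number of pairs without carries.
PROOF. Induction on `d`: `(s, t) = (s₀ + 2 s', t₀ + 2 t')` with `(s₀, t₀) ∈ {(0,0), (1,0), (0,1)}` (condition for `2^1`) and `(s', t')` again without carries (`s % 2^(k+1) = s₀ + 2 (s' % 2^k)`). Only `≤` is needed. -/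
theorem card_pairs (d : ℕ) :
    ((range (2 ^ d) ×ˢ range (2 ^ d)).filter
      (fun p => ∀ k ≤ d, p.1 % 2 ^ k + p.2 % 2 ^ k < 2 ^ k)).card ≤ 3 ^ d := by
  induction d with
  | zero =>
    refine (Finset.card_filter_le _ _).trans ?_
    simp
  | succ d ih =>
    set S := (range (2 ^ d) ×ˢ range (2 ^ d)).filter
      (fun p => ∀ k ≤ d, p.1 % 2 ^ k + p.2 % 2 ^ k < 2 ^ k) with hS
    have hcard : (({(0, 0), (1, 0), (0, 1)} : Finset (ℕ × ℕ)) ×ˢ S).card ≤ 3 ^ (d + 1) := by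
      rw [Finset.card_product]
      have h3 : ({(0, 0), (1, 0), (0, 1)} : Finset (ℕ × ℕ)).card ≤ 3 := Finset.card_le_three
      calc _ ≤ 3 * 3 ^ d := Nat.mul_le_mul h3 ih
        _ = 3 ^ (d + 1) := by ring
    refine le_trans (Finset.card_le_card_of_injOn
      (fun p : ℕ × ℕ => ((p.1 % 2, p.2 % 2), (p.1 / 2, p.2 / 2))) ?_ ?_) hcard
    · rintro ⟨s, t⟩ hp
      have hp' := Finset.mem_filter.1 (Finset.mem_coe.1 hp)
      obtain ⟨hm, hk⟩ := hp'
      have hm' := Finset.mem_product.1 hm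
      have hs : s < 2 ^ (d + 1) := Finset.mem_range.1 hm'.1
      have ht : t < 2 ^ (d + 1) := Finset.mem_range.1 hm'.2
      apply Finset.mem_coe.2
      refine Finset.mem_product.2 ⟨?_, ?_⟩
      · have h1 := hk 1 (by omega)
        simp only [pow_one] at h1
        have e1 : s % 2 = 0 ∨ s % 2 = 1 := Nat.mod_two_eq_zero_or_one s
        have e2 : t % 2 = 0 ∨ t % 2 = 1 := Nat.mod_two_eq_zero_or_one t
        show (s % 2, t % 2) ∈ ({(0, 0), (1, 0), (0, 1)} : Finset (ℕ × ℕ))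
        rcases e1 with e1 | e1 <;> rcases e2 with e2 | e2 <;> rw [e1, e2] at h1 ⊢
        · simp
        · simp
        · simp
        · omega
      · show (s / 2, t / 2) ∈ S
        rw [hS]
        refine Finset.mem_filter.2 ⟨Finset.mem_product.2 ⟨?_, ?_⟩, ?_⟩
        · refine Finset.mem_range.2 ?_
          show s / 2 < 2 ^ d
          rw [pow_succ] at hs
          omega
        · refine Finset.mem_range.2 ?_
          show t / 2 < 2 ^ d
          rw [pow_succ] at ht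
          omega
        · intro k hkd
          show s / 2 % 2 ^ k + t / 2 % 2 ^ k < 2 ^ k
          have h1 := hk (k + 1) (by omega)
          simp only at h1
          rw [w6_mod, w6_mod, pow_succ] at h1
          omega
    · rintro ⟨s, t⟩ _ ⟨s', t'⟩ _ h
      simp only [Prod.mk.injEq] at h
      obtain ⟨⟨h1, h2⟩, h3, h4⟩ := h
      refine Prod.ext ?_ ?_
      · show s = s'
        omega
      · show t = t'
        omega

/-- the three numbers `b, b', b + b'`: two are odd, one is `2^d` times an odd number -/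
def Val (d b b' : ℕ) : Prop := 1 ≤ d ∧
  ((Odd b ∧ ∃ g, Odd g ∧ b' = 2 ^ d * g) ∨ (Odd b' ∧ ∃ g, Odd g ∧ b = 2 ^ d * g) ∨
    (Odd b ∧ Odd b' ∧ ∃ g, Odd g ∧ b + b' = 2 ^ d * g))

theorem w6_cancel {g a v v' n : ℕ} (hg : Odd g) (h : (a + g * v) % 2 ^ n = (a + g * v') % 2 ^ n) :
    v ≡ v' [MOD 2 ^ n] := by
  have h1 : g * v ≡ g * v' [MOD 2 ^ n] := Nat.ModEq.add_left_cancel' a h
  refine Nat.ModEq.cancel_left_of_coprime ?_ h1
  exact Nat.Coprime.pow_left n (Nat.coprime_two_left.2 hg)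

theorem w6_final {d b A v v' : ℕ} (hb : Odd b) (hv : v < 2 ^ (2 * d)) (hv' : v' < 2 ^ (2 * d))
    (h1 : v ≡ v' [MOD 2 ^ d])
    (h2 : (A + b * v) / 2 ^ d % 2 ^ d = (A + b * v') / 2 ^ d % 2 ^ d) : v = v' := by
  have h3 : (A + b * v) % 2 ^ d = (A + b * v') % 2 ^ d :=
    Nat.ModEq.add_left A (Nat.ModEq.mul_left b h1)
  have h4 : (A + b * v) % 2 ^ (2 * d) = (A + b * v') % 2 ^ (2 * d) := by
    rw [two_mul, pow_add, Nat.mod_mul, Nat.mod_mul, h3, h2]
  have h5 : v ≡ v' [MOD 2 ^ (2 * d)] := w6_cancel hb h4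
  exact Nat.ModEq.eq_of_lt_of_lt h5 hv hv'

/-- [WD-6] one block of `2d` binary digits.
PROOF. `v = v₁ + 2^d v₂`, `v₁, v₂ < 2^d`. First case (`b` odd, `b' = 2^d g`): `s = A + b v`, `t = A' + b' v`. The binary digits `d..2d-1` of `t` form the number `t₁ = (A'/2^d + g v₁) % 2^d` (`b' v = 2^d (g v₁) + 2^(2d) (..)`), a bijective function of `v₁ ∈ [0, 2^d)` (`g` odd, injective on `range (2^d)`);
those of `s` form `s₁ = ((A + b v₁)/2^d + b v₂) % 2^d`, for fixed `v₁` a bijective function of `v₂`. No carries for `s, t` in the first `2d` digits implies no carries for `s₁, t₁` (`(s % 2^(d+k)) / 2^d = s₁ % 2^k`). So `v ↦ (s₁, t₁)` is injective into the set of `card_pairs d`. The second case is symmetric.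
Third case (`b, b'` odd, `b + b' = 2^d g`): `w = s + t = (A + A') + 2^d g v`; digits `d..2d-1` of `w`: `w₁ = ((A + A')/2^d + g v₁) % 2^d`, bijective in `v₁`; as there are no carries `w₁ = s₁ + t₁`. So `v ↦ (s₁, w₁)` is injective and `(s₁, w₁ - s₁) = (s₁, t₁)` is in the set of `card_pairs d`: also `v ↦ (s₁, t₁)` is injective. -/
theorem block {d b b' : ℕ} (h : Val d b b') (A A' : ℕ) :
    ((range (2 ^ (2 * d))).filter
      (fun v => ∀ k ≤ 2 * d, (A + b * v) % 2 ^ k + (A' + b' * v) % 2 ^ k < 2 ^ k)).card ≤ 3 ^ d := by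
  have hpos : 0 < 2 ^ d := by positivity
  refine le_trans (Finset.card_le_card_of_injOn
    (fun v : ℕ => ((A + b * v) / 2 ^ d % 2 ^ d, (A' + b' * v) / 2 ^ d % 2 ^ d)) ?_ ?_)
    (card_pairs d)
  · intro v hv
    have hv' := Finset.mem_filter.1 (Finset.mem_coe.1 hv)
    obtain ⟨hm, hk⟩ := hv'
    apply Finset.mem_coe.2
    refine Finset.mem_filter.2 ⟨Finset.mem_product.2
      ⟨Finset.mem_range.2 (Nat.mod_lt _ hpos), Finset.mem_range.2 (Nat.mod_lt _ hpos)⟩, ?_⟩
    intro k hkd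
    show (A + b * v) / 2 ^ d % 2 ^ d % 2 ^ k + (A' + b' * v) / 2 ^ d % 2 ^ d % 2 ^ k < 2 ^ k
    have hdvd : 2 ^ k ∣ 2 ^ d := pow_dvd_pow 2 hkd
    rw [Nat.mod_mod_of_dvd _ hdvd, Nat.mod_mod_of_dvd _ hdvd]
    have h1 := hk (d + k) (by omega)
    rw [pow_add, Nat.mod_mul, Nat.mod_mul] at h1
    have h2 : 2 ^ d * ((A + b * v) / 2 ^ d % 2 ^ k + (A' + b' * v) / 2 ^ d % 2 ^ k) <
        2 ^ d * 2 ^ k := by
      rw [mul_add]
      omega
    exact lt_of_mul_lt_mul_left h2 (Nat.zero_le _)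
  · intro v hv v' hv' he
    have hf := Finset.mem_filter.1 (Finset.mem_coe.1 hv)
    have hf' := Finset.mem_filter.1 (Finset.mem_coe.1 hv')
    have hlt := Finset.mem_range.1 hf.1
    have hlt' := Finset.mem_range.1 hf'.1
    have he' : (A + b * v) / 2 ^ d % 2 ^ d = (A + b * v') / 2 ^ d % 2 ^ d ∧
        (A' + b' * v) / 2 ^ d % 2 ^ d = (A' + b' * v') / 2 ^ d % 2 ^ d := Prod.ext_iff.1 he
    obtain ⟨es, et⟩ := he'
    obtain ⟨-, hval⟩ := h
    rcases hval with ⟨hb, g, hg, rfl⟩ | ⟨hb', g, hg, rfl⟩ | ⟨hb, hb', g, hg, hsum⟩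
    · have e : ∀ u : ℕ, (A' + 2 ^ d * g * u) / 2 ^ d = A' / 2 ^ d + g * u := by
        intro u
        rw [mul_assoc, Nat.add_mul_div_left _ _ hpos]
      rw [e, e] at et
      exact w6_final hb hlt hlt' (w6_cancel hg et) es
    · have e : ∀ u : ℕ, (A + 2 ^ d * g * u) / 2 ^ d = A / 2 ^ d + g * u := by
        intro u
        rw [mul_assoc, Nat.add_mul_div_left _ _ hpos]
      rw [e, e] at es
      exact w6_final hb' hlt hlt' (w6_cancel hg es) et
    · -- no carries at `2^d`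
      have key : ∀ u : ℕ, (A + b * u) % 2 ^ d + (A' + b' * u) % 2 ^ d < 2 ^ d →
          (A + b * u) / 2 ^ d + (A' + b' * u) / 2 ^ d = (A + A') / 2 ^ d + g * u := by
        intro u hu
        have e1 : (A + b * u) + (A' + b' * u) = (A + A') + 2 ^ d * (g * u) := by
          calc (A + b * u) + (A' + b' * u) = (A + A') + (b + b') * u := by ring
            _ = (A + A') + 2 ^ d * (g * u) := by rw [hsum]; ring
        have e2 : (A + A' + 2 ^ d * (g * u)) / 2 ^ d = (A + A') / 2 ^ d + g * u :=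
          Nat.add_mul_div_left _ _ hpos
        have e3 := Nat.add_div (a := A + b * u) (b := A' + b' * u) hpos
        rw [if_neg (not_le.2 hu), add_zero] at e3
        rw [← e2, ← e1, e3]
      have k1 := key v (hf.2 d (by omega))
      have k2 := key v' (hf'.2 d (by omega))
      have e3 : ((A + A') / 2 ^ d + g * v) % 2 ^ d = ((A + A') / 2 ^ d + g * v') % 2 ^ d := by
        rw [← k1, ← k2, Nat.add_mod, es, et, ← Nat.add_mod]
      exact w6_final hb hlt hlt' (w6_cancel hg e3) es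

end WD
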