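import Pool.Agent.WD.W2

set_option autoImplicit false

open Finset
open scoped Classical

namespace WD

/-- [WD-8] numbers in a class: a finite set of naturals `≤ L` (real `L ≥ 0`), all congruent modulo `m ≥ 1`, has at most `L/m + 1` elements.
PROOF. Let `u₀` be the least element; `u ↦ (u - u₀)/m` is injective into `range (⌊L/m⌋₊ + 1)`. -/
theorem card_class {S : Finset ℕ} {m : ℕ} (hm : 0 < m) {L : ℝ} (hL : 0 ≤ L)
    (h1 : ∀ u ∈ S, (u : ℝ) ≤ L) (h2 : ∀ u ∈ S, ∀ v ∈ S, (m : ℤ) ∣ (u : ℤ) - v) :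
    (S.card : ℝ) ≤ L / m + 1 := by
  have hmR : (0 : ℝ) < m := by exact_mod_cast hm
  have h3 : S.card ≤ (range (⌊L / m⌋₊ + 1)).card := by
    refine card_le_card_of_injOn (fun u => u / m) ?_ ?_
    · intro u hu
      have hu' : u ∈ S := hu
      simp only [coe_range, Set.mem_Iio]
      have h4 : ((u / m : ℕ) : ℝ) ≤ L / m := by
        refine le_trans Nat.cast_div_le ?_
        exact div_le_div_of_nonneg_right (h1 u hu') hmR.le
      have h5 : u / m ≤ ⌊L / m⌋₊ := Nat.le_floor h4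
      omega
    · intro u hu v hv huv
      have hu' : u ∈ S := hu
      have hv' : v ∈ S := hv
      simp only at huv
      have h6 : u % m = v % m := by
        have h7 := h2 v hv' u hu'
        exact (Nat.modEq_iff_dvd.mpr h7)
      rw [← Nat.mod_add_div u m, ← Nat.mod_add_div v m, h6, huv]
  rw [card_range] at h3
  calc (S.card : ℝ) ≤ ((⌊L / m⌋₊ + 1 : ℕ) : ℝ) := by exact_mod_cast h3
    _ = (⌊L / m⌋₊ : ℝ) + 1 := by push_cast; ring
    _ ≤ L / m + 1 := by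
      have := Nat.floor_le (div_nonneg hL hmR.le)
      linarith

theorem w8_ff_int (z : ℕ) : (ff z : ℤ) = (z : ℤ) * ((z : ℤ) - 1) * ((z : ℤ) - 2) := by
  unfold ff
  match z with
  | 0 => simp
  | 1 => simp
  | (n + 2) =>
    have h1 : n + 2 - 1 = n + 1 := by omega
    have h2 : n + 2 - 2 = n := by omega
    rw [h1, h2]
    push_cast
    ring

/-- [WD-8] helper: two solutions with the same gcd data are congruent. -/
theorem w8_cong {W : ℕ} (hW : Odd W) {z z' : ℕ} (hz : W ∣ ff z)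
    (e0 : Int.gcd (z : ℤ) W = Int.gcd (z' : ℤ) W)
    (e1 : Int.gcd ((z : ℤ) - 1) W = Int.gcd ((z' : ℤ) - 1) W)
    (e2 : Int.gcd ((z : ℤ) - 2) W = Int.gcd ((z' : ℤ) - 2) W) :
    (W : ℤ) ∣ (z : ℤ) - z' := by
  have hW0 : W ≠ 0 := by
    rintro rfl
    simp at hW
  obtain ⟨w0, h0⟩ : ∃ w, w = Int.gcd (z : ℤ) W := ⟨_, rfl⟩
  obtain ⟨w1, h1⟩ : ∃ w, w = Int.gcd ((z : ℤ) - 1) W := ⟨_, rfl⟩
  obtain ⟨w2, h2⟩ : ∃ w, w = Int.gcd ((z : ℤ) - 2) W := ⟨_, rfl⟩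
  have d0 : (w0 : ℤ) ∣ (z : ℤ) := by rw [h0]; exact Int.gcd_dvd_left _ _
  have d0' : (w0 : ℤ) ∣ (z' : ℤ) := by rw [h0, e0]; exact Int.gcd_dvd_left _ _
  have d1 : (w1 : ℤ) ∣ (z : ℤ) - 1 := by rw [h1]; exact Int.gcd_dvd_left _ _
  have d1' : (w1 : ℤ) ∣ (z' : ℤ) - 1 := by rw [h1, e1]; exact Int.gcd_dvd_left _ _
  have d2 : (w2 : ℤ) ∣ (z : ℤ) - 2 := by rw [h2]; exact Int.gcd_dvd_left _ _
  have d2' : (w2 : ℤ) ∣ (z' : ℤ) - 2 := by rw [h2, e2]; exact Int.gcd_dvd_left _ _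
  have w2W : w2 ∣ W := by
    have : (w2 : ℤ) ∣ (W : ℤ) := by rw [h2]; exact Int.gcd_dvd_right _ _
    exact_mod_cast this
  have w0W : w0 ∣ W := by
    have : (w0 : ℤ) ∣ (W : ℤ) := by rw [h0]; exact Int.gcd_dvd_right _ _
    exact_mod_cast this
  have f0 : (w0 : ℤ) ∣ (z : ℤ) - z' := dvd_sub d0 d0'
  have f1 : (w1 : ℤ) ∣ (z : ℤ) - z' := by
    have := dvd_sub d1 d1'
    have e : (z : ℤ) - 1 - ((z' : ℤ) - 1) = (z : ℤ) - z' := by ring
    rwa [e] at this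
  have f2 : (w2 : ℤ) ∣ (z : ℤ) - z' := by
    have := dvd_sub d2 d2'
    have e : (z : ℤ) - 2 - ((z' : ℤ) - 2) = (z : ℤ) - z' := by ring
    rwa [e] at this
  have c01 : IsCoprime (w0 : ℤ) (w1 : ℤ) := by
    have h : IsCoprime (z : ℤ) ((z : ℤ) - 1) := ⟨1, -1, by ring⟩
    exact (h.of_isCoprime_of_dvd_left d0).of_isCoprime_of_dvd_right d1
  have c12 : IsCoprime (w1 : ℤ) (w2 : ℤ) := by
    have h : IsCoprime ((z : ℤ) - 1) ((z : ℤ) - 2) := ⟨1, -1, by ring⟩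
    exact (h.of_isCoprime_of_dvd_left d1).of_isCoprime_of_dvd_right d2
  have c02 : IsCoprime (w0 : ℤ) (w2 : ℤ) := by
    rw [Nat.isCoprime_iff_coprime]
    have ho : Nat.Coprime w0 2 := by
      rw [Nat.coprime_two_right]
      exact Odd.of_dvd_nat hW w0W
    have hg : Nat.gcd w0 w2 ∣ 2 := by
      have g1 : ((Nat.gcd w0 w2 : ℕ) : ℤ) ∣ (z : ℤ) :=
        (Int.natCast_dvd_natCast.mpr (Nat.gcd_dvd_left _ _)).trans d0
      have g2 : ((Nat.gcd w0 w2 : ℕ) : ℤ) ∣ (z : ℤ) - 2 :=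
        (Int.natCast_dvd_natCast.mpr (Nat.gcd_dvd_right _ _)).trans d2
      have g3 := dvd_sub g1 g2
      have e : (z : ℤ) - ((z : ℤ) - 2) = ((2 : ℕ) : ℤ) := by push_cast; ring
      rw [e] at g3
      exact_mod_cast g3
    exact Nat.eq_one_of_dvd_coprimes ho (Nat.gcd_dvd_left _ _) hg
  have hprod : ((w0 : ℤ) * w1) * w2 ∣ (z : ℤ) - z' :=
    (IsCoprime.mul_left c02 c12).mul_dvd (c01.mul_dvd f0 f1) f2
  refine dvd_trans ?_ hprod
  have hz' : (W : ℤ) ∣ (z : ℤ) * ((z : ℤ) - 1) * ((z : ℤ) - 2) := by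
    rw [← w8_ff_int]; exact_mod_cast hz
  have hn : W ∣ (z : ℤ).natAbs * ((z : ℤ) - 1).natAbs * ((z : ℤ) - 2).natAbs := by
    have := Int.natAbs_dvd_natAbs.mpr hz'
    rw [Int.natAbs_mul, Int.natAbs_mul, Int.natAbs_natCast] at this
    exact this
  have hn2 : W ∣ Nat.gcd W (z : ℤ).natAbs * Nat.gcd W ((z : ℤ) - 1).natAbs * Nat.gcd W ((z : ℤ) - 2).natAbs := by
    have k2 : W ∣ Nat.gcd W ((z : ℤ).natAbs * ((z : ℤ) - 1).natAbs) *
        Nat.gcd W ((z : ℤ) - 2).natAbs := Nat.dvd_gcd_mul_gcd_iff_dvd_mul.mpr hn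
    exact k2.trans (Nat.mul_dvd_mul_right (Nat.gcd_mul_right_dvd_mul_gcd _ _ _) _)
  have t0 : w0 = Nat.gcd W (z : ℤ).natAbs := by rw [h0, Int.gcd_comm]; rfl
  have t1 : w1 = Nat.gcd W ((z : ℤ) - 1).natAbs := by rw [h1, Int.gcd_comm]; rfl
  have t2 : w2 = Nat.gcd W ((z : ℤ) - 2).natAbs := by rw [h2, Int.gcd_comm]; rfl
  rw [← t0, ← t1, ← t2] at hn2
  exact_mod_cast hn2

/-- [WD-8] the solutions of `W ∣ z (z-1) (z-2)`, `W` odd.
PROOF. In `ℤ`: `(ff z : ℤ) = z (z-1) (z-2)` (also for `z ≤ 2`). The map `z ↦ (gcd(W, z), gcd(W, z-1), gcd(W, z-2))` (`Int.gcd`) goes into `divisors W` cubed (`B^3` values). In a fibre, with values `(w₀, w₁, w₂)`: pairwise coprime (`W` odd), `W ∣ w₀ w₁ w₂` (`W ∣ gcd(W,a) gcd(W,b) gcd(W,c)` if `W ∣ a b c`: `Nat.dvd_gcd_mul_of_dvd_mul` twice, or `dvd_gcd_mul_of_dvd_mul`),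
each `w_i` divides `z - z'`, so `W ∣ z - z'`: `card_class`. Sum over the fibres (`Finset.card_eq_sum_card_fiberwise`, or `Finset.card_le_mul_card_image`). -/
theorem zcount {W N : ℕ} (hW : Odd W) {B : ℝ} (hB : (W.divisors.card : ℝ) ≤ B) :
    (((range (N + 1)).filter (fun z => W ∣ ff z)).card : ℝ) ≤ B ^ 3 * (N / W + 1) := by
  have hW0 : W ≠ 0 := by
    rintro rfl
    simp at hW
  have hWp : 0 < W := Nat.pos_of_ne_zero hW0
  have hWR : (0 : ℝ) < W := by exact_mod_cast hWp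
  set S := (range (N + 1)).filter (fun z => W ∣ ff z) with hS
  let f : ℕ → ℕ × ℕ × ℕ := fun z =>
    (Int.gcd (z : ℤ) W, Int.gcd ((z : ℤ) - 1) W, Int.gcd ((z : ℤ) - 2) W)
  set T := W.divisors ×ˢ W.divisors ×ˢ W.divisors with hT
  have hmaps : ∀ z ∈ S, f z ∈ T := by
    intro z _
    have aux : ∀ a : ℤ, Int.gcd a W ∈ W.divisors := by
      intro a
      rw [Nat.mem_divisors]
      refine ⟨?_, hW0⟩
      have : ((Int.gcd a W : ℕ) : ℤ) ∣ (W : ℤ) := Int.gcd_dvd_right _ _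
      exact_mod_cast this
    simp only [hT, f, mem_product]
    exact ⟨aux _, aux _, aux _⟩
  have hcard : (S.card : ℝ) = ∑ b ∈ T, ((S.filter (fun z => f z = b)).card : ℝ) := by
    rw [card_eq_sum_card_fiberwise hmaps]
    push_cast
    rfl
  have hfib : ∀ b ∈ T, ((S.filter (fun z => f z = b)).card : ℝ) ≤ N / W + 1 := by
    intro b _
    refine card_class hWp (Nat.cast_nonneg N) ?_ ?_
    · intro u hu
      rw [mem_filter, hS, mem_filter, mem_range] at hu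
      have : u ≤ N := by omega
      exact_mod_cast this
    · intro u hu v hv
      rw [mem_filter, hS, mem_filter, mem_range] at hu hv
      have h1 := hu.2
      rw [← hv.2] at h1
      simp only [f, Prod.mk.injEq] at h1
      exact w8_cong hW hu.1.2 h1.1 h1.2.1 h1.2.2
  rw [hcard]
  have hnn : (0 : ℝ) ≤ N / W + 1 := by positivity
  calc ∑ b ∈ T, ((S.filter (fun z => f z = b)).card : ℝ) ≤ ∑ _b ∈ T, ((N : ℝ) / W + 1) :=
        sum_le_sum hfib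
    _ = T.card * ((N : ℝ) / W + 1) := by rw [sum_const, nsmul_eq_mul]
    _ = (W.divisors.card : ℝ) ^ 3 * ((N : ℝ) / W + 1) := by
      rw [hT, card_product, card_product]; push_cast; ring
    _ ≤ B ^ 3 * (N / W + 1) := by
      refine mul_le_mul_of_nonneg_right ?_ hnn
      exact pow_le_pow_left₀ (Nat.cast_nonneg _) hB 3

/-- [WD-8] -/
theorem DB.ff_div {B : ℝ} {N n W : ℕ} (h : DB B N) (h3 : 3 ≤ n) (hn : n ≤ N) (hd : W ∣ ff n) :
    1 ≤ W ∧ W ≤ N ^ 3 ∧ (W.divisors.card : ℝ) ≤ B := by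
  have hpos : 0 < ff n := ff_pos h3
  have hW1 : 1 ≤ W := Nat.pos_of_dvd_of_pos hd hpos
  have hW2 : W ≤ N ^ 3 := by
    calc W ≤ ff n := Nat.le_of_dvd hpos hd
      _ ≤ n ^ 3 := ff_le n
      _ ≤ N ^ 3 := Nat.pow_le_pow_left hn 3
  exact ⟨hW1, hW2, h.2 W hW1 (by omega)⟩

/-- [WD-8] PROOF. `ff n ≤ n^3 ≤ 4 N^3`. -/
theorem DB.ff_card {B : ℝ} {N n : ℕ} (h : DB B N) (h3 : 3 ≤ n) (hn : n ≤ N) :
    ((ff n).divisors.card : ℝ) ≤ B := (h.ff_div h3 hn dvd_rfl).2.2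

end WD
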