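import Pool.Agent.WD.W8

set_option autoImplicit false

open Finset
open scoped Classical

namespace WD

/-- the divisors allowed for the moduli of the types `k ≠ k0`, for given `Y, Z` -/
noncomputable def dset (k0 : Fin 6) (Y Z : ℕ) (k : Fin 6) : Finset ℕ :=
  if k = k0 then {1} else
    ((((pr k).2 : ℤ) - (pr k0).2) * Y - (((pr k).1 : ℤ) - (pr k0).1) * Z).natAbs.divisors

/-- [WD-9] PROOF. `x = a + D Y`, `y = b + D Z`, `D = M k0`, `(a, b) = pr k0`, `Δ = (p₂ - b) Y - (p₁ - a) Z` for `pr k = (p₁, p₂)`. `D Δ = (p₂ - b)(x - a) - (p₁ - a)(y - b) ≠ 0` (`nd`), and `M k ∣ D Δ`: `x - a ≡ p₁ - a`, `y - b ≡ p₂ - b` modulo `M k`. `M k` is coprime to `D`, so `M k ∣ Δ ≠ 0`. -/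
theorem mem_dset {R : ℝ} {k0 : Fin 6} {x y z Y Z : ℕ} {M : Fin 6 → ℕ}
    (h : Core R k0 x y z M) (hx : x = (pr k0).1 + M k0 * Y) (hy : y = (pr k0).2 + M k0 * Z) :
    Function.update M k0 1 ∈ Fintype.piFinset (dset k0 Y Z) := by
  rw [Fintype.mem_piFinset]
  intro k
  by_cases hk : k = k0
  · subst hk
    simp [dset]
  · have hd : dset k0 Y Z k =
      ((((pr k).2 : ℤ) - (pr k0).2) * Y - (((pr k).1 : ℤ) - (pr k0).1) * Z).natAbs.divisors := by
      unfold dset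
      rw [if_neg hk]
    rw [hd, Function.update_of_ne hk]
    have hxz : (x : ℤ) = (pr k0).1 + M k0 * Y := by
      rw [hx]; push_cast; ring
    have hyz : (y : ℤ) = (pr k0).2 + M k0 * Z := by
      rw [hy]; push_cast; ring
    have hnd := h.nd.2.2 k hk
    have key : (M k0 : ℤ) * ((((pr k).2 : ℤ) - (pr k0).2) * Y - (((pr k).1 : ℤ) - (pr k0).1) * Z)
        = (((pr k).2 : ℤ) - (pr k0).2) * ((x : ℤ) - (pr k0).1)
          - (((pr k).1 : ℤ) - (pr k0).1) * ((y : ℤ) - (pr k0).2) := by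
      rw [hxz, hyz]; ring
    have key2 : (M k0 : ℤ) * ((((pr k).2 : ℤ) - (pr k0).2) * Y - (((pr k).1 : ℤ) - (pr k0).1) * Z)
        = (((pr k).2 : ℤ) - (pr k0).2) * ((x : ℤ) - (pr k).1)
          - (((pr k).1 : ℤ) - (pr k0).1) * ((y : ℤ) - (pr k).2) := by
      rw [hxz, hyz]; ring
    have hne : (((pr k).2 : ℤ) - (pr k0).2) * Y - (((pr k).1 : ℤ) - (pr k0).1) * Z ≠ 0 := by
      intro h0
      rw [h0, mul_zero] at key
      exact hnd (sub_eq_zero.mp key.symm)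
    have hdvd : (M k : ℤ) ∣
        (M k0 : ℤ) * ((((pr k).2 : ℤ) - (pr k0).2) * Y - (((pr k).1 : ℤ) - (pr k0).1) * Z) := by
      rw [key2]
      exact dvd_sub (Dvd.dvd.mul_left (h.str.d1 k) _) (Dvd.dvd.mul_left (h.str.d2 k) _)
    have hcop : IsCoprime (M k : ℤ) (M k0 : ℤ) :=
      Nat.isCoprime_iff_coprime.mpr (h.str.cop k k0 hk)
    have hfin : (M k : ℤ) ∣
        ((((pr k).2 : ℤ) - (pr k0).2) * Y - (((pr k).1 : ℤ) - (pr k0).1) * Z) :=
      hcop.dvd_of_dvd_mul_left hdvd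
    rw [Nat.mem_divisors]
    refine ⟨?_, ?_⟩
    · have := Int.natAbs_dvd_natAbs.mpr hfin
      simpa using this
    · exact Int.natAbs_ne_zero.mpr hne

/-- [WD-9] PROOF. `Fintype.card_piFinset`; the factor of `k0` is `1`, the others are at most `B`: `|Δ| ≤ 2Y + 2Z ≤ 4 N^3` (if `Δ = 0` the set is empty, `0 ≤ B`). `∏ over Fin 6 ≤ B^5`: `Finset.prod_erase_mul`/`Fin.prod_univ_succ` after `fin_cases k0`, or `Finset.prod_le_pow_card` on `univ.erase k0`. -/
theorem card_dset {N : ℕ} {B : ℝ} (hB : DB B N) (hN : 1 ≤ N) (k0 : Fin 6) {Y Z : ℕ}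
    (hY : 0 < Y) (hZ : 0 < Z) (hYZ : Y + Z ≤ N) :
    ((Fintype.piFinset (dset k0 Y Z)).card : ℝ) ≤ B ^ 5 := by
  have hB0 : (0 : ℝ) ≤ B := le_trans zero_le_one hB.1
  rw [Fintype.card_piFinset]
  push_cast
  rw [← Finset.mul_prod_erase Finset.univ _ (Finset.mem_univ k0)]
  have h0 : ((dset k0 Y Z k0).card : ℝ) = 1 := by simp [dset]
  rw [h0, one_mul]
  have hpr : ∀ k : Fin 6, (pr k).1 ≤ 2 ∧ (pr k).2 ≤ 2 := by
    intro k; fin_cases k <;> simp [pr]
  have hle : ∀ k ∈ Finset.univ.erase k0, ((dset k0 Y Z k).card : ℝ) ≤ B := by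
    intro k hk
    have hk' : k ≠ k0 := Finset.ne_of_mem_erase hk
    have hd : dset k0 Y Z k =
      ((((pr k).2 : ℤ) - (pr k0).2) * Y - (((pr k).1 : ℤ) - (pr k0).1) * Z).natAbs.divisors := by
      unfold dset
      rw [if_neg hk']
    rw [hd]
    set Δ : ℤ := (((pr k).2 : ℤ) - (pr k0).2) * Y - (((pr k).1 : ℤ) - (pr k0).1) * Z with hΔ
    by_cases hz : Δ.natAbs = 0
    · rw [hz]; simpa using hB0
    · refine hB.2 _ (Nat.one_le_iff_ne_zero.mpr hz) ?_
      have h1 := hpr k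
      have h2 := hpr k0
      have e1 : |(((pr k).2 : ℤ) - (pr k0).2)| ≤ 2 := by
        rw [abs_le]; constructor <;> omega
      have e2 : |(((pr k).1 : ℤ) - (pr k0).1)| ≤ 2 := by
        rw [abs_le]; constructor <;> omega
      have e3 : |Δ| ≤ 2 * Y + 2 * Z := by
        calc |Δ| ≤ |(((pr k).2 : ℤ) - (pr k0).2) * Y| + |(((pr k).1 : ℤ) - (pr k0).1) * Z| := by
              rw [hΔ]; exact abs_sub _ _
          _ = |(((pr k).2 : ℤ) - (pr k0).2)| * Y + |(((pr k).1 : ℤ) - (pr k0).1)| * Z := by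
              rw [abs_mul, abs_mul]; simp
          _ ≤ 2 * Y + 2 * Z := by
              have hY' : (0 : ℤ) ≤ Y := Int.natCast_nonneg _
              have hZ' : (0 : ℤ) ≤ Z := Int.natCast_nonneg _
              nlinarith [mul_le_mul_of_nonneg_right e1 hY', mul_le_mul_of_nonneg_right e2 hZ']
      have e4 : (Δ.natAbs : ℤ) ≤ 2 * Y + 2 * Z := by
        rw [Int.natCast_natAbs]; exact e3
      have e5 : Δ.natAbs ≤ 2 * Y + 2 * Z := by exact_mod_cast e4
      have e6 : 2 * Y + 2 * Z ≤ 2 * N := by omega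
      have e7 : N ≤ N ^ 3 := Nat.le_self_pow (by norm_num) N
      omega
  calc ∏ k ∈ Finset.univ.erase k0, ((dset k0 Y Z k).card : ℝ)
      ≤ ∏ k ∈ Finset.univ.erase k0, B :=
        Finset.prod_le_prod (fun _ _ => Nat.cast_nonneg _) hle
    _ = B ^ 5 := by
        rw [Finset.prod_const, Finset.card_erase_of_mem (Finset.mem_univ k0)]
        simp

end WD
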